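import Pool.Agent.H24.KMM.Defs

set_option autoImplicit false

namespace KMMTree

open Relation

variable {V : Type}

theorem absorb_key (C : IClone V) (P : KMM C) (A D : Set V) (hBA : NoBA C A) (hDA : D ⊆ A)
    (hD : D.Nonempty) (hDs : Sub C D) (hne : D ≠ A) (k j : Fin 3) :
    (∃ b : Fin 3 → V, (∀ i, b i ∈ A) ∧ b k ∈ D ∧ P.p (b 0) (b 1) (b 2) ∉ D) ∨
    (∃ b : Fin 3 → V, (∀ i, b i ∈ A) ∧ b j ∈ D ∧ P.q (b 0) (b 1) (b 2) ∉ D) := by
  by_contra hcon
  push Not at hcon
  obtain ⟨h1, h2⟩ := hcon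
  have hp : ∀ x ∈ A, ∀ y ∈ A, ∀ z ∈ A, (![x, y, z] k ∈ D) → P.p x y z ∈ D := by
    intro x hx y hy z hz h
    exact h1 ![x, y, z] (by intro i; fin_cases i <;> simpa) h
  have hq : ∀ x ∈ A, ∀ y ∈ A, ∀ z ∈ A, (![x, y, z] j ∈ D) → P.q x y z ∈ D := by
    intro x hx y hy z hz h
    exact h2 ![x, y, z] (by intro i; fin_cases i <;> simpa) h
  apply hne
  have m1 : mem2 C (fun x y => P.q x y y) := P.hq.comp2 (mem2_fst C) (mem2_snd C) (mem2_snd C)
  have m2 : mem2 C (fun x y => P.q x y x) := P.hq.comp2 (mem2_fst C) (mem2_snd C) (mem2_fst C)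
  by_cases hj : j = 1
  · subst hj
    by_cases hk : k = 0
    · subst hk
      refine hBA D hDA hD hDs ⟨_, m2, ?_⟩
      intro d hd b hb
      refine ⟨?_, ?_⟩
      · rw [← P.h3]
        exact hp d (hDA hd) b hb d (hDA hd) (by simpa using hd)
      · exact hq b hb d (hDA hd) b hb (by simpa using hd)
    · refine hBA D hDA hD hDs ⟨_, m1, ?_⟩
      intro d hd b hb
      refine ⟨?_, ?_⟩
      · rw [← P.h1]
        refine hp b hb d (hDA hd) d (hDA hd) ?_
        fin_cases k <;> simp_all
      · exact hq b hb d (hDA hd) d (hDA hd) (by simpa using hd)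
  · refine hBA D hDA hD hDs ⟨_, m1, ?_⟩
    intro d hd b hb
    fin_cases j
    · refine ⟨hq d (hDA hd) b hb b hb (by simpa using hd), ?_⟩
      show P.q b d d ∈ D
      rw [P.h2]
      exact hq d (hDA hd) d (hDA hd) b hb (by simpa using hd)
    · exact absurd rfl hj
    · refine ⟨?_, hq b hb d (hDA hd) d (hDA hd) (by simpa using hd)⟩
      show P.q d b b ∈ D
      rw [P.h2]
      exact hq b hb b hb d (hDA hd) (by simpa using hd)

theorem center_absorbs [Finite V] (C : IClone V) (P : KMM C) (A : Set V) (hA : Sub C A)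
    (hBA : NoBA C A) (Q : V → V → Prop) (hQ : Compat2 C Q) (hne : ∀ a ∈ A, ∃ b ∈ A, Q a b)
    (c : V) (hc : c ∈ A) (hcQ : ∀ b ∈ A, Q c b) :
    Absorbs C {a | a ∈ A ∧ ∀ b ∈ A, Q a b} A := by
  classical
  set X : Set V := {a | a ∈ A ∧ ∀ b ∈ A, Q a b} with hX
  have hXs : Sub C X := by
    intro ι f hf x hx
    refine ⟨hA f hf x (fun i => (hx i).1), ?_⟩
    intro b hb
    have := hQ f hf x (fun _ => b) (fun i => (hx i).2 b hb)
    rw [C.idem f hf] at this
    exact this
  -- the 9-ary term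
  set s : (Fin 3 × Fin 3 → V) → V := fun x =>
    P.q (P.p (x (0, 0)) (x (0, 1)) (x (0, 2))) (P.p (x (1, 0)) (x (1, 1)) (x (1, 2)))
      (P.p (x (2, 0)) (x (2, 1)) (x (2, 2))) with hs
  have hsm : C.mem s :=
    P.hq.comp (P.hp.comp (C.proj _) (C.proj _) (C.proj _)) (P.hp.comp (C.proj _) (C.proj _) (C.proj _))
      (P.hp.comp (C.proj _) (C.proj _) (C.proj _))
  have step : ∀ (jk : Fin 3 × Fin 3) (x : Fin 3 × Fin 3 → V), (∀ i, x i ∈ A) →
      (∀ i, i ≠ jk → x i ∈ X) → x jk ∉ X →
      {b | b ∈ A ∧ Q (x jk) b} ⊂ {b | b ∈ A ∧ Q (s x) b} := by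
    rintro ⟨j, k⟩ x hxA hxX hxn
    set D : Set V := {b | b ∈ A ∧ Q (x (j, k)) b} with hD
    have hDA : D ⊆ A := fun b hb => hb.1
    have hDne : D.Nonempty := by
      obtain ⟨b, hb, hb'⟩ := hne _ (hxA (j, k))
      exact ⟨b, hb, hb'⟩
    have hDs : Sub C D := by
      intro ι f hf y hy
      refine ⟨hA f hf y (fun i => (hy i).1), ?_⟩
      have := hQ f hf (fun _ => x (j, k)) y (fun i => (hy i).2)
      rw [C.idem f hf] at this
      exact this
    have hDn : D ≠ A := by
      intro h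
      apply hxn
      refine ⟨hxA _, ?_⟩
      intro b hb
      rw [← h] at hb
      exact hb.2
    have big : ∀ y : Fin 3 × Fin 3 → V, (∀ i, y i ∈ A) → y (j, k) ∈ D → Q (s x) (s y) := by
      intro y hy hyD
      refine hQ s hsm x y ?_
      intro i
      by_cases hi : i = (j, k)
      · rw [hi]
        exact hyD.2
      · exact (hxX i hi).2 _ (hy i)
    have hsub : D ⊆ {b | b ∈ A ∧ Q (s x) b} := by
      intro b hb
      refine ⟨hb.1, ?_⟩
      have := big (fun _ => b) (fun _ => hb.1) hb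
      rw [C.idem s hsm] at this
      exact this
    refine ⟨hsub, ?_⟩
    intro hsup
    rcases absorb_key C P A D hBA hDA hDne hDs hDn k j with ⟨b, hb, hbD, hbn⟩ | ⟨b, hb, hbD, hbn⟩
    · apply hbn
      apply hsup
      refine ⟨Sub.ap3 hA P.hp (hb 0) (hb 1) (hb 2), ?_⟩
      have := big (fun i => b i.2) (fun i => hb _) hbD
      simp only [hs, P.hq.idem] at this
      exact this
    · apply hbn
      apply hsup
      refine ⟨Sub.ap3 hA P.hq (hb 0) (hb 1) (hb 2), ?_⟩
      have := big (fun i => b i.1) (fun i => hb _) hbD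
      simp only [hs, P.hp.idem] at this
      exact this
  have main : ∀ m : ℕ, ∃ (ι : Type) (_ : Finite ι) (_ : Nonempty ι) (t : (ι → V) → V), C.mem t ∧
      ∀ (i : ι) (x : ι → V), (∀ j, x j ∈ A) → (∀ j, j ≠ i → x j ∈ X) →
        t x ∈ X ∨ m + 1 ≤ {b | b ∈ A ∧ Q (t x) b}.ncard := by
    intro m
    induction m with
    | zero =>
      refine ⟨Unit, inferInstance, inferInstance, fun x => x (), C.proj (), ?_⟩
      intro i x hxA _
      right
      obtain ⟨b, hb, hb'⟩ := hne _ (hxA ())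
      rw [zero_add, Nat.succ_le_iff, Set.ncard_pos]
      exact ⟨b, hb, hb'⟩
    | succ m ih =>
      obtain ⟨ι, hι, hι', t, htm, ht⟩ := ih
      refine ⟨(Fin 3 × Fin 3) × ι, inferInstance, inferInstance,
        fun x => s (fun jk => t (fun i => x (jk, i))), ?_, ?_⟩
      · exact C.comp s (fun jk x => t (fun i => x (jk, i))) hsm
          (fun jk => C.comp t (fun i x => x (jk, i)) htm (fun i => C.proj _))
      · rintro ⟨jk, i⟩ x hxA hxX
        have hA' : ∀ jk', t (fun i => x (jk', i)) ∈ A := fun jk' => hA t htm _ (fun i => hxA _)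
        have hX' : ∀ jk', jk' ≠ jk → t (fun i => x (jk', i)) ∈ X := by
          intro jk' hjk'
          refine hXs t htm _ (fun i' => hxX _ ?_)
          intro h
          exact hjk' (Prod.ext_iff.1 h).1
        by_cases hin : t (fun i => x (jk, i)) ∈ X
        · left
          refine hXs s hsm (fun jk => t (fun i => x (jk, i))) ?_
          intro jk'
          by_cases h : jk' = jk
          · rw [h]; exact hin
          · exact hX' jk' h
        · right
          have h1 := step jk (fun jk' => t (fun i => x (jk', i))) hA' hX' hin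
          have h2 : m + 1 ≤ {b | b ∈ A ∧ Q (t (fun i => x (jk, i))) b}.ncard := by
            rcases ht i (fun i => x (jk, i)) (fun i => hxA _) (fun i' hi' => hxX _ (by
              intro h
              exact hi' (Prod.ext_iff.1 h).2)) with h | h
            · exact absurd h hin
            · exact h
          have h3 := Set.ncard_lt_ncard h1 (Set.toFinite _)
          have h4 : m + 1 < {b | b ∈ A ∧ Q (s (fun jk' => t (fun i => x (jk', i)))) b}.ncard :=
            lt_of_le_of_lt h2 h3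
          exact h4
  obtain ⟨ι, hι, hι', t, htm, ht⟩ := main A.ncard
  refine ⟨ι, hι, hι', t, htm, ?_⟩
  intro i x hxA hxX
  rcases ht i x hxA hxX with h | h
  · exact h
  · exfalso
    have : {b | b ∈ A ∧ Q (t x) b}.ncard ≤ A.ncard :=
      Set.ncard_le_ncard (fun b hb => hb.1) (Set.toFinite _)
    omega

end KMMTree
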