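import Pool.Agent.H24.KMM.Defs

set_option autoImplicit false

namespace KMMTree

open Relation

variable {V : Type}

theorem cycle_alg {K : Type} [Finite K] (st : K → K → K) (comm : ∀ a b, st a b = st b a)
    (quasi : ∀ a b, st a (st a b) = b) (noidem : ∀ a, st a a ≠ a)
    (sinj : ∀ a b, st a a = st b b → a = b) (P Q : K → K → K → K)
    (hPi : ∀ a, P a a a = a) (hQi : ∀ a, Q a a a = a)
    (h1 : ∀ x y, P x y y = Q y x x) (h2 : ∀ x y, Q y x x = Q x x y)
    (h3 : ∀ x y, P x y x = Q x y x)
    (hP : ∀ a b c a' b' c', st (P a b c) (P a' b' c') = P (st a a') (st b b') (st c c'))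
    (hQ : ∀ a b c a' b' c', st (Q a b c) (Q a' b' c') = Q (st a a') (st b b') (st c c'))
    (a : K) :
    (∃ b n, 0 < n ∧ (fun v => Q a v a)^[n] b = b ∧ Q a b a ≠ b) ∨
    (∃ b n, 0 < n ∧ (fun v => Q v a a)^[n] b = b ∧ Q b a a ≠ b) ∨
    (∃ b n, 0 < n ∧ (fun v => P a a v)^[n] b = b ∧ P a a b ≠ b) := by
  classical
  have cancel : ∀ x y z : K, st x y = st x z → y = z := by
    intro x y z h
    rw [← quasi x y, h, quasi x z]
  -- e x y := Q y x x
  have e5 : ∀ x y, st (Q y x x) (Q x y x) = st (Q x y y) x := by
    intro x y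
    have r1 : st (Q y x x) (Q x y x) = Q (st x x) (st x y) (st y x) := by rw [h2 x y, hQ]
    have r2 : st (Q x y y) x = Q (st x x) (st y x) (st y x) := by
      have := hQ x y y x x x
      rw [hQi x] at this
      exact this
    rw [r1, r2, comm x y]
  have e7 : ∀ x y, st (Q y x x) x = st (P x y x) (P x x y) := by
    intro x y
    have r1 : st (P x y y) x = P (st x x) (st y x) (st y x) := by
      have := hP x y y x x x
      rw [hPi x] at this
      exact this
    rw [← h1 x y, r1, hP, comm x y]
  have e8 : ∀ x y, st (Q y x x) (Q x y y) = st x y := by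
    intro x y
    rw [h2 x y, h2 y x, hQ, comm y x, hQi]
  -- value of e at a, y := s(a) * x
  have ey : ∀ x, Q (st (st a a) x) a a = st (st a a) (Q x a a) := by
    intro x
    have h := hQ (st a a) (st a a) (st a a) x a a
    rw [hQi] at h
    have h4 : st (st a a) a = a := by rw [comm, quasi]
    rw [h4] at h
    exact h.symm
  have hne : ∀ x, x ≠ a → st (st a a) x ≠ x := by
    intro x hx h
    apply hx
    apply sinj
    have h4 := quasi x (st a a)
    rw [comm x (st a a), h] at h4
    exact h4
  have hinv : ∀ x, st (st a a) (st (st a a) x) = x := fun x => quasi _ _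
  by_cases c1 : ∃ x, x ≠ a ∧ Q x a a = x
  · obtain ⟨x, hx, hex⟩ := c1
    left
    have key : ∀ x, Q x a a = x → Q a x a = st (st a a) x := by
      intro x hex
      have k1 := e8 a x
      rw [hex, comm a x] at k1
      have k2 := cancel _ _ _ k1
      have k3 := e5 a x
      rw [hex, k2] at k3
      have k4 := quasi x (Q a x a)
      rw [k3] at k4
      rw [← k4, comm]
    refine ⟨x, 2, by norm_num, ?_, ?_⟩
    · simp only [Function.iterate_succ_apply, Function.iterate_zero, id]
      rw [key x hex, key _ (by rw [ey, hex]), hinv]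
    · rw [key x hex]
      exact hne x hx
  · push Not at c1
    by_cases c2 : ∃ b n, 0 < n ∧ (fun v => Q v a a)^[n] b = b ∧ Q b a a ≠ b
    · exact Or.inr (Or.inl c2)
    · right
      right
      push Not at c2
      -- some x ≠ a with e(a,x) = a
      have h5 : ∀ b n, 0 < n → (fun v => Q v a a)^[n] b = b → b = a := by
        intro b n hn h
        by_contra hb
        exact c1 b hb (c2 b n hn h)
      obtain ⟨x, hx, hex⟩ : ∃ x, x ≠ a ∧ Q x a a = a := by
        have h6 : ∃ i, (fun v => Q v a a)^[i] (st a a) = a := by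
          obtain ⟨i, j, hij, he⟩ := Finite.exists_ne_map_eq_of_infinite
            (fun i : ℕ => (fun v => Q v a a)^[i] (st a a))
          rcases lt_or_gt_of_ne hij with h | h
          · refine ⟨i, h5 _ (j - i) (by omega) ?_⟩
            rw [← Function.iterate_add_apply, Nat.sub_add_cancel h.le, he]
          · refine ⟨j, h5 _ (i - j) (by omega) ?_⟩
            rw [← Function.iterate_add_apply, Nat.sub_add_cancel (le_of_lt h), he]
        let i0 := Nat.find h6
        have hi0 : (fun v => Q v a a)^[i0] (st a a) = a := Nat.find_spec h6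
        have hmin : ∀ m, m < i0 → (fun v => Q v a a)^[m] (st a a) ≠ a :=
          fun m hm => Nat.find_min h6 hm
        rcases Nat.eq_zero_or_pos i0 with h7 | h7
        · rw [h7] at hi0
          exact absurd hi0 (noidem a)
        · refine ⟨(fun v => Q v a a)^[i0 - 1] (st a a), hmin _ (by omega), ?_⟩
          have h8 : i0 = (i0 - 1) + 1 := by omega
          rw [h8, Function.iterate_succ_apply'] at hi0
          exact hi0
      have key : ∀ x, Q x a a = a → P a a x = st (st a a) x := by
        intro x hex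
        have k1 := e8 a x
        rw [hex] at k1
        have k2 := cancel _ _ _ k1
        have k3 := e5 a x
        rw [hex, k2, comm x a] at k3
        have k4 := cancel _ _ _ k3
        have k5 := e7 a x
        rw [hex, h3, k4] at k5
        have k6 := quasi x (P a a x)
        rw [← k5] at k6
        rw [← k6, comm]
      refine ⟨x, 2, by norm_num, ?_, ?_⟩
      · simp only [Function.iterate_succ_apply, Function.iterate_zero, id]
        rw [key x hex, key _ ?_, hinv]
        rw [ey, hex, comm, quasi]
      · rw [key x hex]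
        exact hne x hx

theorem core_cycle [Finite V] (C : IClone V) (P : KMM C) (B : Set V) (K : Type) (cl : V → K)
    (st : K → K → K) (h : Core C B K cl st) :
    ∀ a ∈ B, ∃ f : V → V → V, mem2 C f ∧ ∃ b ∈ B, ∃ n, 0 < n ∧
      cl ((f a)^[n] b) = cl b ∧ cl (f a b) ≠ cl b := by
  classical
  intro a ha
  have hfin : Finite K := by
    refine Finite.of_surjective cl ?_
    intro k
    obtain ⟨b, _, hb⟩ := h.surj k
    exact ⟨b, hb⟩
  choose rep hrep hcl using h.surj
  -- action of ternary terms
  have act : ∀ t : V → V → V → V, mem3 C t → ∀ x ∈ B, ∀ y ∈ B, ∀ z ∈ B,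
      cl (t (rep (cl x)) (rep (cl y)) (rep (cl z))) = cl (t x y z) := by
    intro t ht x hx y hy z hz
    exact h.clc _ ht ![rep (cl x), rep (cl y), rep (cl z)] ![x, y, z]
      (by intro i; fin_cases i <;> simp [hrep]) (by intro i; fin_cases i <;> simp [hx, hy, hz])
      (by intro i; fin_cases i <;> simp [hcl])
  have hom : ∀ t : V → V → V → V, mem3 C t → ∀ x y z x' y' z' : K,
      st (cl (t (rep x) (rep y) (rep z))) (cl (t (rep x') (rep y') (rep z'))) =
        cl (t (rep (st x x')) (rep (st y y')) (rep (st z z'))) := by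
    intro t ht x y z x' y' z'
    exact h.compat _ ht ![rep x, rep y, rep z] ![rep x', rep y', rep z']
      ![rep (st x x'), rep (st y y'), rep (st z z')]
      (by intro i; fin_cases i <;> simp [hrep]) (by intro i; fin_cases i <;> simp [hrep])
      (by intro i; fin_cases i <;> simp [hrep]) (by intro i; fin_cases i <;> simp [hcl])
  have hsw : ∀ (t : V → V → V → V), mem3 C t → ∀ x : K, cl (t (rep x) (rep x) (rep x)) = x := by
    intro t ht x
    rw [ht.idem, hcl]
  have lift : ∀ f : V → V → V, mem2 C f → ∀ F : K → K,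
      (∀ x ∈ B, cl (f a x) = F (cl x)) → (∃ b n, 0 < n ∧ F^[n] b = b ∧ F b ≠ b) →
      ∃ f : V → V → V, mem2 C f ∧ ∃ b ∈ B, ∃ n, 0 < n ∧
        cl ((f a)^[n] b) = cl b ∧ cl (f a b) ≠ cl b := by
    intro f hf F hF hb
    obtain ⟨b, n, hn, h1, h2⟩ := hb
    refine ⟨f, hf, rep b, hrep b, n, hn, ?_, ?_⟩
    · have h3 : ∀ m, (f a)^[m] (rep b) ∈ B ∧ cl ((f a)^[m] (rep b)) = F^[m] b := by
        intro m
        induction m with
        | zero => exact ⟨hrep b, hcl b⟩
        | succ m ih =>
          rw [Function.iterate_succ_apply', Function.iterate_succ_apply']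
          exact ⟨Sub.ap2 h.sub hf ha ih.1, by rw [hF _ ih.1, ih.2]⟩
      rw [(h3 n).2, h1, hcl]
    · rw [hF _ (hrep b), hcl]
      exact h2
  rcases cycle_alg st h.comm h.quasi h.noidem h.sinj
    (fun x y z => cl (P.p (rep x) (rep y) (rep z))) (fun x y z => cl (P.q (rep x) (rep y) (rep z)))
    (hsw _ P.hp) (hsw _ P.hq) (fun x y => by simp only [P.h1]) (fun x y => by simp only [P.h2])
    (fun x y => by simp only [P.h3]) (hom _ P.hp) (hom _ P.hq) (cl a) with hb | hb | hb
  · exact lift (fun u v => P.q u v u) (P.hq.comp2 (mem2_fst C) (mem2_snd C) (mem2_fst C)) _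
      (fun x hx => (act _ P.hq a ha x hx a ha).symm) hb
  · exact lift (fun u v => P.q v u u) (P.hq.comp2 (mem2_snd C) (mem2_fst C) (mem2_fst C)) _
      (fun x hx => (act _ P.hq x hx a ha a ha).symm) hb
  · exact lift (fun u v => P.p u u v) (P.hp.comp2 (mem2_fst C) (mem2_fst C) (mem2_snd C)) _
      (fun x hx => (act _ P.hp a ha a ha x hx).symm) hb

end KMMTree
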