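import Mathlib

/-!
# Definitions for MP_cc4cfd_al (KMM polymorphisms versus 3-wnu polymorphisms on oriented trees)

See `team-store MP_cc4cfd_proof.md` for the paper proof.
-/

set_option autoImplicit false

namespace KMMTree

open Relation

/-! ## Walks inside a set (generic) -/

/-- `Cn r Q x y`: there is an `r`-walk from `x` to `y` all of whose vertices (including both ends)
satisfy `Q`. -/
def Cn {X : Type} (r : X → X → Prop) (Q : X → Prop) (x y : X) : Prop :=
  Q x ∧ ReflTransGen (fun a b => r a b ∧ Q b) x y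

namespace Cn

variable {X : Type} {r : X → X → Prop} {Q Q' : X → Prop} {x y z : X}

theorem left (h : Cn r Q x y) : Q x := h.1

theorem right (h : Cn r Q x y) : Q y := by
  obtain ⟨h1, h2⟩ := h
  induction h2 with
  | refl => exact h1
  | tail _ h _ => exact h.2

theorem refl (h : Q x) : Cn r Q x x := ⟨h, ReflTransGen.refl⟩

theorem tail (h : Cn r Q x y) (h' : r y z) (hz : Q z) : Cn r Q x z := ⟨h.1, h.2.tail ⟨h', hz⟩⟩

theorem head (hx : Q x) (h' : r x y) (h : Cn r Q y z) : Cn r Q x z :=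
  ⟨hx, ReflTransGen.head ⟨h', h.1⟩ h.2⟩

theorem single (hx : Q x) (h' : r x y) (hy : Q y) : Cn r Q x y := (refl hx).tail h' hy

theorem trans (h : Cn r Q x y) (h' : Cn r Q y z) : Cn r Q x z := ⟨h.1, h.2.trans h'.2⟩


/-- induction along the walk -/
theorem induct {P : X → Prop} (h : Cn r Q x y) (h0 : P x)
    (hs : ∀ a b, Cn r Q x a → P a → r a b → Q b → P b) : P y := by
  obtain ⟨h1, h2⟩ := h
  induction h2 with
  | refl => exact h0
  | tail h3 h4 ih => exact hs _ _ ⟨h1, h3⟩ ih h4.1 h4.2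

theorem mono (h : Cn r Q x y) (hQ : ∀ v, Q v → Q' v) : Cn r Q' x y := by
  refine h.induct (P := fun y => Cn r Q' x y) (refl (hQ _ h.1)) ?_
  intro a b _ h2 h3 h4
  exact h2.tail h3 (hQ _ h4)

theorem symm (hr : ∀ a b, r a b → r b a) (h : Cn r Q x y) : Cn r Q y x := by
  refine h.induct (P := fun y => Cn r Q y x) (refl h.1) ?_
  intro a b _ h2 h3 h4
  exact head h4 (hr _ _ h3) h2

/-- all vertices of a walk from `x` are reachable from `x` -/
theorem reach (h : Cn r Q x y) : Cn r (fun v => Cn r Q x v) x y := by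
  refine h.induct (P := fun y => Cn r (fun v => Cn r Q x v) x y) (refl (refl h.1)) ?_
  intro a b h1 h2 h3 h4
  exact h2.tail h3 (h1.tail h3 h4)

/-- exit lemma: either the walk stays in `Q'` or it leaves `Q'` somewhere -/
theorem exit (h : Cn r Q x y) (hx : Q' x) :
    Cn r (fun v => Q v ∧ Q' v) x y ∨
      ∃ a b, Cn r (fun v => Q v ∧ Q' v) x a ∧ r a b ∧ Q b ∧ ¬ Q' b := by
  refine h.induct (P := fun y => Cn r (fun v => Q v ∧ Q' v) x y ∨
      ∃ a b, Cn r (fun v => Q v ∧ Q' v) x a ∧ r a b ∧ Q b ∧ ¬ Q' b) (Or.inl (refl ⟨h.1, hx⟩)) ?_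
  intro a b _ h2 h3 h4
  rcases h2 with h2 | h2
  · by_cases hb : Q' b
    · exact Or.inl (h2.tail h3 ⟨h4, hb⟩)
    · exact Or.inr ⟨a, b, h2, h3, h4, hb⟩
  · exact Or.inr h2

/-- image of a walk under a map that is a homomorphism along the walk -/
theorem map {Y : Type} {s : Y → Y → Prop} {P : Y → Prop} (F : X → Y) (h : Cn r Q x y)
    (hr : ∀ a b, Cn r Q x a → r a b → Q b → s (F a) (F b))
    (hP : ∀ a, Cn r Q x a → P (F a)) : Cn s P (F x) (F y) := by
  refine h.induct (P := fun y => Cn s P (F x) (F y)) (refl (hP _ (refl h.1))) ?_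
  intro a b h1 h2 h3 h4
  exact h2.tail (hr _ _ h1 h3 h4) (hP _ (h1.tail h3 h4))

/-- the walk as a sequence -/
theorem exists_seq (h : Cn r Q x y) : ∃ (n : ℕ) (f : ℕ → X), f 0 = x ∧ f n = y ∧
    (∀ i, i < n → r (f i) (f (i + 1))) ∧ ∀ i, i ≤ n → Q (f i) := by
  refine h.induct (P := fun y => ∃ (n : ℕ) (f : ℕ → X), f 0 = x ∧ f n = y ∧
    (∀ i, i < n → r (f i) (f (i + 1))) ∧ ∀ i, i ≤ n → Q (f i))
    ⟨0, fun _ => x, rfl, rfl, by intro i hi; omega, fun _ _ => h.1⟩ ?_
  rintro a b _ ⟨n, f, h0, hn, hs, hQ⟩ h3 h4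
  refine ⟨n + 1, fun i => if i ≤ n then f i else b, by simp [h0], by simp, ?_, ?_⟩
  · intro i hi
    by_cases h : i < n
    · have h5 : i + 1 ≤ n := h
      have h6 : i ≤ n := h.le
      simp only [h5, h6, if_true]
      exact hs i h
    · have h5 : i = n := by omega
      subst h5
      simp only [le_refl, if_true, Nat.not_succ_le_self, if_false]
      rw [hn]
      exact h3
  · intro i hi
    by_cases h : i ≤ n
    · simp only [h, if_true]
      exact hQ i h
    · simp only [h, if_false]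
      exact h4

/-- a sequence gives a walk between any two of its members -/
theorem of_seq {n : ℕ} {f : ℕ → X} (hs : ∀ i, i < n → r (f i) (f (i + 1)))
    (hQ : ∀ i, i ≤ n → Q (f i)) {i j : ℕ} (hij : i ≤ j) (hj : j ≤ n) : Cn r Q (f i) (f j) := by
  induction j, hij using Nat.le_induction with
  | base => exact refl (hQ i hj)
  | succ k hk ih =>
    exact (ih (by omega)).tail (hs k (by omega)) (hQ _ hj)

/-- version of `of_seq` where the set is only required on the segment `[i,j]` -/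
theorem of_seq' {f : ℕ → X} {i j : ℕ} (hij : i ≤ j)
    (hs : ∀ k, i ≤ k → k < j → r (f k) (f (k + 1)))
    (hQ : ∀ k, i ≤ k → k ≤ j → Q (f k)) : Cn r Q (f i) (f j) := by
  induction j, hij using Nat.le_induction with
  | base => exact refl (hQ i le_rfl le_rfl)
  | succ k hk ih =>
    exact (ih (fun l h1 h2 => hs l h1 (by omega)) (fun l h1 h2 => hQ l h1 (by omega))).tail
      (hs k hk (by omega)) (hQ _ (by omega) le_rfl)

end Cn

/-! ## Digraphs -/

variable {V : Type}

/-- undirected adjacency of a digraph -/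
def Adj (E : V → V → Prop) (x y : V) : Prop := E x y ∨ E y x

/-- undirected adjacency in the square of a digraph -/
def Adj2 (E : V → V → Prop) (p q : V × V) : Prop :=
  (E p.1 q.1 ∧ E p.2 q.2) ∨ (E q.1 p.1 ∧ E q.2 p.2)

/-- connected in the underlying graph by a walk inside `Q` -/
abbrev Conn (E : V → V → Prop) (Q : V → Prop) (x y : V) : Prop := Cn (Adj E) Q x y

/-- connected in the square by a walk inside `Q` -/
abbrev Conn2 (E : V → V → Prop) (Q : V × V → Prop) (p q : V × V) : Prop := Cn (Adj2 E) Q p q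

theorem adj_symm {E : V → V → Prop} : ∀ a b : V, Adj E a b → Adj E b a := by
  rintro a b (h | h)
  · exact Or.inr h
  · exact Or.inl h

theorem adj2_symm {E : V → V → Prop} : ∀ a b : V × V, Adj2 E a b → Adj2 E b a := by
  rintro a b (h | h)
  · exact Or.inr h
  · exact Or.inl h

/-- level function -/
def IsLevel (E : V → V → Prop) (lam : V → ℤ) : Prop := ∀ a b, E a b → lam b = lam a + 1

/-- vertices with level in `[l,h]` -/
def Band (lam : V → ℤ) (l h : ℤ) (v : V) : Prop := l ≤ lam v ∧ lam v ≤ h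

/-- pairs with equal levels, in `[l,h]` -/
def Band2 (lam : V → ℤ) (l h : ℤ) (p : V × V) : Prop :=
  lam p.1 = lam p.2 ∧ l ≤ lam p.1 ∧ lam p.1 ≤ h

/-- binary polymorphism -/
def Poly2 (E : V → V → Prop) (s : V → V → V) : Prop :=
  ∀ x x' y y', E x x' → E y y' → E (s x y) (s x' y')

/-! ## Clones of idempotent operations -/

/-- a clone of idempotent operations on `V`, of arbitrary arities -/
structure IClone (V : Type) where
  /-- membership -/
  mem : ∀ {ι : Type}, ((ι → V) → V) → Prop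
  proj : ∀ {ι : Type} (i : ι), mem (fun x : ι → V => x i)
  comp : ∀ {ι κ : Type} (f : (ι → V) → V) (g : ι → (κ → V) → V),
    mem f → (∀ i, mem (g i)) → mem (fun x => f (fun i => g i x))
  idem : ∀ {ι : Type} (f : (ι → V) → V), mem f → ∀ a, f (fun _ => a) = a

/-- binary members (curried) -/
def mem2 (C : IClone V) (t : V → V → V) : Prop := C.mem (fun x : Fin 2 → V => t (x 0) (x 1))

/-- ternary members (curried) -/
def mem3 (C : IClone V) (t : V → V → V → V) : Prop :=
  C.mem (fun x : Fin 3 → V => t (x 0) (x 1) (x 2))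

theorem mem2.comp {C : IClone V} {t : V → V → V} (h : mem2 C t) {κ : Type} {f g : (κ → V) → V}
    (hf : C.mem f) (hg : C.mem g) : C.mem (fun x => t (f x) (g x)) := by
  have := C.comp (fun x : Fin 2 → V => t (x 0) (x 1)) ![f, g] h (by
    intro i
    fin_cases i
    · exact hf
    · exact hg)
  exact this

theorem mem3.comp {C : IClone V} {t : V → V → V → V} (h : mem3 C t) {κ : Type}
    {f g k : (κ → V) → V}
    (hf : C.mem f) (hg : C.mem g) (hk : C.mem k) : C.mem (fun x => t (f x) (g x) (k x)) := by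
  have := C.comp (fun x : Fin 3 → V => t (x 0) (x 1) (x 2)) ![f, g, k] h (by
    intro i
    fin_cases i
    · exact hf
    · exact hg
    · exact hk)
  exact this

theorem mem2.idem {C : IClone V} {t : V → V → V} (h : mem2 C t) (a : V) : t a a = a :=
  C.idem _ h a

theorem mem3.idem {C : IClone V} {t : V → V → V → V} (h : mem3 C t) (a : V) : t a a a = a :=
  C.idem _ h a

theorem mem2_fst (C : IClone V) : mem2 C (fun x _ => x) := C.proj (0 : Fin 2)

theorem mem2_snd (C : IClone V) : mem2 C (fun _ y => y) := C.proj (1 : Fin 2)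

theorem mem2.comp2 {C : IClone V} {t f g : V → V → V} (h : mem2 C t) (hf : mem2 C f)
    (hg : mem2 C g) : mem2 C (fun x y => t (f x y) (g x y)) :=
  mem2.comp (f := fun x : Fin 2 → V => f (x 0) (x 1)) (g := fun x : Fin 2 → V => g (x 0) (x 1))
    h hf hg

theorem mem3.comp2 {C : IClone V} {t : V → V → V → V} {f g k : V → V → V} (h : mem3 C t)
    (hf : mem2 C f) (hg : mem2 C g) (hk : mem2 C k) :
    mem2 C (fun x y => t (f x y) (g x y) (k x y)) :=
  mem3.comp (f := fun x : Fin 2 → V => f (x 0) (x 1)) (g := fun x : Fin 2 → V => g (x 0) (x 1))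
    (k := fun x : Fin 2 → V => k (x 0) (x 1)) h hf hg hk

/-- subuniverses -/
def Sub (C : IClone V) (B : Set V) : Prop :=
  ∀ {ι : Type} (f : (ι → V) → V), C.mem f → ∀ x : ι → V, (∀ i, x i ∈ B) → f x ∈ B

/-- compatible binary relations -/
def Compat2 (C : IClone V) (Q : V → V → Prop) : Prop :=
  ∀ {ι : Type} (f : (ι → V) → V), C.mem f → ∀ x y : ι → V, (∀ i, Q (x i) (y i)) → Q (f x) (f y)

/-- compatible ternary relations -/
def Compat3 (C : IClone V) (R : V → V → V → Prop) : Prop :=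
  ∀ {ι : Type} (f : (ι → V) → V), C.mem f → ∀ x y z : ι → V, (∀ i, R (x i) (y i) (z i)) →
    R (f x) (f y) (f z)

/-- compatible relation between an abstract index type `U` and `V` -/
def Lnk (C : IClone V) {U : Type} (Γ : U → V → Prop) : Prop :=
  ∀ {ι : Type} (f : (ι → V) → V), C.mem f → ∀ u : ι → U, ∃ u' : U,
    ∀ x : ι → V, (∀ i, Γ (u i) (x i)) → Γ u' (f x)

theorem Sub.ap2 {C : IClone V} {B : Set V} (hB : Sub C B) {t : V → V → V} (ht : mem2 C t)
    {a b : V} (ha : a ∈ B) (hb : b ∈ B) : t a b ∈ B :=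
  hB _ ht ![a, b] (by intro i; fin_cases i <;> simpa)

theorem Sub.ap3 {C : IClone V} {B : Set V} (hB : Sub C B) {t : V → V → V → V} (ht : mem3 C t)
    {a b c : V} (ha : a ∈ B) (hb : b ∈ B) (hc : c ∈ B) : t a b c ∈ B :=
  hB _ ht ![a, b, c] (by intro i; fin_cases i <;> simpa)

theorem Compat2.ap2 {C : IClone V} {Q : V → V → Prop} (hQ : Compat2 C Q) {t : V → V → V}
    (ht : mem2 C t) {a b a' b' : V} (h1 : Q a a') (h2 : Q b b') : Q (t a b) (t a' b') :=
  hQ _ ht ![a, b] ![a', b'] (by intro i; fin_cases i <;> simpa)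

theorem Compat2.ap3 {C : IClone V} {Q : V → V → Prop} (hQ : Compat2 C Q) {t : V → V → V → V}
    (ht : mem3 C t) {a b c a' b' c' : V} (h1 : Q a a') (h2 : Q b b') (h3 : Q c c') :
    Q (t a b c) (t a' b' c') :=
  hQ _ ht ![a, b, c] ![a', b', c'] (by intro i; fin_cases i <;> simpa)

theorem Compat3.ap2 {C : IClone V} {R : V → V → V → Prop} (hR : Compat3 C R) {t : V → V → V}
    (ht : mem2 C t) {a b a' b' a'' b'' : V} (h1 : R a a' a'') (h2 : R b b' b'') :
    R (t a b) (t a' b') (t a'' b'') :=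
  hR _ ht ![a, b] ![a', b'] ![a'', b''] (by intro i; fin_cases i <;> simpa)

theorem Compat3.ap3 {C : IClone V} {R : V → V → V → Prop} (hR : Compat3 C R)
    {t : V → V → V → V} (ht : mem3 C t) {a b c a' b' c' a'' b'' c''  : V} (h1 : R a a' a'')
    (h2 : R b b' b'') (h3 : R c c' c'') :
    R (t a b c) (t a' b' c') (t a'' b'' c'') :=
  hR _ ht ![a, b, c] ![a', b', c'] ![a'', b'', c''] (by intro i; fin_cases i <;> simpa)

/-- a pair of KMM terms -/
structure KMM (C : IClone V) where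
  /-- first term -/
  p : V → V → V → V
  /-- second term -/
  q : V → V → V → V
  hp : mem3 C p
  hq : mem3 C q
  h1 : ∀ x y, p x y y = q y x x
  h2 : ∀ x y, q y x x = q x x y
  h3 : ∀ x y, p x y x = q x y x

/-- `D` absorbs `B` by a binary operation -/
def BA (C : IClone V) (D B : Set V) : Prop :=
  ∃ t : V → V → V, mem2 C t ∧ ∀ d ∈ D, ∀ b ∈ B, t d b ∈ D ∧ t b d ∈ D

/-- `B` has no proper nonempty binary absorbing subuniverse -/
def NoBA (C : IClone V) (B : Set V) : Prop :=
  ∀ D : Set V, D ⊆ B → D.Nonempty → Sub C D → BA C D B → D = B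

/-- `X` absorbs `A` by some operation of the clone of finite arity -/
def Absorbs (C : IClone V) (X A : Set V) : Prop :=
  ∃ (ι : Type) (_ : Finite ι) (_ : Nonempty ι) (t : (ι → V) → V), C.mem t ∧
    ∀ (i : ι) (x : ι → V), (∀ j, x j ∈ A) → (∀ j, j ≠ i → x j ∈ X) → t x ∈ X

/-- `A` has no proper center -/
def NoCenter (C : IClone V) (A : Set V) : Prop :=
  ∀ Q : V → V → Prop, Compat2 C Q → (∀ a ∈ A, ∃ b ∈ A, Q a b) →
    (∃ c ∈ A, ∀ b ∈ A, Q c b) → ∀ a ∈ A, ∀ b ∈ A, Q a b

/-- The output of the algebraic part: the quotient of a minimal counterexample `B` is a totally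
symmetric quasigroup `(K, st)` without idempotent elements and with injective squaring. -/
structure Core (C : IClone V) (B : Set V) (K : Type) (cl : V → K) (st : K → K → K) : Prop where
  sub : Sub C B
  ne : B.Nonempty
  surj : ∀ k, ∃ b ∈ B, cl b = k
  comm : ∀ a b, st a b = st b a
  quasi : ∀ a b, st a (st a b) = b
  noidem : ∀ a, st a a ≠ a
  sinj : ∀ a b, st a a = st b b → a = b
  clc : ∀ {ι : Type} (f : (ι → V) → V), C.mem f → ∀ x y : ι → V, (∀ i, x i ∈ B) →
    (∀ i, y i ∈ B) → (∀ i, cl (x i) = cl (y i)) → cl (f x) = cl (f y)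
  compat : ∀ {ι : Type} (f : (ι → V) → V), C.mem f → ∀ x y z : ι → V, (∀ i, x i ∈ B) →
    (∀ i, y i ∈ B) → (∀ i, z i ∈ B) → (∀ i, st (cl (x i)) (cl (y i)) = cl (z i)) →
    st (cl (f x)) (cl (f y)) = cl (f z)
  minimal : ∀ B' : Set V, B' ⊆ B → Sub C B' →
    (∃ x ∈ B', ∃ y ∈ B', ∃ z ∈ B', st (cl x) (cl y) = cl z) → B' = B
  dich : ∀ (U : Type) (Γ : U → V → Prop), Lnk C Γ → (∀ b ∈ B, ∃ u, Γ u b) →
    (∃ u, ∀ b ∈ B, Γ u b) ∨
      ∀ u, ∀ a ∈ B, ∀ b ∈ B, Γ u a → Γ u b → cl a = cl b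

/-- the clone of idempotent polymorphisms of a digraph -/
def polClone (E : V → V → Prop) : IClone V where
  mem := fun {ι} f => (∀ x y : ι → V, (∀ i, E (x i) (y i)) → E (f x) (f y)) ∧
    ∀ a, f (fun _ => a) = a
  proj := fun i => ⟨fun _ _ h => h i, fun _ => rfl⟩
  comp := fun f g hf hg => ⟨fun x y h => hf.1 _ _ (fun i => (hg i).1 x y h), fun a => by
    have : (fun i => g i (fun _ => a)) = fun _ => a := funext (fun i => (hg i).2 a)
    simp only [this]
    exact hf.2 a⟩
  idem := fun f hf => hf.2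

theorem mem2_polClone {E : V → V → Prop} {s : V → V → V} :
    mem2 (polClone E) s ↔ Poly2 E s ∧ ∀ a, s a a = a := by
  constructor
  · rintro ⟨h1, h2⟩
    refine ⟨fun x x' y y' hx hy => ?_, h2⟩
    exact h1 ![x, y] ![x', y'] (by intro i; fin_cases i <;> simpa)
  · rintro ⟨h1, h2⟩
    exact ⟨fun x y h => h1 _ _ _ _ (h 0) (h 1), h2⟩

end KMMTree
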