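import Pool.Agent.H24.KMM.Defs

/-!
# Module GLOBAL: from constant tuples to a 3-wnu

Among the ternary members `w` of the clone take one for which the number of good pairs `(x,y)`
(`w x x y = w x y x = w y x x`) is maximal.  Suppose `(x,y)` is bad. Let
`val : Fin 3 → V`, `val k = w (tuple with y at k and x elsewhere)`.
`R (r0,r1,r2) :⟺ ∃ g : ((Equiv.Perm (Fin 3)) → V) → V, C.mem g ∧ ∀ j, r_j = g (fun σ => val (σ⁻¹ j))`
is compatible, symmetric (permuting coordinates by `π` amounts to replacing `g` by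
`F ↦ g (fun σ => F (π⁻¹ * σ))`), nonempty (projections).  So it has a constant tuple; for this `g`,
`w' v := g (fun σ => w (v ∘ σ))` is a member of the clone, every pair good for `w` is good for `w'`
(idempotence) and `(x,y)` is good for `w'`.
-/

set_option autoImplicit false

namespace KMMTree

variable {V : Type}

/-- tuple with `y` at `j` and `x` elsewhere -/
def tup3 (x y : V) (j : Fin 3) : Fin 3 → V := fun i => if i = j then y else x

theorem tup3_comp (x y : V) (j : Fin 3) (σ : Equiv.Perm (Fin 3)) :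
    tup3 x y j ∘ σ = tup3 x y (σ⁻¹ j) := by
  funext i
  simp only [tup3, Function.comp]
  congr 1
  rw [eq_iff_iff, Equiv.Perm.eq_inv_iff_eq]

/-- `w` is symmetric on the pair `(x,y)` -/
def Good3 (w : (Fin 3 → V) → V) (x y : V) : Prop := ∃ c, ∀ j, w (tup3 x y j) = c

theorem Good3.curry {w : (Fin 3 → V) → V} {x y : V} (h : Good3 w x y) :
    w ![x, x, y] = w ![x, y, x] ∧ w ![x, y, x] = w ![y, x, x] := by
  obtain ⟨c, hc⟩ := h
  have h0 : tup3 x y 0 = ![y, x, x] := by
    funext i; fin_cases i <;> simp [tup3]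
  have h1 : tup3 x y 1 = ![x, y, x] := by
    funext i; fin_cases i <;> simp [tup3]
  have h2 : tup3 x y 2 = ![x, x, y] := by
    funext i; fin_cases i <;> simp [tup3]
  rw [← h0, ← h1, ← h2, hc, hc, hc]
  exact ⟨rfl, rfl⟩

/-- one improvement step -/
theorem improve3 (C : IClone V)
    (hX : ∀ R : V → V → V → Prop, Compat3 C R → (∀ x y z, R x y z → R y x z) →
      (∀ x y z, R x y z → R x z y) → (∃ x y z, R x y z) → ∃ a, R a a a)
    (w : (Fin 3 → V) → V) (hw : C.mem w) (x y : V) :
    ∃ w' : (Fin 3 → V) → V, C.mem w' ∧ Good3 w' x y ∧ ∀ x' y', Good3 w x' y' → Good3 w' x' y' := by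
  let val : Fin 3 → V := fun k => w (tup3 x y k)
  let R' : (Fin 3 → V) → Prop := fun r => ∃ g : (Equiv.Perm (Fin 3) → V) → V, C.mem g ∧
    ∀ j, r j = g (fun σ => val (σ⁻¹ j))
  have hsymm : ∀ (r : Fin 3 → V) (π : Equiv.Perm (Fin 3)), R' r → R' (r ∘ π) := by
    rintro r π ⟨g, hg, hr⟩
    refine ⟨fun F => g (fun σ => F (π⁻¹ * σ)), C.comp g _ hg (fun σ => C.proj (π⁻¹ * σ)), ?_⟩
    intro j
    rw [Function.comp_apply, hr]
    simp only [mul_inv_rev, inv_inv, Equiv.Perm.mul_apply]
  have hne : R' (fun j => val j) := by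
    refine ⟨fun F => F 1, C.proj 1, fun j => ?_⟩
    simp
  obtain ⟨a, ha⟩ := hX (fun r0 r1 r2 => R' ![r0, r1, r2]) (by
      intro ι f hf u v t h
      choose g hg hr using h
      refine ⟨fun F => f (fun i => g i F), C.comp f g hf hg, ?_⟩
      intro j
      fin_cases j
      · show f u = _
        congr 1
        funext i
        exact hr i 0
      · show f v = _
        congr 1
        funext i
        exact hr i 1
      · show f t = _
        congr 1
        funext i
        exact hr i 2) (by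
      intro r0 r1 r2 h
      have h1 := hsymm _ (Equiv.swap 0 1) h
      convert h1 using 1
      funext i
      fin_cases i <;> rfl) (by
      intro r0 r1 r2 h
      have h1 := hsymm _ (Equiv.swap 1 2) h
      convert h1 using 1
      funext i
      fin_cases i <;> rfl) ⟨val 0, val 1, val 2, by
        convert hne using 1
        funext i
        fin_cases i <;> rfl⟩
  obtain ⟨g, hg, hr⟩ := ha
  have hr' : ∀ j, g (fun σ => val (σ⁻¹ j)) = a := by
    intro j
    rw [← hr j]
    fin_cases j <;> rfl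
  refine ⟨fun v => g (fun σ => w (v ∘ σ)), ?_, ?_, ?_⟩
  · refine C.comp g _ hg (fun σ => ?_)
    exact C.comp w (fun i v => v (σ i)) hw (fun i => C.proj (σ i))
  · refine ⟨a, fun j => ?_⟩
    simp only [tup3_comp]
    exact hr' j
  · rintro x' y' ⟨c, hc⟩
    refine ⟨c, fun j => ?_⟩
    simp only [tup3_comp, hc]
    exact C.idem g hg c

theorem exists_wnu [Finite V] (C : IClone V)
    (hX : ∀ R : V → V → V → Prop, Compat3 C R → (∀ x y z, R x y z → R y x z) →
      (∀ x y z, R x y z → R x z y) → (∃ x y z, R x y z) → ∃ a, R a a a) :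
    ∃ w : V → V → V → V, mem3 C w ∧ ∀ x y, w x x y = w x y x ∧ w x y x = w y x x := by
  have hfin : Set.Finite {G : Set (V × V) | ∃ w : (Fin 3 → V) → V, C.mem w ∧
      G = {p | Good3 w p.1 p.2}} := Set.toFinite _
  obtain ⟨G, hG⟩ := hfin.exists_maximal ⟨_, fun v => v 0, C.proj 0, rfl⟩
  obtain ⟨⟨w, hw, rfl⟩, hmax⟩ := hG
  have key : ∀ x y, Good3 w x y := by
    intro x y
    obtain ⟨w', hw', hxy, hmono⟩ := improve3 C hX w hw x y
    have h1 := hmax (y := {p | Good3 w' p.1 p.2}) ⟨w', hw', rfl⟩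
      (fun p hp => hmono p.1 p.2 hp)
    exact h1 (show (x, y) ∈ {p : V × V | Good3 w' p.1 p.2} from hxy)
  refine ⟨fun a b c => w ![a, b, c], ?_, fun x y => (key x y).curry⟩
  have h2 : ∀ x : Fin 3 → V, ![x 0, x 1, x 2] = x := by
    intro x
    funext i
    fin_cases i <;> rfl
  unfold mem3
  simp only [h2]
  exact hw

end KMMTree
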