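import Pool.Agent.H24.KMM.Defs

/-!
# Module GRAPH: separation in acyclic digraphs

The statements follow from uniqueness of paths (`SimpleGraph.IsAcyclic.path_unique` or
`SimpleGraph.isAcyclic_iff_path_unique`): convert `Conn E Q x y` into a `SimpleGraph.Walk` of
`SimpleGraph.fromRel E` all of whose vertices satisfy `Q` (note that `fromRel` wants `a ≠ b`, a step
`E a a` can be dropped).
-/

set_option autoImplicit false

namespace KMMTree

open Relation

variable {V : Type}

/-- acyclicity passes to induced subdigraphs -/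
theorem acyclic_sub (E : V → V → Prop) (hac : (SimpleGraph.fromRel E).IsAcyclic) (P : V → Prop) :
    (SimpleGraph.fromRel (fun a b : {v : V // P v} => E a.1 b.1)).IsAcyclic := by
  let f : (SimpleGraph.fromRel (fun a b : {v : V // P v} => E a.1 b.1)) →g
      (SimpleGraph.fromRel E) :=
    { toFun := Subtype.val
      map_rel' := by
        intro a b h
        rw [SimpleGraph.fromRel_adj] at h ⊢
        exact ⟨fun h1 => h.1 (Subtype.ext h1), h.2⟩ }
  exact hac.comap f Subtype.val_injective

/-- a walk inside `Q` gives a simple path inside `Q` -/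
theorem graph_exists_isPath (E : V → V → Prop) {Q : V → Prop} {x y : V} (h : Conn E Q x y) :
    ∃ w : (SimpleGraph.fromRel E).Walk x y, w.IsPath ∧ ∀ v ∈ w.support, Q v := by
  classical
  have h1 : ∃ w : (SimpleGraph.fromRel E).Walk x y, ∀ v ∈ w.support, Q v := by
    refine h.induct (P := fun y => ∃ w : (SimpleGraph.fromRel E).Walk x y, ∀ v ∈ w.support, Q v)
      ⟨SimpleGraph.Walk.nil, ?_⟩ ?_
    · intro v hv
      rw [SimpleGraph.Walk.support_nil, List.mem_singleton] at hv
      rw [hv]
      exact h.left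
    · rintro a b _ ⟨w, hw⟩ hab hb
      by_cases hne : a = b
      · subst hne
        exact ⟨w, hw⟩
      · have hadj : (SimpleGraph.fromRel E).Adj a b := by
          rw [SimpleGraph.fromRel_adj]
          exact ⟨hne, hab⟩
        refine ⟨w.concat hadj, ?_⟩
        intro v hv
        rw [SimpleGraph.Walk.support_concat, List.mem_append,
          List.mem_singleton] at hv
        rcases hv with hv | hv
        · exact hw v hv
        · rw [hv]; exact hb
  obtain ⟨w, hw⟩ := h1
  exact ⟨w.bypass, w.bypass_isPath, fun v hv => hw v (w.support_bypass_subset_support hv)⟩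

/-- two neighbours of `d` that are connected by a walk avoiding `d` are equal -/
theorem nbr_eq (E : V → V → Prop) (hac : (SimpleGraph.fromRel E).IsAcyclic) {d a b : V}
    (ha : Adj E d a) (hb : Adj E d b) (h : Conn E (fun v => v ≠ d) a b) : a = b := by
  obtain ⟨w, hw, hd⟩ := graph_exists_isPath E h
  have hda : (SimpleGraph.fromRel E).Adj d a := by
    rw [SimpleGraph.fromRel_adj]
    exact ⟨fun h1 => h.left h1.symm, ha⟩
  have hdb : (SimpleGraph.fromRel E).Adj d b := by
    rw [SimpleGraph.fromRel_adj]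
    exact ⟨fun h1 => h.right h1.symm, hb⟩
  have hp1 : (SimpleGraph.Walk.cons hda w).IsPath := by
    rw [SimpleGraph.Walk.cons_isPath_iff]
    exact ⟨hw, fun h1 => hd d h1 rfl⟩
  have hp2 : (SimpleGraph.Walk.cons hdb SimpleGraph.Walk.nil).IsPath := by
    rw [SimpleGraph.Walk.cons_isPath_iff]
    refine ⟨SimpleGraph.Walk.IsPath.nil, ?_⟩
    rw [SimpleGraph.Walk.support_nil, List.mem_singleton]
    exact hdb.ne
  have heq := (hac.subsingleton_path d b).elim ⟨_, hp1⟩ ⟨_, hp2⟩
  have h1 : (SimpleGraph.Walk.cons hda w).getVert 1 =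
      (SimpleGraph.Walk.cons hdb (SimpleGraph.Walk.nil : (SimpleGraph.fromRel E).Walk b b)).getVert 1 :=
    congrArg (fun p : (SimpleGraph.fromRel E).Path d b => p.1.getVert 1) heq
  simpa using h1

/-- existence of an injective path inside `Q` -/
theorem exists_path (E : V → V → Prop) {Q : V → Prop} {x y : V} (h : Conn E Q x y) :
    ∃ (n : ℕ) (p : ℕ → V), p 0 = x ∧ p n = y ∧ (∀ i, i < n → Adj E (p i) (p (i + 1))) ∧
      (∀ i, i ≤ n → Q (p i)) ∧ ∀ i j, i ≤ n → j ≤ n → p i = p j → i = j := by
  obtain ⟨w, hw, hQ⟩ := graph_exists_isPath E h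
  refine ⟨w.length, w.getVert, w.getVert_zero, w.getVert_length, ?_, ?_, ?_⟩
  · intro i hi
    have h1 := w.adj_getVert_succ hi
    rw [SimpleGraph.fromRel_adj] at h1
    exact h1.2
  · intro i _
    exact hQ _ (w.getVert_mem_support i)
  · intro i j hi hj hij
    exact hw.getVert_injOn hi hj hij

/-- the segment `p 0, …, p j` of an injective path as a path of the graph -/
theorem graph_path_of_seq (E : V → V → Prop) {n : ℕ} {p : ℕ → V}
    (hs : ∀ i, i < n → Adj E (p i) (p (i + 1)))
    (hinj : ∀ i j, i ≤ n → j ≤ n → p i = p j → i = j) (j : ℕ) (hj : j ≤ n) :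
    ∃ w : (SimpleGraph.fromRel E).Walk (p 0) (p j), w.IsPath ∧
      ∀ v, v ∈ w.support ↔ ∃ i, i ≤ j ∧ v = p i := by
  induction j with
  | zero =>
    refine ⟨SimpleGraph.Walk.nil, SimpleGraph.Walk.IsPath.nil, ?_⟩
    intro v
    rw [SimpleGraph.Walk.support_nil, List.mem_singleton]
    constructor
    · intro h
      exact ⟨0, le_rfl, h⟩
    · rintro ⟨i, hi, h⟩
      have : i = 0 := by omega
      rw [this] at h
      exact h
  | succ j ih =>
    obtain ⟨w, hw, hsup⟩ := ih (by omega)
    have hadj : (SimpleGraph.fromRel E).Adj (p j) (p (j + 1)) := by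
      rw [SimpleGraph.fromRel_adj]
      refine ⟨fun h => ?_, hs j (by omega)⟩
      have := hinj j (j + 1) (by omega) hj h
      omega
    have hnot : p (j + 1) ∉ w.support := by
      rw [hsup]
      rintro ⟨i, hi, h⟩
      have := hinj (j + 1) i hj (by omega) h
      omega
    refine ⟨w.concat hadj, hw.concat hnot hadj, ?_⟩
    intro v
    rw [SimpleGraph.Walk.support_concat, List.mem_append,
      List.mem_singleton, hsup]
    constructor
    · rintro (⟨i, hi, h⟩ | h)
      · exact ⟨i, by omega, h⟩
      · exact ⟨j + 1, le_rfl, h⟩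
    · rintro ⟨i, hi, h⟩
      by_cases hij : i = j + 1
      · right
        rw [h, hij]
      · left
        exact ⟨i, by omega, h⟩

/-- separation: in an acyclic digraph every walk from `p 0` to `p j` passes through `p i`, `i ≤ j` -/
theorem path_sep (E : V → V → Prop) (hac : (SimpleGraph.fromRel E).IsAcyclic) {n : ℕ} {p : ℕ → V}
    (hs : ∀ i, i < n → Adj E (p i) (p (i + 1)))
    (hinj : ∀ i j, i ≤ n → j ≤ n → p i = p j → i = j) {i j : ℕ} (hij : i ≤ j) (hj : j ≤ n)
    {Q : V → Prop} (h : Conn E Q (p 0) (p j)) : Q (p i) := by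
  obtain ⟨w, hw, hQ⟩ := graph_exists_isPath E h
  obtain ⟨w', hw', hsup⟩ := graph_path_of_seq E hs hinj j hj
  have heq := (hac.subsingleton_path (p 0) (p j)).elim ⟨_, hw⟩ ⟨_, hw'⟩
  have h1 : w = w' := congrArg Subtype.val heq
  apply hQ
  rw [h1, hsup]
  exact ⟨i, hij, rfl⟩

end KMMTree
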