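import Pool.Agent.H24.KMM.Defs

/-!
# Module LEVEL: level functions on oriented trees

`exists_level`: root `r`; `lam v` = signed number of forward edges minus backward edges along the
unique path from `r` to `v` (`SimpleGraph.IsTree.existsUnique_path`).  If `a, b` are adjacent, then
either the path to `b` is the path to `a` followed by the edge, or vice versa.
-/

set_option autoImplicit false

namespace KMMTree

variable {V : Type}

open Classical in
/-- signed length of a walk -/
noncomputable def wtW (E : V → V → Prop) : ∀ {u v : V}, (SimpleGraph.fromRel E).Walk u v → ℤ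
  | _, _, .nil => 0
  | _, _, .cons (u := u) (v := v) _ p => (if E u v then 1 else -1) + wtW E p

theorem wtW_append (E : V → V → Prop) : ∀ {u v w : V} (p : (SimpleGraph.fromRel E).Walk u v)
    (q : (SimpleGraph.fromRel E).Walk v w), wtW E (p.append q) = wtW E p + wtW E q
  | _, _, _, .nil, q => by
    rw [SimpleGraph.Walk.nil_append]
    simp [wtW]
  | _, _, _, .cons h p, q => by
    rw [SimpleGraph.Walk.cons_append]
    simp only [wtW]
    rw [wtW_append E p q]
    ring

theorem exists_level (E : V → V → Prop) (hirr : ∀ a, ¬ E a a) (hasym : ∀ a b, E a b → ¬ E b a)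
    (ht : (SimpleGraph.fromRel E).IsTree) : ∃ lam : V → ℤ, IsLevel E lam := by
  classical
  obtain ⟨r⟩ := ht.1.nonempty
  have hu : ∀ {x y : V} (p q : (SimpleGraph.fromRel E).Walk x y), p.IsPath → q.IsPath → p = q := by
    intro x y p q hp hq
    have := ht.2.path_unique ⟨p, hp⟩ ⟨q, hq⟩
    exact congrArg Subtype.val this
  choose P hP _ using fun v : V => ht.existsUnique_path r v
  refine ⟨fun v => wtW E (P v), fun a b hab => ?_⟩
  have hne : a ≠ b := by
    rintro rfl
    exact hirr a hab
  have hadj : (SimpleGraph.fromRel E).Adj a b := by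
    rw [SimpleGraph.fromRel_adj]
    exact ⟨hne, Or.inl hab⟩
  show wtW E (P b) = wtW E (P a) + 1
  by_cases hb : b ∈ (P a).support
  · have h1 : P b = (P a).takeUntil b hb := hu _ _ (hP b) ((hP a).takeUntil hb)
    have h2 : (P a).dropUntil b hb = SimpleGraph.Walk.cons hadj.symm .nil := by
      refine hu _ _ ((hP a).dropUntil hb) ?_
      rw [SimpleGraph.Walk.cons_isPath_iff]
      exact ⟨SimpleGraph.Walk.IsPath.nil, by simpa using hne.symm⟩
    have h3 := (P a).take_spec hb
    have h4 : wtW E (P a) = wtW E (P b) + wtW E ((P a).dropUntil b hb) := by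
      rw [h1, ← wtW_append, h3]
    rw [h4, h2]
    simp only [wtW]
    rw [if_neg (hasym a b hab)]
    ring
  · have h1 : P b = (P a).append (SimpleGraph.Walk.cons hadj .nil) := by
      refine hu _ _ (hP b) ?_
      rw [← SimpleGraph.Walk.concat_eq_append]
      exact (hP a).concat hb hadj
    rw [h1, wtW_append]
    simp only [wtW]
    rw [if_pos hab]
    ring

end KMMTree
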