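import Pool.Agent.H24.KMM.Defs

/-!
# Module LINKED: common neighbours in algebras without proper centers
-/

set_option autoImplicit false

namespace KMMTree

open Relation

variable {V : Type}

/-- (L0) If `A` has no proper center and any two elements of `A` have a common `Γ`-neighbour then all
elements of `A` have a common `Γ`-neighbour.
Proof: induction on a finite set `F ⊆ A`; claim `∀ b x ∈ A, ∃ u, Γ u b ∧ Γ u x ∧ ∀ a ∈ F, Γ u a`.
`F = ∅` is the hypothesis. Step to `insert a F`, `a ∈ A`: the relation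
`Q b x := ∃ u, Γ u b ∧ Γ u x ∧ Γ u a ∧ ∀ a' ∈ F, Γ u a'` is compatible (`Lnk` + idempotence),
`Q b b` holds for `b ∈ A` (claim for `(b, a)`), and `Q a x` holds for all `x ∈ A` (claim for
`(a, x)`).  By `NoCenter`, `Q` is full on `A`. -/
theorem common_nbr [Finite V] (C : IClone V) (A : Set V) (hAne : A.Nonempty)
    (hnc : NoCenter C A) (U : Type) (Γ : U → V → Prop) (hΓ : Lnk C Γ)
    (h2 : ∀ a ∈ A, ∀ b ∈ A, ∃ u, Γ u a ∧ Γ u b) :
    ∃ u, ∀ a ∈ A, Γ u a := by
  classical
  have key : ∀ F : Finset V, (∀ a ∈ F, a ∈ A) → ∀ b ∈ A, ∀ x ∈ A,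
      ∃ u, Γ u b ∧ Γ u x ∧ ∀ a ∈ F, Γ u a := by
    intro F
    induction F using Finset.induction_on with
    | empty =>
      intro _ b hb x hx
      obtain ⟨u, h3, h4⟩ := h2 b hb x hx
      exact ⟨u, h3, h4, by simp⟩
    | insert a F ha ih =>
      intro hF b hb x hx
      have haA : a ∈ A := hF a (Finset.mem_insert_self a F)
      have ih' := ih (fun a' h => hF a' (Finset.mem_insert_of_mem h))
      have hfull := hnc (fun b x => ∃ u, Γ u b ∧ Γ u x ∧ Γ u a ∧ ∀ a' ∈ F, Γ u a') (by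
        intro ι f hf p q hpq
        choose u h3 h4 h5 h6 using hpq
        obtain ⟨u', hu'⟩ := hΓ f hf u
        refine ⟨u', hu' p h3, hu' q h4, ?_, fun a' ha' => ?_⟩
        · have := hu' (fun _ => a) h5
          rwa [C.idem f hf a] at this
        · have := hu' (fun _ => a') (fun i => h6 i a' ha')
          rwa [C.idem f hf a'] at this)
        (fun b hb => ⟨b, hb, by
          obtain ⟨u, h3, h4, h5⟩ := ih' b hb a haA
          exact ⟨u, h3, h3, h4, h5⟩⟩)
        ⟨a, haA, fun x hx => by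
          obtain ⟨u, h3, h4, h5⟩ := ih' a haA x hx
          exact ⟨u, h3, h4, h3, h5⟩⟩ b hb x hx
      obtain ⟨u, h3, h4, h5, h6⟩ := hfull
      refine ⟨u, h3, h4, fun a' ha' => ?_⟩
      rcases Finset.mem_insert.1 ha' with h | h
      · rw [h]; exact h5
      · exact h6 a' h
  obtain ⟨a0, ha0⟩ := hAne
  have hfin : A.Finite := Set.toFinite A
  obtain ⟨u, -, -, h⟩ := key hfin.toFinset (fun a ha => (hfin.mem_toFinset).1 ha) a0 ha0 a0 ha0
  exact ⟨u, fun a ha => h a ((hfin.mem_toFinset).2 ha)⟩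

/-- iterated composition of a relation with itself -/
def lfIter (S : V → V → Prop) : ℕ → V → V → Prop
  | 0 => S
  | n + 1 => fun a b => ∃ c, lfIter S n a c ∧ lfIter S n c b

theorem lfIter_compat {C : IClone V} {S : V → V → Prop} (hS : Compat2 C S) (n : ℕ) :
    Compat2 C (lfIter S n) := by
  induction n with
  | zero => exact hS
  | succ n ih =>
    intro ι f hf x y hxy
    choose c h1 h2 using hxy
    exact ⟨f c, ih f hf x c h1, ih f hf c y h2⟩

theorem lfIter_symm {S : V → V → Prop} (hS : ∀ a b, S a b → S b a) (n : ℕ) :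
    ∀ a b, lfIter S n a b → lfIter S n b a := by
  induction n with
  | zero => exact hS
  | succ n ih =>
    rintro a b ⟨c, h1, h2⟩
    exact ⟨c, ih _ _ h2, ih _ _ h1⟩

theorem lfIter_mem {A : Set V} {S : V → V → Prop} (hS : ∀ a b, S a b → a ∈ A ∧ b ∈ A) (n : ℕ) :
    ∀ a b, lfIter S n a b → a ∈ A ∧ b ∈ A := by
  induction n with
  | zero => exact hS
  | succ n ih =>
    rintro a b ⟨c, h1, h2⟩
    exact ⟨(ih _ _ h1).1, (ih _ _ h2).2⟩

theorem lfIter_refl {A : Set V} {S : V → V → Prop} (hS : ∀ a ∈ A, S a a) (n : ℕ) :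
    ∀ a ∈ A, lfIter S n a a := by
  induction n with
  | zero => exact hS
  | succ n ih => exact fun a ha => ⟨a, ih a ha, ih a ha⟩

theorem lfIter_mono {A : Set V} {S : V → V → Prop} (hS : ∀ a ∈ A, S a a)
    (hS' : ∀ a b, S a b → a ∈ A ∧ b ∈ A) {n m : ℕ} (hnm : n ≤ m) :
    ∀ a b, lfIter S n a b → lfIter S m a b := by
  induction m, hnm using Nat.le_induction with
  | base => exact fun a b h => h
  | succ m hm ih =>
    intro a b h
    have h1 := ih a b h
    exact ⟨b, h1, lfIter_refl hS m b (lfIter_mem hS' m a b h1).2⟩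

/-- (L1) If `A` has no proper center and `Γ` is linked on `A` then some `u` is `Γ`-related to all of
`A`.
Proof: `S a b := a ∈ A ∧ b ∈ A ∧ ∃ u, Γ u a ∧ Γ u b`, reflexive on `A`, symmetric, compatible
(`Sub` and `Lnk`).  Put `S_0 = S`, `S_{n+1} a b := ∃ c, S_n a c ∧ S_n c b`; all `S_n` are compatible,
symmetric, reflexive on `A`, increasing; by `hconn` and finiteness `S_n` is full on `A` for some `n`.
If `S_{n+1}` is full then so is `S_n`: by `common_nbr` with `U = V`, `Γ = S_n` there is `u` with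
`S_n u a` for all `a ∈ A` (`u ∈ A`); since `S_n` is reflexive on `A`, compatible and has the center
`u`, `NoCenter` says that it is full.  So `S` is full and `common_nbr` applies to `Γ`. -/
theorem linked_full [Finite V] (C : IClone V) (A : Set V) (hA : Sub C A) (hAne : A.Nonempty)
    (hnc : NoCenter C A) (U : Type) (Γ : U → V → Prop) (hΓ : Lnk C Γ)
    (hne : ∀ a ∈ A, ∃ u, Γ u a)
    (hconn : ∀ a ∈ A, ∀ b ∈ A, ReflTransGen (fun x y => y ∈ A ∧ ∃ u, Γ u x ∧ Γ u y) a b) :
    ∃ u, ∀ a ∈ A, Γ u a := by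
  classical
  let S : V → V → Prop := fun a b => a ∈ A ∧ b ∈ A ∧ ∃ u, Γ u a ∧ Γ u b
  have hSc : Compat2 C S := by
    intro ι f hf x y hxy
    have hx : ∀ i, x i ∈ A := fun i => (hxy i).1
    have hy : ∀ i, y i ∈ A := fun i => (hxy i).2.1
    have h3 : ∀ i, ∃ u, Γ u (x i) ∧ Γ u (y i) := fun i => (hxy i).2.2
    choose u h4 h5 using h3
    obtain ⟨u', hu'⟩ := hΓ f hf u
    exact ⟨hA f hf x hx, hA f hf y hy, u', hu' x h4, hu' y h5⟩
  have hSs : ∀ a b, S a b → S b a := by
    rintro a b ⟨h1, h2, u, h3, h4⟩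
    exact ⟨h2, h1, u, h4, h3⟩
  have hSm : ∀ a b, S a b → a ∈ A ∧ b ∈ A := fun a b h => ⟨h.1, h.2.1⟩
  have hSr : ∀ a ∈ A, S a a := by
    intro a ha
    obtain ⟨u, hu⟩ := hne a ha
    exact ⟨ha, ha, u, hu, hu⟩
  -- every pair is eventually related
  have hev : ∀ a ∈ A, ∀ b ∈ A, ∃ n, lfIter S n a b := by
    intro a ha b hb
    have h := hconn a ha b hb
    have h2 : (∃ n, lfIter S n a b) ∧ b ∈ A := by
      induction h with
      | refl => exact ⟨⟨0, hSr a ha⟩, ha⟩
      | @tail x y h3 h4 ih =>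
        obtain ⟨⟨n, hn⟩, hxA⟩ := ih (by
          by_contra hx
          cases h3 with
          | refl => exact hx ha
          | tail _ h5 => exact hx h5.1)
        refine ⟨⟨n + 1, x, hn, ?_⟩, h4.1⟩
        exact lfIter_mono hSr hSm (Nat.zero_le n) x y ⟨hxA, h4.1, h4.2⟩
    exact h2.1
  choose! N hN using hev
  obtain ⟨M, hM⟩ : ∃ M : ℕ, ∀ a b, N a b ≤ M := by
    cases nonempty_fintype V
    refine ⟨Finset.univ.sup (fun p : V × V => N p.1 p.2), fun a b => ?_⟩
    exact Finset.le_sup (f := fun p : V × V => N p.1 p.2) (Finset.mem_univ (a, b))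
  have hfullM : ∀ a ∈ A, ∀ b ∈ A, lfIter S M a b := fun a ha b hb =>
    lfIter_mono hSr hSm (hM a b) a b (hN a ha b hb)
  have hdesc : ∀ n, (∀ a ∈ A, ∀ b ∈ A, lfIter S n a b) → ∀ a ∈ A, ∀ b ∈ A, S a b := by
    intro n
    induction n with
    | zero => exact fun h => h
    | succ n ih =>
      intro h
      apply ih
      obtain ⟨u, hu⟩ := common_nbr C A hAne hnc V (lfIter S n) (by
        intro ι f hf u
        exact ⟨f u, fun x hx => lfIter_compat hSc n f hf u x hx⟩) (by
        intro a ha b hb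
        obtain ⟨c, h1, h2⟩ := h a ha b hb
        exact ⟨c, lfIter_symm hSs n _ _ h1, h2⟩)
      obtain ⟨a0, ha0⟩ := hAne
      have huA : u ∈ A := (lfIter_mem hSm n u a0 (hu a0 ha0)).1
      exact hnc (lfIter S n) (lfIter_compat hSc n)
        (fun a ha => ⟨a, ha, lfIter_refl hSr n a ha⟩) ⟨u, huA, hu⟩
  have hSfull := hdesc M hfullM
  exact common_nbr C A hAne hnc U Γ hΓ (fun a ha b hb => (hSfull a ha b hb).2.2)

end KMMTree
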