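import Pool.Agent.H24.KMM.Absorb
import Pool.Agent.H24.KMM.Linked

/-!
# Module LOOP: the loop lemma for clones with KMM terms

Strong induction on `A.ncard`.  `WkIn E A n a b`: there is a walk of length `n` from `a` to `b` inside
`A`.

1. Let `a0 ∈ A` be on a closed walk of odd length `m` inside `A`.  `A0 := {b | ∃ k, WkIn E A (2k) a0 b}`
is a subuniverse: the sets for single `k` are subuniverses (`E` compatible, `A` subuniverse,
idempotence), they increase with `k` (`a0` has a neighbour in `A`, start with going there and back),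
and `V` is finite. It contains all vertices connected to `a0` inside `A` (if the distance is odd, go
around the odd closed walk first), in particular the closed walk. If `A0 ≠ A` use the induction
hypothesis for `A0`.  So `A0 = A`: any two vertices of `A` are joined by a walk of even length in
`A`; also every vertex of `A` has a neighbour in `A`, and there is one `N` such that any two vertices
of `A` are joined by a walk of length exactly `N` in `A` (and of every length `≥ N`).
2. `A` has no proper nonempty absorbing subuniverse `X`.  For `i ≥ 0` let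
`Y_i = {b | ∃ x ∈ X, WkIn E A i x b}` (subuniverses). `Y_0 = X ≠ A` and `Y_N = A`. Take the least `i`
with `Y_{i+1} = A`, `Y := Y_i ≠ A`.  `Y` is absorbing in `A` by the same operation `t` (every `b ∈ A`
is the end of a walk of length `i` inside `A` starting anywhere in `A`, since every vertex has a
neighbour; apply `t` to the walks).  Every vertex of `A` has a neighbour in `Y`.
So `a0` has a neighbour `y ∈ Y` and `y` has a neighbour `y' ∈ Y`.  Let `L = m + 2` (odd) and take the
closed walk `y, a0, …, a0, y` of length `L` in `A`.  Apply `t` (arity `ι` finite) to the following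
tuples of walks: process the indices `i ∈ ι` one after the other; while `i` is processed, coordinate
`i` goes around this closed walk and then to `y'` (even length `m + 3`), while every other
coordinate `j` bounces between `y` and `y'` (starting and ending at the same vertex, as the length
is even).  Before processing all coordinates are at `y`, after it at `y'`, at every time all
coordinates but one are in `Y`, so `t` of the tuple is in `Y`.  So there is a walk of even
length in `Y` from `t(y,…,y) = y` to `t(y',…,y') = y'`, hence an odd closed walk in `Y` and the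
induction hypothesis gives a loop in `Y ⊆ A`.
Useful lemma: for `i : ι`, `WkIn E A n a b`, and `z z' : ι → V` with `z j, z' j ∈ Y`, `E (z j) (z' j)`
for `j ≠ i`: `WkIn E Y n (t (update z i a)) (t (update (if Even n then z else z') i b))`.
3. So we may assume that `A` has no proper nonempty absorbing subuniverse.  In particular
`NoBA C A` (`D` binary absorbing: `ι = Fin 2`), and then `NoCenter C A` by `center_absorbs` (the
center is a nonempty absorbing subuniverse, so it is all of `A`).
4. `linked_full` with `U = V`, `Γ u x := u ∈ A ∧ E u x` (linked since any two vertices are joined by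
a walk of even length in `A`): there is `u ∈ A` with `E u a` for all `a ∈ A`, so `E u u`.
-/

set_option autoImplicit false

namespace KMMTree

open Relation

variable {V : Type}

/-- walks of length `n` inside `A` -/
def WkIn (E : V → V → Prop) (A : Set V) : ℕ → V → V → Prop
  | 0, a, b => a ∈ A ∧ a = b
  | n + 1, a, b => a ∈ A ∧ ∃ c, E a c ∧ WkIn E A n c b

namespace WkIn

variable {E : V → V → Prop} {A B : Set V} {n m : ℕ} {a b c : V}

theorem left (h : WkIn E A n a b) : a ∈ A := by
  cases n with
  | zero => exact h.1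
  | succ n => exact h.1

theorem right (h : WkIn E A n a b) : b ∈ A := by
  induction n generalizing a with
  | zero =>
    obtain ⟨h1, h2⟩ := h
    exact h2 ▸ h1
  | succ n ih =>
    obtain ⟨_, c, _, h3⟩ := h
    exact ih h3

theorem refl (h : a ∈ A) : WkIn E A 0 a a := ⟨h, rfl⟩

theorem trans (h : WkIn E A n a b) (h' : WkIn E A m b c) : WkIn E A (n + m) a c := by
  induction n generalizing a with
  | zero =>
    obtain ⟨_, h2⟩ := h
    subst h2
    simpa using h'
  | succ n ih =>
    obtain ⟨h1, d, h2, h3⟩ := h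
    rw [show n + 1 + m = (n + m) + 1 by omega]
    exact ⟨h1, d, h2, ih h3⟩

theorem single (ha : a ∈ A) (h : E a b) (hb : b ∈ A) : WkIn E A 1 a b :=
  ⟨ha, b, h, hb, rfl⟩

theorem tail (h : WkIn E A n a b) (h' : E b c) (hc : c ∈ A) : WkIn E A (n + 1) a c :=
  h.trans (single h.right h' hc)

theorem symm (hsym : ∀ a b, E a b → E b a) (h : WkIn E A n a b) : WkIn E A n b a := by
  induction n generalizing a with
  | zero =>
    obtain ⟨h1, h2⟩ := h
    exact ⟨h2 ▸ h1, h2.symm⟩
  | succ n ih =>
    obtain ⟨h1, d, h2, h3⟩ := h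
    exact (ih h3).tail (hsym _ _ h2) h1

theorem split (h : WkIn E A (n + 1) a b) : ∃ c, WkIn E A n a c ∧ E c b ∧ b ∈ A := by
  induction n generalizing a with
  | zero =>
    obtain ⟨h1, d, h2, h3, h4⟩ := h
    subst h4
    exact ⟨a, ⟨h1, rfl⟩, h2, h3⟩
  | succ n ih =>
    obtain ⟨h1, d, h2, h3⟩ := h
    obtain ⟨c, h4, h5, h6⟩ := ih h3
    exact ⟨c, ⟨h1, d, h2, h4⟩, h5, h6⟩

theorem mono (hAB : A ⊆ B) (h : WkIn E A n a b) : WkIn E B n a b := by
  induction n generalizing a with
  | zero => exact ⟨hAB h.1, h.2⟩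
  | succ n ih =>
    obtain ⟨h1, d, h2, h3⟩ := h
    exact ⟨hAB h1, d, h2, ih h3⟩

/-- if `B` is closed under neighbours in `A`, walks in `A` from a vertex of `B` stay in `B` -/
theorem stay (hB : ∀ x ∈ B, ∀ y ∈ A, E x y → y ∈ B) (ha : a ∈ B) (h : WkIn E A n a b) :
    WkIn E B n a b := by
  induction n generalizing a with
  | zero => exact ⟨ha, h.2⟩
  | succ n ih =>
    obtain ⟨h1, d, h2, h3⟩ := h
    exact ⟨ha, d, h2, ih (hB _ ha _ h3.left h2) h3⟩

theorem ap {C : IClone V} (hA : Sub C A) (hE : Compat2 C E) {ι : Type} (f : (ι → V) → V)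
    (hf : C.mem f) (x y : ι → V) (h : ∀ i, WkIn E A n (x i) (y i)) : WkIn E A n (f x) (f y) := by
  induction n generalizing x with
  | zero =>
    refine ⟨hA f hf x (fun i => (h i).1), ?_⟩
    have : x = y := funext fun i => (h i).2
    rw [this]
  | succ n ih =>
    have h1 : ∀ i, ∃ c, E (x i) c ∧ WkIn E A n c (y i) := fun i => (h i).2
    choose z hz1 hz2 using h1
    exact ⟨hA f hf x (fun i => (h i).left), f z, hE f hf x z hz1, ih z hz2⟩

/-- walks from a fixed vertex can be prolonged to any length if every vertex has a neighbour -/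
theorem exists_to (hn : ∀ a ∈ A, ∃ b ∈ A, E b a) (hb : b ∈ A) (n : ℕ) :
    ∃ a, WkIn E A n a b := by
  induction n with
  | zero => exact ⟨b, hb, rfl⟩
  | succ n ih =>
    obtain ⟨a, ha⟩ := ih
    obtain ⟨c, hc, hca⟩ := hn a ha.left
    exact ⟨c, hc, a, hca, ha⟩

end WkIn

/-- absorption applied to a walk in one coordinate -/
theorem walk_absorb {C : IClone V} {E : V → V → Prop} (hE : Compat2 C E)
    (hsym : ∀ a b, E a b → E b a) {A Y : Set V}
    (hYA : Y ⊆ A) {ι : Type} [DecidableEq ι] (t : (ι → V) → V) (ht : C.mem t)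
    (habs : ∀ (i : ι) (x : ι → V), (∀ j, x j ∈ A) → (∀ j, j ≠ i → x j ∈ Y) → t x ∈ Y)
    (i : ι) (n : ℕ) :
    ∀ (a b : V) (z z' : ι → V), WkIn E A n a b → (∀ j, j ≠ i → z j ∈ Y) →
      (∀ j, j ≠ i → z' j ∈ Y) → (∀ j, j ≠ i → E (z j) (z' j)) →
      WkIn E Y n (t (Function.update z i a)) (t (Function.update (if Even n then z else z') i b)) := by
  have key : ∀ (a : V) (z : ι → V), a ∈ A → (∀ j, j ≠ i → z j ∈ Y) →
      t (Function.update z i a) ∈ Y := by
    intro a z ha hz
    apply habs i
    · intro j
      by_cases hj : j = i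
      · subst hj
        simpa using ha
      · rw [Function.update_of_ne hj]
        exact hYA (hz j hj)
    · intro j hj
      rw [Function.update_of_ne hj]
      exact hz j hj
  induction n with
  | zero =>
    intro a b z z' h hz hz' hzz
    obtain ⟨h1, h2⟩ := h
    subst h2
    simp only [Even.zero, if_true]
    exact ⟨key a z h1 hz, rfl⟩
  | succ n ih =>
    intro a b z z' h hz hz' hzz
    obtain ⟨h1, c, h2, h3⟩ := h
    refine ⟨key a z h1 hz, t (Function.update z' i c), ?_, ?_⟩
    · apply hE t ht
      intro j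
      by_cases hj : j = i
      · subst hj
        simpa using h2
      · rw [Function.update_of_ne hj, Function.update_of_ne hj]
        exact hzz j hj
    · have := ih c b z' z h3 hz' hz (fun j hj => hsym _ _ (hzz j hj))
      have e : (if Even (n + 1) then z else z') = (if Even n then z' else z) := by
        by_cases hn : Even n
        · have : ¬ Even (n + 1) := by
            rw [Nat.even_add_one]; exact fun h => h hn
          simp [hn, this]
        · have : Even (n + 1) := by
            rw [Nat.even_add_one]; exact hn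
          simp [hn, this]
      rw [e]
      exact this

/-- an odd closed walk in `A` gives one in a suitable absorbing `Y` -/
theorem walk_in_absorbing {C : IClone V} {E : V → V → Prop} (hE : Compat2 C E)
    (hsym : ∀ a b, E a b → E b a) {A Y : Set V}
    (hYA : Y ⊆ A) (habs : Absorbs C Y A) (hYn : ∀ a ∈ A, ∃ y ∈ Y, E a y)
    (hodd : ∃ m a, Odd m ∧ WkIn E A m a a) : ∃ m a, Odd m ∧ WkIn E Y m a a := by
  classical
  obtain ⟨m, a, hm, hw⟩ := hodd
  obtain ⟨ι, hfin, hne, t, ht, habs⟩ := habs
  obtain ⟨y, hy, hay⟩ := hYn a hw.left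
  obtain ⟨y', hy', hyy'⟩ := hYn y (hYA hy)
  have hw1 : WkIn E A (1 + m + 1 + 1) y y' :=
    (((WkIn.single (hYA hy) (hsym _ _ hay) hw.left).trans hw).tail hay (hYA hy)).tail hyy'
      (hYA hy')
  have hev : Even (1 + m + 1 + 1) := by
    obtain ⟨k, rfl⟩ := hm
    exact ⟨k + 2, by ring⟩
  have hind : ∀ S : Finset ι, ∃ k, Even k ∧ WkIn E Y k y (t (fun j => if j ∈ S then y' else y)) := by
    intro S
    induction S using Finset.induction_on with
    | empty =>
      refine ⟨0, Even.zero, hy, ?_⟩
      simp only [Finset.notMem_empty, if_false]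
      exact (C.idem t ht y).symm
    | insert i S hi ih =>
      obtain ⟨k, hk, hw2⟩ := ih
      refine ⟨k + (1 + m + 1 + 1), hk.add hev, hw2.trans ?_⟩
      have := walk_absorb hE hsym hYA t ht habs i (1 + m + 1 + 1) y y'
        (fun j => if j ∈ S then y' else y) (fun j => if j ∈ S then y else y') hw1
        (by intro j _; split_ifs <;> assumption)
        (by intro j _; split_ifs <;> assumption)
        (by intro j _; split_ifs
            · exact hsym _ _ hyy'
            · exact hyy')
      rw [if_pos hev] at this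
      have e1 : Function.update (fun j => if j ∈ S then y' else y) i y =
          fun j => if j ∈ S then y' else y := by
        funext j
        by_cases hj : j = i
        · subst hj
          simp [hi]
        · rw [Function.update_of_ne hj]
      have e2 : Function.update (fun j => if j ∈ S then y' else y) i y' =
          fun j => if j ∈ insert i S then y' else y := by
        funext j
        by_cases hj : j = i
        · subst hj
          simp
        · rw [Function.update_of_ne hj]
          simp [hj]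
      rw [e1, e2] at this
      exact this
  have := Fintype.ofFinite ι
  obtain ⟨k, hk, hw2⟩ := hind Finset.univ
  simp only [Finset.mem_univ, if_true] at hw2
  rw [C.idem t ht y'] at hw2
  exact ⟨k + 1, y, hk.add_one, hw2.tail (hsym _ _ hyy') hy⟩

theorem loop_lemma [Finite V] (C : IClone V) (P : KMM C) (A : Set V) (hA : Sub C A)
    (E : V → V → Prop) (hE : Compat2 C E) (hsym : ∀ a b, E a b → E b a)
    (hodd : ∃ m a, Odd m ∧ WkIn E A m a a) : ∃ a ∈ A, E a a := by
  classical
  induction hN : A.ncard using Nat.strong_induction_on generalizing A with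
  | _ N ih =>
  -- induction hypothesis in a convenient form
  have IH : ∀ B : Set V, B ⊆ A → B ≠ A → Sub C B → (∃ m a, Odd m ∧ WkIn E B m a a) →
      ∃ a ∈ A, E a a := by
    intro B hBA hne hB hodd'
    have hlt : B.ncard < N := by
      rw [← hN]
      exact Set.ncard_lt_ncard (lt_of_le_of_ne hBA hne) (Set.toFinite A)
    obtain ⟨a, ha, haa⟩ := ih _ hlt B hB hodd' rfl
    exact ⟨a, hBA ha, haa⟩
  by_contra hcon
  obtain ⟨m, a0, hm, hw⟩ := hodd
  have ha0 : a0 ∈ A := hw.left
  -- `a0` has a neighbour in `A`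
  obtain ⟨c0, hc0, hac0⟩ : ∃ c ∈ A, E a0 c := by
    obtain ⟨k, rfl⟩ := hm
    obtain ⟨_, c, h2, h3⟩ := hw
    exact ⟨c, h3.left, h2⟩
  have hback : WkIn E A 2 a0 a0 :=
    (WkIn.single ha0 hac0 hc0).tail (hsym _ _ hac0) ha0
  have hmono : ∀ k l b, k ≤ l → WkIn E A (2 * k) a0 b → WkIn E A (2 * l) a0 b := by
    intro k l b hkl h
    induction l, hkl using Nat.le_induction with
    | base => exact h
    | succ l _ ih2 =>
      have := hback.trans ih2
      rw [show 2 + 2 * l = 2 * (l + 1) by ring] at this
      exact this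
  -- the even component
  set A0 : Set V := {b | ∃ k, WkIn E A (2 * k) a0 b} with hA0
  obtain ⟨K, hK1, hK⟩ : ∃ K, 1 ≤ K ∧ ∀ b ∈ A0, WkIn E A (2 * K) a0 b := by
    have h1 : ∀ b : V, ∃ k, b ∈ A0 → WkIn E A (2 * k) a0 b := by
      intro b
      by_cases hb : b ∈ A0
      · obtain ⟨k, hk⟩ := hb
        exact ⟨k, fun _ => hk⟩
      · exact ⟨0, fun h => absurd h hb⟩
    choose κ hκ using h1
    have := Fintype.ofFinite V
    refine ⟨(Finset.univ.sup κ) + 1, by omega, ?_⟩
    intro b hb
    exact hmono (κ b) _ b ((Finset.le_sup (Finset.mem_univ b)).trans (Nat.le_succ _)) (hκ b hb)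
  have hA0A : A0 ⊆ A := by
    rintro b ⟨k, hk⟩
    exact hk.right
  have ha0A0 : a0 ∈ A0 := ⟨0, ha0, rfl⟩
  have hA0sub : Sub C A0 := by
    intro ι f hf x hx
    refine ⟨K, ?_⟩
    have := WkIn.ap hA hE f hf (fun _ => a0) x (fun i => hK _ (hx i))
    rw [C.idem f hf] at this
    exact this
  have hA0n : ∀ x ∈ A0, ∀ y ∈ A, E x y → y ∈ A0 := by
    rintro x ⟨k, hk⟩ y hy hxy
    obtain ⟨l, rfl⟩ := hm
    refine ⟨l + k + 1, ?_⟩
    have := (hw.trans hk).tail hxy hy
    rw [show 2 * l + 1 + 2 * k + 1 = 2 * (l + k + 1) by ring] at this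
    exact this
  have hA0eq : A0 = A := by
    by_contra hne
    exact hcon (IH A0 hA0A hne hA0sub ⟨m, a0, hm, hw.stay hA0n ha0A0⟩)
  have hjoin : ∀ a ∈ A, ∀ b ∈ A, WkIn E A (2 * K + 2 * K) a b := by
    intro a ha b hb
    have h1 := hK a (hA0eq ▸ ha)
    have h2 := hK b (hA0eq ▸ hb)
    exact (h1.symm hsym).trans h2
  have hnb : ∀ a ∈ A, ∃ b ∈ A, E b a := by
    intro a ha
    have h1 := hjoin a ha a ha
    rw [show 2 * K + 2 * K = (2 * K + 2 * K - 1) + 1 by omega] at h1
    obtain ⟨c, h2, h3, _⟩ := h1.split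
    exact ⟨c, h2.right, h3⟩
  -- no absorbing subuniverses
  have hnoabs : ∀ X : Set V, X ⊆ A → X.Nonempty → Sub C X → Absorbs C X A → X = A := by
    intro X hXA hXne hX habs
    by_contra hXneq
    let Y : ℕ → Set V := fun i => {b | ∃ x ∈ X, WkIn E A i x b}
    have hY0 : Y 0 = X := by
      ext b
      constructor
      · rintro ⟨x, hx, h1, h2⟩
        exact h2 ▸ hx
      · intro hb
        exact ⟨b, hb, hXA hb, rfl⟩
    have hYA : ∀ i, Y i ⊆ A := by
      rintro i b ⟨x, _, h⟩
      exact h.right
    have hYK : Y (2 * K + 2 * K) = A := by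
      apply Set.Subset.antisymm (hYA _)
      intro b hb
      obtain ⟨x, hx⟩ := hXne
      exact ⟨x, hx, hjoin x (hXA hx) b hb⟩
    have hex : ∃ i, Y i = A := ⟨_, hYK⟩
    have hfind := Nat.find_spec hex
    have hpos : Nat.find hex ≠ 0 := by
      intro h0
      rw [h0, hY0] at hfind
      exact hXneq hfind
    obtain ⟨i, hi⟩ := Nat.exists_eq_succ_of_ne_zero hpos
    rw [hi] at hfind
    have hYi : Y i ≠ A := Nat.find_min hex (by omega)
    have hYsub : Sub C (Y i) := by
      intro ι f hf x hx
      have h1 : ∀ j, ∃ x' ∈ X, WkIn E A i x' (x j) := hx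
      choose x' hx' hw' using h1
      exact ⟨f x', hX f hf x' hx', WkIn.ap hA hE f hf x' x hw'⟩
    have hYabs : Absorbs C (Y i) A := by
      obtain ⟨ι, hfin, hne, t, ht, habs⟩ := habs
      refine ⟨ι, hfin, hne, t, ht, ?_⟩
      intro i0 x hxA hxY
      have h1 : ∀ j, ∃ x', (j ≠ i0 → x' ∈ X) ∧ WkIn E A i x' (x j) := by
        intro j
        by_cases hj : j = i0
        · obtain ⟨a, ha⟩ := WkIn.exists_to hnb (hxA j) i
          exact ⟨a, fun h => absurd hj h, ha⟩
        · obtain ⟨x', hx', hw'⟩ := hxY j hj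
          exact ⟨x', fun _ => hx', hw'⟩
      choose x' hx' hw' using h1
      exact ⟨t x', habs i0 x' (fun j => (hw' j).left) hx', WkIn.ap hA hE t ht x' x hw'⟩
    have hYn : ∀ a ∈ A, ∃ y ∈ Y i, E a y := by
      intro a ha
      have : a ∈ Y (i + 1) := by
        rw [hfind]; exact ha
      obtain ⟨x, hx, hwx⟩ := this
      obtain ⟨c, h1, h2, _⟩ := hwx.split
      exact ⟨c, ⟨x, hx, h1⟩, hsym _ _ h2⟩
    exact hcon (IH (Y i) (hYA i) hYi hYsub
      (walk_in_absorbing hE hsym (hYA i) hYabs hYn ⟨m, a0, hm, hw⟩))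
  have hNoBA : NoBA C A := by
    intro D hDA hDne hD hBA
    apply hnoabs D hDA hDne hD
    obtain ⟨t, ht, habs⟩ := hBA
    refine ⟨Fin 2, inferInstance, inferInstance, fun x => t (x 0) (x 1), ht, ?_⟩
    intro i x hx1 hx2
    fin_cases i
    · exact (habs (x 1) (hx2 1 (by simp)) (x 0) (hx1 0)).2
    · exact (habs (x 0) (hx2 0 (by simp)) (x 1) (hx1 1)).1
  have hNoC : NoCenter C A := by
    intro Q hQ hne hc
    obtain ⟨c, hc, hcQ⟩ := hc
    have habs := center_absorbs C P A hA hNoBA Q hQ hne c hc hcQ
    have hX := hnoabs {a | a ∈ A ∧ ∀ b ∈ A, Q a b} (fun a ha => ha.1) ⟨c, hc, hcQ⟩ (by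
      intro ι f hf x hx
      refine ⟨hA f hf x (fun i => (hx i).1), ?_⟩
      intro b hb
      have := hQ f hf x (fun _ => b) (fun i => (hx i).2 b hb)
      rw [C.idem f hf] at this
      exact this) habs
    intro a ha b hb
    have : a ∈ {a | a ∈ A ∧ ∀ b ∈ A, Q a b} := by rw [hX]; exact ha
    exact this.2 b hb
  obtain ⟨u, hu⟩ := linked_full C A hA ⟨a0, ha0⟩ hNoC V (fun u x => u ∈ A ∧ E u x)
    (by
      intro ι f hf u
      refine ⟨f u, ?_⟩
      intro x hx
      exact ⟨hA f hf u (fun i => (hx i).1), hE f hf u x (fun i => (hx i).2)⟩)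
    (by
      intro a ha
      obtain ⟨b, hb, hba⟩ := hnb a ha
      exact ⟨b, hb, hba⟩)
    (by
      have hk : ∀ k a b, WkIn E A (2 * k) a b →
          ReflTransGen (fun x y => y ∈ A ∧ ∃ u, (u ∈ A ∧ E u x) ∧ (u ∈ A ∧ E u y)) a b := by
        intro k
        induction k with
        | zero =>
          intro a b h
          rw [h.2]
        | succ k ihk =>
          intro a b h
          rw [show 2 * (k + 1) = (2 * k + 1) + 1 by ring] at h
          obtain ⟨h1, c, h2, h3, d, h4, h5⟩ := h
          exact ReflTransGen.head ⟨h5.left, c, ⟨h3, hsym _ _ h2⟩, ⟨h3, h4⟩⟩ (ihk d b h5)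
      intro a ha b hb
      have := hjoin a ha b hb
      rw [show 2 * K + 2 * K = 2 * (2 * K) by ring] at this
      exact hk _ a b this)
  have huA : u ∈ A := (hu a0 ha0).1
  exact hcon ⟨u, huA, (hu u huA).2⟩

end KMMTree
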