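import Pool.Agent.H24.KMM.MinCE

/-!
# Module MINCE2: the quotient of the minimal counterexample
-/

set_option autoImplicit false

namespace KMMTree

open Relation

variable {V : Type} [Finite V] {C : IClone V} {B : Set V} {R : V → V → V → Prop}

/-- The kernel of the quotient: transitive closure of `a ~ b :⟺ ∃ u v, R u v a ∧ R u v b`. -/
def alph (B : Set V) (R : V → V → V → Prop) (a b : V) : Prop :=
  ReflTransGen (fun x y => y ∈ B ∧ ∃ u v, R u v x ∧ R u v y) a b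

omit [Finite V] in
theorem rtc_mono {σ τ : V → V → Prop} (h : ∀ a b, σ a b → τ a b) {a b : V}
    (hab : ReflTransGen σ a b) : ReflTransGen τ a b := by
  induction hab with
  | refl => exact ReflTransGen.refl
  | tail _ h2 ih => exact ih.tail (h _ _ h2)

omit [Finite V] in
theorem rtc_symm {σ : V → V → Prop} (h : ∀ a b, σ a b → σ b a) {a b : V}
    (hab : ReflTransGen σ a b) : ReflTransGen σ b a := by
  induction hab with
  | refl => exact ReflTransGen.refl
  | tail _ h2 ih => exact ReflTransGen.head (h _ _ h2) ih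

omit [Finite V] in
theorem Bad.inB2 (h : Bad C B R) {x y z : V} (hR : R x y z) : y ∈ B := h.inB _ _ _ (h.sym1 _ _ _ hR)

omit [Finite V] in
theorem Bad.inB3 (h : Bad C B R) {x y z : V} (hR : R x y z) : z ∈ B :=
  h.inB2 (h.sym2 _ _ _ hR)

omit [Finite V] in
theorem Bad.rot (h : Bad C B R) {x y z : V} (hR : R x y z) : R y z x :=
  h.sym2 _ _ _ (h.sym1 _ _ _ hR)

/-- a compatible equivalence relation `θ` on `B` that is not full: `R` is `θ`-saturated.
Proof: `R' x y z := ∃ x' y' z', R x' y' z' ∧ θ x x' ∧ θ y y' ∧ θ z z'` is bad on `B`: if `R' a a a`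
then the `θ`-class of `a` contains a triple of `R`, it is a subuniverse (idempotence) so it is `B`
(`sub_eq`), so `θ` is full.  Now use `maxR`. -/
theorem MinBad.saturated (h : MinBad C B R) {θ : V → V → Prop} (hc : Compat2 C θ)
    (hin : ∀ a b, θ a b → a ∈ B ∧ b ∈ B) (hr : ∀ a ∈ B, θ a a) (hs : ∀ a b, θ a b → θ b a)
    (ht : ∀ a b c, θ a b → θ b c → θ a c) (hnf : ∃ a ∈ B, ∃ b ∈ B, ¬ θ a b)
    {x y z z' : V} (hR : R x y z) (hz : θ z z') : R x y z' := by
  have hbad : Bad C B (fun x y z => ∃ x' y' z', R x' y' z' ∧ θ x x' ∧ θ y y' ∧ θ z z') := by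
    refine ⟨h.sub, ?_, ?_, ?_, ?_, ?_, ?_⟩
    · rintro x y z ⟨x', y', z', _, hx, _, _⟩
      exact (hin _ _ hx).1
    · intro ι f hf x y z hxyz
      choose x' y' z' h1 h2 h3 h4 using hxyz
      exact ⟨f x', f y', f z', h.compat f hf _ _ _ h1, hc f hf _ _ h2, hc f hf _ _ h3,
        hc f hf _ _ h4⟩
    · rintro x y z ⟨x', y', z', h1, h2, h3, h4⟩
      exact ⟨y', x', z', h.sym1 _ _ _ h1, h3, h2, h4⟩
    · rintro x y z ⟨x', y', z', h1, h2, h3, h4⟩
      exact ⟨x', z', y', h.sym2 _ _ _ h1, h2, h4, h3⟩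
    · obtain ⟨x, y, z, hxyz⟩ := h.ne
      exact ⟨x, y, z, x, y, z, hxyz, hr _ (h.inB _ _ _ hxyz), hr _ (h.toBad.inB2 hxyz),
        hr _ (h.toBad.inB3 hxyz)⟩
    · rintro a ⟨x', y', z', h1, h2, h3, h4⟩
      have hsub : Sub C {b | θ a b} := by
        intro ι f hf x hx
        have := hc f hf (fun _ => a) x hx
        rwa [C.idem f hf] at this
      have hB' : {b | θ a b} = B := by
        refine h.sub_eq (R' := R) (fun b hb => (hin _ _ hb).2) hsub h.toBad ?_
        exact ⟨x', h2, y', h3, z', h4, h1⟩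
      obtain ⟨a0, ha0, b0, hb0, hn⟩ := hnf
      rw [← hB'] at ha0 hb0
      exact hn (ht _ _ _ (hs _ _ ha0) hb0)
  refine h.maxR _ hbad ?_ x y z' ?_
  · intro x y z hxyz
    exact ⟨x, y, z, hxyz, hr _ (h.inB _ _ _ hxyz), hr _ (h.toBad.inB2 hxyz),
      hr _ (h.toBad.inB3 hxyz)⟩
  · exact ⟨x, y, z, hR, hr _ (h.inB _ _ _ hR), hr _ (h.toBad.inB2 hR), hs _ _ hz⟩

/-- `alph` is not full.  Otherwise `linked_full` with `U = V × V`, `Γ (u,v) a := R u v a` gives
`(u,v)` with `R u v a` for all `a ∈ B`.  `Q x a := R u x a` has the center `v` and by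
`full` `Q(x) ≠ ∅`; `noCenter` gives `Q u u`, i.e. `R u u u`. -/
theorem MinBad.alph_proper (P : KMM C) (h : MinBad C B R) : ∃ a ∈ B, ∃ b ∈ B, ¬ alph B R a b := by
  by_contra hcon
  push Not at hcon
  have hne : B.Nonempty := by
    obtain ⟨x, y, z, hxyz⟩ := h.ne
    exact ⟨x, h.inB _ _ _ hxyz⟩
  obtain ⟨⟨u, v⟩, huv⟩ := linked_full C B h.sub hne (h.noCenter P) (V × V)
    (fun u a => R u.1 u.2 a)
    (by
      intro ι f hf u
      exact ⟨(f fun i => (u i).1, f fun i => (u i).2), fun x hx => h.compat f hf _ _ _ hx⟩)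
    (by
      intro a ha
      obtain ⟨b, c, hbc⟩ := h.proj ha
      exact ⟨(b, c), h.toBad.rot hbc⟩)
    (by
      intro a ha b hb
      refine rtc_mono ?_ (hcon a ha b hb)
      rintro x y ⟨hy, u, v, h1, h2⟩
      exact ⟨hy, (u, v), h1, h2⟩)
  obtain ⟨a0, ha0⟩ := hne
  have hu : u ∈ B := h.inB _ _ _ (huv a0 ha0)
  have hv : v ∈ B := h.toBad.inB2 (huv a0 ha0)
  have hQ : Compat2 C (fun x a => R u x a) := by
    intro ι f hf x y hxy
    have := h.compat f hf (fun _ => u) x y hxy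
    rwa [C.idem f hf] at this
  have hfull := h.noCenter P (fun x a => R u x a) hQ
    (by
      intro a ha
      obtain ⟨b, hb⟩ := h.full P hu ha
      exact ⟨b, h.toBad.inB3 hb, hb⟩)
    ⟨v, hv, fun b hb => huv b hb⟩
  exact h.noconst u (hfull u hu u hu)

/-- the transitive closure of a compatible relation that is reflexive on `B` is compatible -/
theorem rtc_compat (hB : Sub C B) {σ : V → V → Prop} (hσ : Compat2 C σ) (hr : ∀ a ∈ B, σ a a)
    (hin : ∀ a b, σ a b → b ∈ B) : Compat2 C (fun a b => a ∈ B ∧ ReflTransGen σ a b) := by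
  classical
  let pw : ℕ → V → V → Prop := fun n => Nat.rec (fun a b => a ∈ B ∧ a = b)
    (fun _ p a b => ∃ c, p a c ∧ σ c b) n
  have pw0 : ∀ a b, pw 0 a b ↔ a ∈ B ∧ a = b := fun a b => Iff.rfl
  have pws : ∀ n a b, pw (n + 1) a b ↔ ∃ c, pw n a c ∧ σ c b := fun n a b => Iff.rfl
  have hpc : ∀ n, Compat2 C (pw n) := by
    intro n
    induction n with
    | zero =>
      intro ι f hf x y hxy
      rw [pw0]
      have : x = y := funext fun i => (hxy i).2
      exact ⟨hB f hf x fun i => (hxy i).1, by rw [this]⟩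
    | succ n ih =>
      intro ι f hf x y hxy
      rw [pws]
      choose c h1 h2 using hxy
      exact ⟨f c, ih f hf _ _ h1, hσ f hf _ _ h2⟩
  have hpB : ∀ n a b, pw n a b → a ∈ B ∧ b ∈ B := by
    intro n
    induction n with
    | zero =>
      rintro a b ⟨h1, rfl⟩
      exact ⟨h1, h1⟩
    | succ n ih =>
      rintro a b ⟨c, h1, h2⟩
      exact ⟨(ih _ _ h1).1, hin _ _ h2⟩
  have hmono : ∀ n m, n ≤ m → ∀ a b, pw n a b → pw m a b := by
    intro n m hnm
    induction m, hnm using Nat.le_induction with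
    | base => exact fun a b h => h
    | succ m _ ih =>
      intro a b h
      exact ⟨b, ih a b h, hr b (hpB _ _ _ h).2⟩
  have hto : ∀ n a b, pw n a b → a ∈ B ∧ ReflTransGen σ a b := by
    intro n
    induction n with
    | zero =>
      rintro a b ⟨h1, rfl⟩
      exact ⟨h1, ReflTransGen.refl⟩
    | succ n ih =>
      rintro a b ⟨c, h1, h2⟩
      exact ⟨(ih _ _ h1).1, (ih _ _ h1).2.tail h2⟩
  have hfrom : ∀ a b, a ∈ B → ReflTransGen σ a b → ∃ n, pw n a b := by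
    intro a b ha hab
    induction hab with
    | refl => exact ⟨0, ha, rfl⟩
    | tail _ h2 ih =>
      obtain ⟨n, hn⟩ := ih
      exact ⟨n + 1, _, hn, h2⟩
  obtain ⟨N, hN⟩ : ∃ N, ∀ a b, a ∈ B → ReflTransGen σ a b → pw N a b := by
    have hch : ∀ p : V × V, ∃ n, (p.1 ∈ B → ReflTransGen σ p.1 p.2 → pw n p.1 p.2) := by
      intro p
      by_cases hp : p.1 ∈ B ∧ ReflTransGen σ p.1 p.2
      · obtain ⟨n, hn⟩ := hfrom _ _ hp.1 hp.2
        exact ⟨n, fun _ _ => hn⟩
      · exact ⟨0, fun h1 h2 => absurd ⟨h1, h2⟩ hp⟩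
    choose n hn using hch
    obtain ⟨N, hN⟩ := (Set.finite_range n).bddAbove
    refine ⟨N, fun a b ha hab => ?_⟩
    exact hmono _ _ (hN ⟨(a, b), rfl⟩) _ _ (hn (a, b) ha hab)
  intro ι f hf x y hxy
  exact hto N _ _ (hpc N f hf x y fun i => hN _ _ (hxy i).1 (hxy i).2)

omit [Finite V] in
theorem rtc_mem {σ : V → V → Prop} (hin : ∀ a b, σ a b → b ∈ B) {a b : V} (ha : a ∈ B)
    (h : ReflTransGen σ a b) : b ∈ B := by
  induction h with
  | refl => exact ha
  | tail _ h2 _ => exact hin _ _ h2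

/-- a proper congruence is contained in `alph` -/
theorem MinBad.le_alph (h : MinBad C B R) {θ : V → V → Prop} (hc : Compat2 C θ)
    (hin : ∀ a b, θ a b → a ∈ B ∧ b ∈ B) (hr : ∀ a ∈ B, θ a a) (hs : ∀ a b, θ a b → θ b a)
    (ht : ∀ a b c, θ a b → θ b c → θ a c) (hnf : ∃ a ∈ B, ∃ b ∈ B, ¬ θ a b)
    {a b : V} (hab : θ a b) : alph B R a b := by
  obtain ⟨c, d, hcd⟩ := h.proj (hin _ _ hab).1
  have h1 : R c d a := h.toBad.rot hcd
  have h2 := h.saturated hc hin hr hs ht hnf h1 hab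
  exact ReflTransGen.single ⟨(hin _ _ hab).2, c, d, h1, h2⟩

theorem MinBad.alph_symm (h : MinBad C B R) {a b : V} (hab : alph B R a b) : alph B R b a := by
  refine rtc_symm ?_ hab
  rintro x y ⟨_, u, v, h1, h2⟩
  exact ⟨h.toBad.inB3 h1, u, v, h2, h1⟩

theorem MinBad.alph_compat (h : MinBad C B R) :
    Compat2 C (fun a b => a ∈ B ∧ alph B R a b) := by
  refine rtc_compat h.sub ?_ ?_ (fun a b hab => hab.1)
  · intro ι f hf x y hxy
    choose hy u v h1 h2 using hxy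
    exact ⟨h.sub f hf y hy, f u, f v, h.compat f hf _ _ _ h1, h.compat f hf _ _ _ h2⟩
  · intro a ha
    obtain ⟨c, d, hcd⟩ := h.proj ha
    exact ⟨ha, c, d, h.toBad.rot hcd, h.toBad.rot hcd⟩

/-- `R` is `alph`-saturated -/
theorem MinBad.alph_sat (P : KMM C) (h : MinBad C B R) {x y z z' : V} (hR : R x y z)
    (hz : alph B R z z') : R x y z' := by
  refine h.saturated (θ := fun a b => a ∈ B ∧ alph B R a b) h.alph_compat ?_ ?_ ?_ ?_ ?_ hR
    ⟨h.toBad.inB3 hR, hz⟩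
  · rintro a b ⟨ha, hab⟩
    exact ⟨ha, rtc_mem (fun a b hab => hab.1) ha hab⟩
  · exact fun a ha => ⟨ha, ReflTransGen.refl⟩
  · rintro a b ⟨ha, hab⟩
    exact ⟨rtc_mem (fun a b hab => hab.1) ha hab, h.alph_symm hab⟩
  · rintro a b c ⟨ha, hab⟩ ⟨_, hbc⟩
    exact ⟨ha, hab.trans hbc⟩
  · obtain ⟨a, ha, b, hb, hn⟩ := h.alph_proper P
    exact ⟨a, ha, b, hb, fun hab => hn hab.2⟩

/-- Assembly.  `K := Quotient` of `B` by `α = alph` (or the set of classes), `cl : V → K` (arbitrary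
outside `B`), `st (cl a) (cl b) := cl c` for `R a b c`.
* `α` is a compatible equivalence relation on `B` (transitive closure of a reflexive symmetric
  compatible relation on a finite set; use `proj` for reflexivity).
* `R u v a`, `R u v b` imply `α a b`; `R` is `α`-saturated (`saturated`); every proper congruence `θ`
  (as in `saturated`) is contained in `α`: if `θ a b`, take `R u v a` (`proj`), then `R u v b`.
* so `R x y z ⟺ st (cl x) (cl y) = cl z` for `x y z ∈ B`; symmetric, `quasi` from symmetry of `R`.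
* `noidem`: `st (cl a) (cl a) = cl a` means `R a a a`.
* `sinj`: `θ a b :⟺ a, b ∈ B, st (cl a) (cl a) = st (cl b) (cl b)` (i.e. `∃ c, R a a c ∧ R b b c`) is a
  congruence. If it is full then with `R a a c`: `θ a c`, so `R c c c`.  So it is proper and
  contained in `α`.
* `minimal`: `sub_eq`.
* `dich`: `θ :=` transitive closure of `∃ u, Γ u a ∧ Γ u b` on `B`, a congruence.  If full:
  `linked_full`. If proper: contained in `α`. -/
theorem MinBad.core (P : KMM C) (h : MinBad C B R) :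
    ∃ (K : Type) (cl : V → K) (st : K → K → K), Core C B K cl st := by
  classical
  have hb : Bad C B R := h.toBad
  have hne : B.Nonempty := by
    obtain ⟨x, y, z, hxyz⟩ := h.ne
    exact ⟨x, h.inB _ _ _ hxyz⟩
  obtain ⟨b0, hb0⟩ := hne
  let s : Setoid B :=
    { r := fun a b => alph B R a.1 b.1
      iseqv :=
        { refl := fun _ => ReflTransGen.refl
          symm := fun hab => h.alph_symm hab
          trans := fun hab hbc => ReflTransGen.trans hab hbc } }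
  let K : Type := Quotient s
  let cl : V → K := fun v => if hv : v ∈ B then Quotient.mk s ⟨v, hv⟩ else Quotient.mk s ⟨b0, hb0⟩
  have hcl : ∀ v (hv : v ∈ B), cl v = Quotient.mk s ⟨v, hv⟩ := fun v hv => dif_pos hv
  have hcl_eq : ∀ a ∈ B, ∀ b ∈ B, cl a = cl b ↔ alph B R a b := by
    intro a ha b hb
    rw [hcl a ha, hcl b hb]
    exact Quotient.eq (r := s)
  have hsurj : ∀ k : K, ∃ b ∈ B, cl b = k := by
    intro k
    induction k using Quotient.inductionOn with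
    | h b => exact ⟨b.1, b.2, hcl _ b.2⟩
  choose rep hrepB hrep using hsurj
  choose c hc using fun k1 k2 : K => h.full P (hrepB k1) (hrepB k2)
  let st : K → K → K := fun k1 k2 => cl (c k1 k2)
  have uniq : ∀ x y a b, R x y a → R x y b → alph B R a b := fun x y a b h1 h2 =>
    ReflTransGen.single ⟨hb.inB3 h2, x, y, h1, h2⟩
  have sat : ∀ x y z z', R x y z → alph B R z z' → R x y z' := fun x y z z' h1 h2 =>
    h.alph_sat P h1 h2
  have key : ∀ x ∈ B, ∀ y ∈ B, ∀ z ∈ B, st (cl x) (cl y) = cl z ↔ R x y z := by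
    intro x hx y hy z hz
    have hxx : alph B R (rep (cl x)) x := (hcl_eq _ (hrepB _) _ hx).1 (hrep _)
    have hyy : alph B R (rep (cl y)) y := (hcl_eq _ (hrepB _) _ hy).1 (hrep _)
    have h1 : R (rep (cl x)) (rep (cl y)) (c (cl x) (cl y)) := hc _ _
    have h2 : R (c (cl x) (cl y)) (rep (cl x)) y := sat _ _ _ _ (hb.rot (hb.rot h1)) hyy
    have h3 : R y (c (cl x) (cl y)) x := sat _ _ _ _ (hb.rot (hb.rot h2)) hxx
    have h4 : R x y (c (cl x) (cl y)) := hb.rot (hb.rot h3)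
    change cl (c (cl x) (cl y)) = cl z ↔ _
    rw [hcl_eq _ (hb.inB3 h4) _ hz]
    exact ⟨fun h5 => sat _ _ _ _ h4 h5, fun h5 => uniq _ _ _ _ h4 h5⟩
  refine ⟨K, cl, st, ?_⟩
  refine
    { sub := h.sub
      ne := ⟨b0, hb0⟩
      surj := fun k => ⟨rep k, hrepB k, hrep k⟩
      comm := ?_
      quasi := ?_
      noidem := ?_
      sinj := ?_
      clc := ?_
      compat := ?_
      minimal := ?_
      dich := ?_ }
  · intro a b
    obtain ⟨x, hx, rfl⟩ : ∃ b ∈ B, cl b = a := ⟨rep a, hrepB a, hrep a⟩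
    obtain ⟨y, hy, rfl⟩ : ∃ x ∈ B, cl x = b := ⟨rep b, hrepB b, hrep b⟩
    obtain ⟨z, hz⟩ := h.full P hx hy
    rw [(key x hx y hy z (hb.inB3 hz)).2 hz,
      (key y hy x hx z (hb.inB3 hz)).2 (h.sym1 _ _ _ hz)]
  · intro a b
    obtain ⟨x, hx, rfl⟩ : ∃ b ∈ B, cl b = a := ⟨rep a, hrepB a, hrep a⟩
    obtain ⟨y, hy, rfl⟩ : ∃ x ∈ B, cl x = b := ⟨rep b, hrepB b, hrep b⟩
    obtain ⟨z, hz⟩ := h.full P hx hy
    rw [(key x hx y hy z (hb.inB3 hz)).2 hz, key x hx z (hb.inB3 hz) y hy]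
    exact h.sym2 _ _ _ hz
  · intro a
    obtain ⟨x, hx, rfl⟩ : ∃ b ∈ B, cl b = a := ⟨rep a, hrepB a, hrep a⟩
    rw [Ne, key x hx x hx x hx]
    exact h.noconst x
  · intro a b hab
    obtain ⟨x, hx, rfl⟩ : ∃ b ∈ B, cl b = a := ⟨rep a, hrepB a, hrep a⟩
    obtain ⟨y, hy, rfl⟩ : ∃ x ∈ B, cl x = b := ⟨rep b, hrepB b, hrep b⟩
    rw [hcl_eq x hx y hy]
    obtain ⟨z, hz⟩ := h.full P hx hx
    have hzB := hb.inB3 hz
    have hz' : R y y z := by
      rw [← key y hy y hy z hzB, ← hab, key x hx x hx z hzB]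
      exact hz
    refine h.le_alph (θ := fun a b => a ∈ B ∧ b ∈ B ∧ ∃ c, R a a c ∧ R b b c) ?_ ?_ ?_ ?_ ?_ ?_
      ⟨hx, hy, z, hz, hz'⟩
    · intro ι f hf x y hxy
      choose h1 h2 w h3 h4 using hxy
      exact ⟨h.sub f hf _ h1, h.sub f hf _ h2, f w, h.compat f hf _ _ _ h3,
        h.compat f hf _ _ _ h4⟩
    · rintro a b ⟨h1, h2, _⟩
      exact ⟨h1, h2⟩
    · intro a ha
      obtain ⟨w, hw⟩ := h.full P ha ha
      exact ⟨ha, ha, w, hw, hw⟩
    · rintro a b ⟨h1, h2, w, h3, h4⟩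
      exact ⟨h2, h1, w, h4, h3⟩
    · rintro a b d ⟨h1, h2, w, h3, h4⟩ ⟨_, h6, w', h7, h8⟩
      exact ⟨h1, h6, w, h3, sat _ _ _ _ h8 (uniq _ _ _ _ h7 h4)⟩
    · by_contra hcon
      push Not at hcon
      obtain ⟨_, _, d, h3, h4⟩ := hcon x hx z hzB
      exact h.noconst z (sat _ _ _ _ h4 (uniq _ _ _ _ h3 hz))
  · intro ι f hf x y hx hy hxy
    rw [hcl_eq _ (h.sub f hf _ hx) _ (h.sub f hf _ hy)]
    exact (h.alph_compat f hf x y fun i => ⟨hx i, (hcl_eq _ (hx i) _ (hy i)).1 (hxy i)⟩).2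
  · intro ι f hf x y z hx hy hz hxyz
    rw [key _ (h.sub f hf _ hx) _ (h.sub f hf _ hy) _ (h.sub f hf _ hz)]
    exact h.compat f hf _ _ _ fun i => (key _ (hx i) _ (hy i) _ (hz i)).1 (hxyz i)
  · rintro B' hB' hs' ⟨x, hx, y, hy, z, hz, hxyz⟩
    refine h.sub_eq (R' := R) hB' hs' hb ⟨x, hx, y, hy, z, hz, ?_⟩
    exact (key _ (hB' hx) _ (hB' hy) _ (hB' hz)).1 hxyz
  · intro U Γ hΓ hU
    by_cases hfull : ∀ a ∈ B, ∀ b ∈ B,
        ReflTransGen (fun x y => y ∈ B ∧ x ∈ B ∧ ∃ u, Γ u x ∧ Γ u y) a b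
    · left
      refine linked_full C B h.sub ⟨b0, hb0⟩ (h.noCenter P) U Γ hΓ hU ?_
      intro a ha b hb
      refine rtc_mono ?_ (hfull a ha b hb)
      rintro x y ⟨hy, _, u, h1, h2⟩
      exact ⟨hy, u, h1, h2⟩
    · right
      intro u a ha b hb' h1 h2
      rw [hcl_eq a ha b hb']
      refine h.le_alph (θ := fun a b => a ∈ B ∧
        ReflTransGen (fun x y => y ∈ B ∧ x ∈ B ∧ ∃ u, Γ u x ∧ Γ u y) a b) ?_ ?_ ?_ ?_ ?_ ?_
        ⟨ha, ReflTransGen.single ⟨hb', ha, u, h1, h2⟩⟩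
      · refine rtc_compat h.sub ?_ ?_ (fun a b hab => hab.1)
        · intro ι f hf x y hxy
          choose hy hx w h3 h4 using hxy
          obtain ⟨u', hu'⟩ := hΓ f hf w
          exact ⟨h.sub f hf y hy, h.sub f hf x hx, u', hu' _ h3, hu' _ h4⟩
        · intro a ha
          obtain ⟨u, hu⟩ := hU a ha
          exact ⟨ha, ha, u, hu, hu⟩
      · rintro a b ⟨ha, hab⟩
        exact ⟨ha, rtc_mem (fun a b hab => hab.1) ha hab⟩
      · exact fun a ha => ⟨ha, ReflTransGen.refl⟩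
      · rintro a b ⟨ha, hab⟩
        refine ⟨rtc_mem (fun a b hab => hab.1) ha hab, rtc_symm ?_ hab⟩
        rintro x y ⟨hy, hx, u, h3, h4⟩
        exact ⟨hx, hy, u, h4, h3⟩
      · rintro a b c ⟨ha, hab⟩ ⟨_, hbc⟩
        exact ⟨ha, hab.trans hbc⟩
      · push Not at hfull
        obtain ⟨a, ha, b, hb, hn⟩ := hfull
        exact ⟨a, ha, b, hb, fun hab => hn hab.2⟩

end KMMTree
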