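import Pool.Agent.H24.KMM.StarCase

/-!
# Module STAR: the main tree lemma

`E` is an acyclic digraph with level function `lam`.  `z` separates `u` and `w`; `s, s'` are
idempotent binary polymorphisms with `s z u = w`, `s' z w = u`; `(z,u)` is connected to the diagonal
of the square.  Then contradiction.

## Reduction of `star` to `star_case`

`(z,u) ~ (x,x)`: a finite walk, all its pairs have equal levels; let `l, h` be the minimal and
maximal level on it.  For integers `l ≤ h` put
`Good l h :⟺ (∃ q, Conn2 (Band2 l h) (z,u) q ∧ lam q.1 = l) ∧ (∃ q, Conn2 (Band2 l h) (z,u) q ∧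
lam q.1 = h) ∧ (Conn (Band l h) z u ∨ Conn (Band l h) z w)`.
It holds for the range of the walk (`z → x → u`).  Choose `Good l h` with `h - l` minimal.
`l < h` since in a band of one level there are no edges and `z ≠ u, w`.
(A) If some `q` with `Conn2 (Band2 l (h-1)) (z,u) q` has level `l`: then the component of `(z,u)` in
`Band2 l (h-1)` also reaches level `h-1` (`Cn.exit` on the walk to level `h`), so by minimality
`z` is not connected to `u` nor `w` inside `Band l (h-1)`.  If `Conn (Band l h) z u`, apply
`star_case` with `u, w, s`; if `Conn (Band l h) z w`, apply it with `u, w` exchanged and `s'`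
(the pair of level `l` for `(z,w)`: image under `(x,y) ↦ (x, s x y)`).
(B) Otherwise the component of `(z,u)` in `Band2 (l+1) h` reaches level `h` (and `l+1`), and the
mirror image of (A) applies: `star_case` for the digraph `fun a b => E b a` and the level function
`fun v => - lam v`, band `[-h, -l]`.
(To see this: if `lam z = l` we are in (A), if `lam z = h` in (B). Otherwise `Cn.exit` on the walk
from `(z,u)` to level `l` inside `Band2 l h`: it either stays below `h` — case (A) — or
reaches level `h` through a walk in `Band2 l (h-1)`, which either passes level `l` — (A) — or is a walk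
inside `Band2 (l+1) (h-1)` — (B).)
-/

set_option autoImplicit false

namespace KMMTree

open Relation

variable {V : Type}

/-- the band property to be minimised -/
def StarGood (E : V → V → Prop) (lam : V → ℤ) (z u w : V) (l h : ℤ) : Prop :=
  (∃ q : V × V, Conn2 E (Band2 lam l h) (z, u) q ∧ lam q.1 = l) ∧
  (∃ q : V × V, Conn2 E (Band2 lam l h) (z, u) q ∧ lam q.1 = h) ∧
  (Conn E (Band lam l h) z u ∨ Conn E (Band lam l h) z w)

/-- monotonicity of walks in both the relation and the set -/
theorem star_cn_mono {X : Type} {r r' : X → X → Prop} {Q Q' : X → Prop} {x y : X}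
    (h : Cn r Q x y) (hr : ∀ a b, r a b → r' a b) (hQ : ∀ v, Q v → Q' v) : Cn r' Q' x y :=
  Cn.map (fun v => v) h (fun a b _ h1 _ => hr a b h1) (fun a h1 => hQ a h1.right)

/-- case (A) -/
theorem star_A (E : V → V → Prop) (lam : V → ℤ) (hl : IsLevel E lam)
    (hac : (SimpleGraph.fromRel E).IsAcyclic) (z u w : V) (s s' : V → V → V)
    (hs : Poly2 E s) (hsi : ∀ a, s a a = a) (hs' : Poly2 E s') (hsi' : ∀ a, s' a a = a)
    (hw : s z u = w) (hu : s' z w = u)
    (hsep : ¬ Conn E (fun v => v ≠ z) u w) (hwz : w ≠ z) (huz : u ≠ z)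
    (hzu : lam z = lam u) (hzw : lam z = lam w)
    (hczu : Conn E (fun _ => True) z u) (hczw : Conn E (fun _ => True) z w)
    (l h : ℤ) (hG : StarGood E lam z u w l h) (hmin : ¬ StarGood E lam z u w l (h - 1))
    (hA : ∃ q : V × V, Conn2 E (Band2 lam l (h - 1)) (z, u) q ∧ lam q.1 = l) : False := by
  obtain ⟨_, ⟨q2, hq2, hq2h⟩, hG3⟩ := hG
  have hA' := hA
  obtain ⟨q1, hq1, hq1l⟩ := hA
  have hzB := hq1.left
  have hzh : lam z ≤ h - 1 := hzB.2.2
  have hszu : lam (s z u) = lam z := by rw [hw]; exact hzw.symm
  have hreach : ∃ q : V × V, Conn2 E (Band2 lam l (h - 1)) (z, u) q ∧ lam q.1 = h - 1 := by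
    rcases hq2.exit (Q' := Band2 lam l (h - 1)) hzB with h1 | ⟨a, b, h1, h2, h3, h4⟩
    · have h2 := h1.right.2.2.2
      omega
    · refine ⟨a, h1.mono (fun v hv => hv.2), ?_⟩
      have h5 := h1.right.2
      have h6 := level_adj hl (adj2_fst h2)
      have h7 : lam b.1 = h := by
        by_contra h7
        apply h4
        refine ⟨h3.1, h3.2.1, ?_⟩
        have h8 := h3.2.2
        omega
      have h8 := h5.2.2
      omega
  have hnu : ¬ Conn E (Band lam l (h - 1)) z u := fun h1 => hmin ⟨hA', hreach, Or.inl h1⟩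
  have hnw : ¬ Conn E (Band lam l (h - 1)) z w := fun h1 => hmin ⟨hA', hreach, Or.inr h1⟩
  rcases hG3 with H1 | H1
  · exact star_case E lam hl hac z u w s hs hsi hw hzu hzw hsep hwz huz hczw l h hzh H1 hnu hnw hA'
  · refine star_case E lam hl hac z w u s' hs' hsi' hu hzw hzu
      (fun h1 => hsep (h1.symm adj_symm)) huz hwz hczu l h hzh H1 hnw hnu ⟨(q1.1, s q1.1 q1.2), ?_, hq1l⟩
    have h1 : Conn2 E (Band2 lam l (h - 1)) ((fun p : V × V => (p.1, s p.1 p.2)) (z, u))
        ((fun p : V × V => (p.1, s p.1 p.2)) q1) := by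
      refine Cn.map (fun p : V × V => (p.1, s p.1 p.2)) hq1 ?_ ?_
      · intro a b _ h2 _
        rcases h2 with h2 | h2
        · exact Or.inl ⟨h2.1, hs _ _ _ _ h2.1 h2.2⟩
        · exact Or.inr ⟨h2.1, hs _ _ _ _ h2.1 h2.2⟩
      · intro a h2
        have h3 := starCase_level hl hs h2 hszu
        have h4 := h2.right
        exact ⟨h3.symm, h4.2.1, h4.2.2⟩
    have h2 : (fun p : V × V => (p.1, s p.1 p.2)) (z, u) = (z, w) := by
      simp only [hw]
    rw [h2] at h1
    exact h1

/-- mirror image of the band property -/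
theorem star_mirror {E : V → V → Prop} {lam : V → ℤ} {z u w : V} {l h : ℤ}
    (hG : StarGood E lam z u w l h) :
    StarGood (fun a b => E b a) (fun v => - lam v) z u w (-h) (-l) := by
  have hr : ∀ a b, Adj E a b → Adj (fun a b => E b a) a b := fun a b h1 => h1.symm
  have hr2 : ∀ a b, Adj2 E a b → Adj2 (fun a b => E b a) a b := fun a b h1 => h1.symm
  have hB : ∀ v, Band lam l h v → Band (fun v => - lam v) (-h) (-l) v := by
    intro v hv
    exact ⟨neg_le_neg hv.2, neg_le_neg hv.1⟩
  have hB2 : ∀ v, Band2 lam l h v → Band2 (fun v => - lam v) (-h) (-l) v := by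
    intro v hv
    exact ⟨congrArg Neg.neg hv.1, neg_le_neg hv.2.2, neg_le_neg hv.2.1⟩
  obtain ⟨⟨q1, h1, h1'⟩, ⟨q2, h2, h2'⟩, h3⟩ := hG
  refine ⟨⟨q2, star_cn_mono h2 hr2 hB2, congrArg Neg.neg h2'⟩,
    ⟨q1, star_cn_mono h1 hr2 hB2, congrArg Neg.neg h1'⟩, ?_⟩
  rcases h3 with h3 | h3
  · exact Or.inl (star_cn_mono h3 hr hB)
  · exact Or.inr (star_cn_mono h3 hr hB)

/-- no edges inside a band of one level -/
theorem star_flat {E : V → V → Prop} {lam : V → ℤ} (hl : IsLevel E lam) {l h : ℤ} (hlh : h ≤ l)
    {x y : V} (c : Conn E (Band lam l h) x y) : x = y := by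
  refine c.induct (P := fun y => x = y) rfl ?_
  intro a b h1 h2 h3 h4
  exfalso
  have h5 := h1.right
  have h6 := level_adj hl h3
  have h7 := h5.1
  have h8 := h5.2
  have h9 := h4.1
  have h10 := h4.2
  omega

theorem star (E : V → V → Prop) (lam : V → ℤ) (hl : IsLevel E lam)
    (hac : (SimpleGraph.fromRel E).IsAcyclic) (z u w : V) (s s' : V → V → V)
    (hs : Poly2 E s) (hsi : ∀ a, s a a = a) (hs' : Poly2 E s') (hsi' : ∀ a, s' a a = a)
    (hw : s z u = w) (hu : s' z w = u)
    (hsep : ¬ Conn E (fun v => v ≠ z) u w) (hwz : w ≠ z) (huz : u ≠ z)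
    (hd : ∃ x, Conn2 E (fun _ => True) (z, u) (x, x)) : False := by
  obtain ⟨x, hx⟩ := hd
  have hlevd : ∀ q, Conn2 E (fun _ => True) (z, u) q → lam q.1 = lam q.2 := by
    intro q hq
    have h1 : lam z - lam u = lam q.1 - lam q.2 := level_diff hl hq
    have h2 : lam z - lam u = lam x - lam x := level_diff hl hx
    omega
  have hzu : lam z = lam u := hlevd _ (Cn.refl trivial)
  have hzw : lam z = lam w := by
    have h1 := starCase_level hl hs (hx.symm adj2_symm) (by rw [hsi])
    rw [← hw]
    exact h1.symm
  have hzx : Conn E (fun _ => True) z x :=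
    Cn.map Prod.fst hx (fun a b _ h1 _ => adj2_fst h1) (fun _ _ => trivial)
  have hux : Conn E (fun _ => True) u x :=
    Cn.map Prod.snd hx (fun a b _ h1 _ => adj2_snd h1) (fun _ _ => trivial)
  have hwx : Conn E (fun _ => True) w x := by
    have h1 : Conn E (fun _ => True) (s z u) (s x x) :=
      Cn.map (fun p : V × V => s p.1 p.2) hx (fun a b _ h1 _ => starCase_step hs h1)
        (fun _ _ => trivial)
    rw [hw, hsi] at h1
    exact h1
  have hczu : Conn E (fun _ => True) z u := hzx.trans (hux.symm adj_symm)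
  have hczw : Conn E (fun _ => True) z w := hzx.trans (hwx.symm adj_symm)
  -- all bands are bad
  have key : ∀ n : ℕ, ∀ l h : ℤ, (h - l).toNat = n → ¬ StarGood E lam z u w l h := by
    intro n
    induction n using Nat.strong_induction_on with
    | _ n ih =>
      intro l h hn hG
      have hlt : l < h := by
        by_contra h1
        rcases hG.2.2 with h2 | h2
        · exact huz (star_flat hl (by omega) h2).symm
        · exact hwz (star_flat hl (by omega) h2).symm
      have hmin1 : ¬ StarGood E lam z u w l (h - 1) := ih (h - 1 - l).toNat (by omega) _ _ rfl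
      have hmin2 : ¬ StarGood E lam z u w (l + 1) h := ih (h - (l + 1)).toNat (by omega) _ _ rfl
      by_cases hA : ∃ q : V × V, Conn2 E (Band2 lam l (h - 1)) (z, u) q ∧ lam q.1 = l
      · exact star_A E lam hl hac z u w s s' hs hsi hs' hsi' hw hu hsep hwz huz hzu hzw hczu hczw
          l h hG hmin1 hA
      · have hB : ∃ q : V × V, Conn2 E (Band2 lam (l + 1) h) (z, u) q ∧ lam q.1 = h := by
          obtain ⟨q1, hq1, hq1l⟩ := hG.1
          have hzB := hq1.left
          have hz1 : l ≤ lam z := hzB.2.1
          have hz2 : lam z ≤ h := hzB.2.2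
          by_cases hzh : lam z = h
          · exact ⟨(z, u), Cn.refl ⟨hzu, by change l + 1 ≤ lam z; omega, by change lam z ≤ h; omega⟩,
              hzh⟩
          have hzB' : Band2 lam l (h - 1) (z, u) :=
            ⟨hzu, hz1, by change lam z ≤ h - 1; omega⟩
          have hzl : lam z ≠ l := fun h1 => hA ⟨(z, u), Cn.refl hzB', h1⟩
          rcases hq1.exit (Q' := Band2 lam l (h - 1)) hzB' with h1 | ⟨a, b, h1, h2, h3, h4⟩
          · exact absurd ⟨q1, h1.mono (fun v hv => hv.2), hq1l⟩ hA
          · have hbh : lam b.1 = h := by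
              by_contra h7
              apply h4
              refine ⟨h3.1, h3.2.1, ?_⟩
              have h8 := h3.2.2
              omega
            have hzB2 : Band2 lam (l + 1) h (z, u) :=
              ⟨hzu, by change l + 1 ≤ lam z; omega, hz2⟩
            have h1' : Conn2 E (Band2 lam l (h - 1)) (z, u) a := h1.mono (fun v hv => hv.2)
            rcases h1'.exit (Q' := Band2 lam (l + 1) h) hzB2 with h5 | ⟨a', b', h5, h6, h7, h8⟩
            · exact ⟨b, (h5.mono (fun v hv => hv.2)).tail h2 ⟨h3.1, by omega, by omega⟩, hbh⟩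
            · exfalso
              apply hA
              refine ⟨b', (h5.mono (fun v hv => hv.1)).tail h6 h7, ?_⟩
              by_contra h9
              apply h8
              have h10 := h7.2.1
              have h11 := h7.2.2
              exact ⟨h7.1, by omega, by omega⟩
        -- mirror
        have hr : ∀ a b, Adj E a b → Adj (fun a b => E b a) a b := fun a b h1 => h1.symm
        have hr' : ∀ a b, Adj (fun a b => E b a) a b → Adj E a b := fun a b h1 => h1.symm
        have hr2 : ∀ a b, Adj2 E a b → Adj2 (fun a b => E b a) a b := fun a b h1 => h1.symm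
        have hl' : IsLevel (fun a b => E b a) (fun v => - lam v) := by
          intro a b hab
          have h1 := hl _ _ hab
          change - lam b = - lam a + 1
          omega
        have hgr : SimpleGraph.fromRel (fun a b => E b a) = SimpleGraph.fromRel E := by
          ext a b
          rw [SimpleGraph.fromRel_adj, SimpleGraph.fromRel_adj]
          tauto
        refine star_A (fun a b => E b a) (fun v => - lam v) hl' (by rw [hgr]; exact hac) z u w s s'
          (fun a a' b b' h1 h2 => hs _ _ _ _ h1 h2) hsi (fun a a' b b' h1 h2 => hs' _ _ _ _ h1 h2)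
          hsi' hw hu
          (fun h1 => hsep (star_cn_mono h1 hr' (fun _ h => h))) hwz huz (congrArg Neg.neg hzu)
          (congrArg Neg.neg hzw) (star_cn_mono hczu hr (fun _ h => h))
          (star_cn_mono hczw hr (fun _ h => h)) (-h) (-l) (star_mirror hG) ?_ ?_
        · intro h1
          apply hmin2
          have h2 := star_mirror h1
          have h3 : - (-l - 1) = l + 1 := by ring
          simp only [neg_neg, h3] at h2
          exact h2
        · obtain ⟨q, hq, hqh⟩ := hB
          refine ⟨q, star_cn_mono hq hr2 ?_, congrArg Neg.neg hqh⟩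
          intro v hv
          have h1 := hv.2.1
          have h2 := hv.2.2
          refine ⟨congrArg Neg.neg hv.1, ?_, ?_⟩
          · change -h ≤ - lam v.1
            omega
          · change - lam v.1 ≤ -l - 1
            omega
  -- the range of the walk is good
  obtain ⟨n, f, hf0, hfn, hfs, _⟩ := hx.exists_seq
  obtain ⟨i0, hi0, hi0min⟩ := Finset.exists_min_image (Finset.range (n + 1)) (fun i => lam (f i).1)
    ⟨0, by simp⟩
  obtain ⟨i1, hi1, hi1max⟩ := Finset.exists_max_image (Finset.range (n + 1)) (fun i => lam (f i).1)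
    ⟨0, by simp⟩
  have hi0n : i0 ≤ n := by
    have := Finset.mem_range.mp hi0
    omega
  have hi1n : i1 ≤ n := by
    have := Finset.mem_range.mp hi1
    omega
  have hQ : ∀ i, i ≤ n → Band2 lam (lam (f i0).1) (lam (f i1).1) (f i) := by
    intro i hi
    refine ⟨?_, hi0min i (Finset.mem_range.mpr (by omega)), hi1max i (Finset.mem_range.mpr (by omega))⟩
    apply hlevd
    rw [← hf0]
    exact Cn.of_seq (Q := fun _ => True) hfs (fun _ _ => trivial) (Nat.zero_le i) hi
  have hwalk : ∀ i, i ≤ n → Conn2 E (Band2 lam (lam (f i0).1) (lam (f i1).1)) (z, u) (f i) := by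
    intro i hi
    rw [← hf0]
    exact Cn.of_seq hfs hQ (Nat.zero_le i) hi
  refine key _ (lam (f i0).1) (lam (f i1).1) rfl ⟨⟨f i0, hwalk i0 hi0n, rfl⟩,
    ⟨f i1, hwalk i1 hi1n, rfl⟩, Or.inl ?_⟩
  have h1 := hwalk n le_rfl
  rw [hfn] at h1
  have h2 : Conn E (Band lam (lam (f i0).1) (lam (f i1).1)) z x :=
    Cn.map Prod.fst h1 (fun a b _ h1 _ => adj2_fst h1) (fun a h1 => h1.right.2)
  have h3 : Conn E (Band lam (lam (f i0).1) (lam (f i1).1)) u x :=
    Cn.map Prod.snd h1 (fun a b _ h1 _ => adj2_snd h1) (fun a h1 => by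
      have h4 := h1.right
      have h5 := h4.1
      have h6 := h4.2.1
      have h7 := h4.2.2
      exact ⟨by rw [← h5]; exact h6, by rw [← h5]; exact h7⟩)
  exact h2.trans (h3.symm adj_symm)

end KMMTree
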