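import Pool.Agent.H24.KMM.Cycle
import Pool.Agent.H24.KMM.Star

/-!
# Module SYS: surgery on a minimal system of binary polymorphisms
-/

set_option autoImplicit false

namespace KMMTree

open Relation

variable {V : Type}

/-- the system of binary members of the clone with prescribed values `v` on `G` -/
def Sy (C : IClone V) (G : Set (V × V)) (v : V × V → V) (h : V → V → V) : Prop :=
  mem2 C h ∧ ∀ g ∈ G, h g.1 g.2 = v g

theorem Sy.comp {C : IClone V} {G : Set (V × V)} {v : V × V → V} {ι : Type} {f : (ι → V) → V}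
    (hf : C.mem f) {k : ι → V → V → V} (hk : ∀ i, Sy C G v (k i)) :
    Sy C G v (fun x y => f (fun i => k i x y)) := by
  refine ⟨C.comp f (fun i => fun x : Fin 2 → V => k i (x 0) (x 1)) hf (fun i => (hk i).1), ?_⟩
  intro g hg
  have : (fun i => k i g.1 g.2) = fun _ => v g := funext (fun i => (hk i).2 g hg)
  simp only [this]
  exact C.idem f hf _

theorem Sy.comp2 {C : IClone V} {G : Set (V × V)} {v : V × V → V} {t : V → V → V}
    (ht : mem2 C t) {k k' : V → V → V} (hk : Sy C G v k) (hk' : Sy C G v k') :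
    Sy C G v (fun x y => t (k x y) (k' x y)) := by
  refine ⟨ht.comp2 hk.1 hk'.1, ?_⟩
  intro g hg
  simp only [hk.2 g hg, hk'.2 g hg]
  exact ht.idem _

theorem Sy.iter {C : IClone V} {G : Set (V × V)} {v : V × V → V} {f : V → V → V}
    (hf : mem2 C f) {hd kb : V → V → V} (h1 : Sy C G v hd) (h2 : Sy C G v kb) (i : ℕ) :
    Sy C G v (fun x y => (f (hd x y))^[i] (kb x y)) := by
  induction i with
  | zero => exact h2
  | succ i ih =>
    have := Sy.comp2 hf h1 ih
    simp only [Function.iterate_succ_apply']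
    exact this

theorem mem2_iter {C : IClone V} {f : V → V → V} (hf : mem2 C f) (i : ℕ) :
    mem2 C (fun x y => (f x)^[i] y) := by
  induction i with
  | zero => exact mem2_snd C
  | succ i ih =>
    simp only [Function.iterate_succ_apply']
    exact hf.comp2 (mem2_fst C) ih

/-- every value is attained on the system -/
def FullSy (C : IClone V) (B : Set V) (u0 u1 : V) (p : Set (V × V) × (V × V → V)) : Prop :=
  ∀ b ∈ B, ∃ h, Sy C p.1 p.2 h ∧ h u0 u1 = b

theorem exists_max_sys [Finite V] (C : IClone V) (B : Set V) (u0 u1 : V)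
    (hgen : ∀ b ∈ B, ∃ h, mem2 C h ∧ h u0 u1 = b) (v0 : V) :
    ∃ (G : Set (V × V)) (v : V × V → V), FullSy C B u0 u1 (G, v) ∧
      ∀ G' v', FullSy C B u0 u1 (G', v') → G'.ncard ≤ G.ncard := by
  have hfin : ({p | FullSy C B u0 u1 p} : Set (Set (V × V) × (V × V → V))).Finite :=
    Set.toFinite _
  have hne : ({p | FullSy C B u0 u1 p} : Set (Set (V × V) × (V × V → V))).Nonempty := by
    refine ⟨(∅, fun _ => v0), ?_⟩
    intro b hb
    obtain ⟨h, h1, h2⟩ := hgen b hb
    exact ⟨h, ⟨h1, by intro g hg; exact absurd hg (Set.notMem_empty _)⟩, h2⟩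
  obtain ⟨⟨G, v⟩, h1, h2⟩ := Set.exists_max_image _ (fun p => p.1.ncard) hfin hne
  exact ⟨G, v, h1, fun G' v' h' => h2 (G', v') h'⟩

theorem gen_core {C : IClone V} {B : Set V} {K : Type}
    {cl : V → K} {st : K → K → K} (hc : Core C B K cl st) {u0 u1 : V} (h0 : u0 ∈ B) (h1 : u1 ∈ B)
    (hu : st (cl u0) (cl u0) = cl u1) : ∀ b ∈ B, ∃ h, mem2 C h ∧ h u0 u1 = b := by
  have key : {b | ∃ h, mem2 C h ∧ h u0 u1 = b} = B := by
    refine hc.minimal _ ?_ ?_ ?_
    · rintro b ⟨h, hm, rfl⟩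
      exact Sub.ap2 hc.sub hm h0 h1
    · intro ι f hf x hx
      choose k hk1 hk2 using hx
      refine ⟨fun x y => f (fun i => k i x y), ?_, ?_⟩
      · exact C.comp f (fun i => fun x : Fin 2 → V => k i (x 0) (x 1)) hf hk1
      · simp only [hk2]
    · exact ⟨u0, ⟨_, mem2_fst C, rfl⟩, u0, ⟨_, mem2_fst C, rfl⟩, u1, ⟨_, mem2_snd C, rfl⟩, hu⟩
  intro b hb
  rw [← key] at hb
  exact hb

/-- binary version of `clc` -/
theorem Core.clc2 {C : IClone V} {B : Set V} {K : Type}
    {cl : V → K} {st : K → K → K} (hc : Core C B K cl st) {t : V → V → V} (ht : mem2 C t)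
    {a b a' b' : V} (ha : a ∈ B) (hb : b ∈ B) (ha' : a' ∈ B) (hb' : b' ∈ B)
    (h1 : cl a = cl a') (h2 : cl b = cl b') : cl (t a b) = cl (t a' b') :=
  hc.clc _ ht ![a, b] ![a', b'] (by intro i; fin_cases i <;> simpa)
    (by intro i; fin_cases i <;> simpa) (by intro i; fin_cases i <;> simpa)

theorem Core.compat2 {C : IClone V} {B : Set V} {K : Type}
    {cl : V → K} {st : K → K → K} (hc : Core C B K cl st) {t : V → V → V} (ht : mem2 C t)
    {a b a' b' a'' b'' : V} (ha : a ∈ B) (hb : b ∈ B) (ha' : a' ∈ B) (hb' : b' ∈ B)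
    (ha'' : a'' ∈ B) (hb'' : b'' ∈ B)
    (h1 : st (cl a) (cl a') = cl a'') (h2 : st (cl b) (cl b') = cl b'') :
    st (cl (t a b)) (cl (t a' b')) = cl (t a'' b'') :=
  hc.compat _ ht ![a, b] ![a', b'] ![a'', b''] (by intro i; fin_cases i <;> simpa)
    (by intro i; fin_cases i <;> simpa) (by intro i; fin_cases i <;> simpa)
    (by intro i; fin_cases i <;> simpa)

theorem no_core [Finite V] (E : V → V → Prop) (lam : V → ℤ) (hl : IsLevel E lam)
    (hac : (SimpleGraph.fromRel E).IsAcyclic) (P : KMM (polClone E)) (B : Set V) (K : Type)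
    (cl : V → K) (st : K → K → K) : ¬ Core (polClone E) B K cl st := by
  classical
  intro hc
  obtain ⟨u0, hu0⟩ := hc.ne
  obtain ⟨u1, hu1, hu01⟩ := hc.surj (st (cl u0) (cl u0))
  obtain ⟨c, hcB, hcc⟩ := hc.surj (st (cl u0) (cl u1))
  have hgen := gen_core hc hu0 hu1 hu01.symm
  obtain ⟨G, v, hFull, hmax⟩ := exists_max_sys (polClone E) B u0 u1 hgen u0
  -- the system
  set S : (V → V → V) → Prop := Sy (polClone E) G v with hS
  have Sval : ∀ b ∈ B, ∃ h, S h ∧ h u0 u1 = b := hFull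
  have valB : ∀ {h}, S h → h u0 u1 ∈ B := fun {h} hh => Sub.ap2 hc.sub hh.1 hu0 hu1
  have hne01 : cl u0 ≠ cl u1 := by
    intro h
    rw [hu01] at h
    exact hc.noidem _ h.symm
  -- cancellation
  have cancel : ∀ a b d : K, st a d = st b d → a = b := by
    intro a b d h
    have h1 := hc.quasi d a
    have h2 := hc.quasi d b
    rw [hc.comm d a, h, hc.comm b d] at h1
    exact h1.symm.trans h2
  -- no constant classes
  have nocst : ¬ ∀ h h', S h → S h' → cl (h u0 u1) = cl (h' u0 u1) := by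
    intro hcon
    obtain ⟨h, h1, h2⟩ := Sval u0 hu0
    obtain ⟨h', h1', h2'⟩ := Sval u1 hu1
    have := hcon h h' h1 h1'
    rw [h2, h2'] at this
    exact hne01 this
  -- good and constant pairs
  set Pp : V × V → Prop := fun g => ∀ h h', S h → S h' → h g.1 g.2 = h' g.1 g.2 →
    cl (h u0 u1) = cl (h' u0 u1) with hPp
  have dich : ∀ g : V × V, ¬ Pp g → ∃ d, ∀ h, S h → h g.1 g.2 = d := by
    intro g hg
    by_cases hgG : g ∈ G
    · exact ⟨v g, fun h hh => hh.2 g hgG⟩
    exfalso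
    have hL : Lnk (polClone E) (fun (x b : V) => ∃ h, S h ∧ h g.1 g.2 = x ∧ h u0 u1 = b) := by
      intro ι f hf u
      refine ⟨f u, ?_⟩
      intro x hx
      choose k hk1 hk2 hk3 using hx
      refine ⟨fun x y => f (fun i => k i x y), Sy.comp hf hk1, ?_, ?_⟩
      · simp only [hk2]
      · simp only [hk3]
    have hN : ∀ b ∈ B, ∃ x : V, ∃ h, S h ∧ h g.1 g.2 = x ∧ h u0 u1 = b := by
      intro b hb
      obtain ⟨h, h1, h2⟩ := Sval b hb
      exact ⟨_, h, h1, rfl, h2⟩
    rcases hc.dich V (fun x b => ∃ h, S h ∧ h g.1 g.2 = x ∧ h u0 u1 = b) hL hN with h1 | h1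
    · obtain ⟨d, hd⟩ := h1
      have hF : FullSy (polClone E) B u0 u1 (insert g G, Function.update v g d) := by
        intro b hb
        obtain ⟨h, h1, h2, h3⟩ := hd b hb
        refine ⟨h, ⟨h1.1, ?_⟩, h3⟩
        intro g' hg'
        rcases Set.mem_insert_iff.1 hg' with rfl | hg'
        · simp [h2]
        · have : g' ≠ g := by
            intro h
            exact hgG (h ▸ hg')
          simp only [Function.update_of_ne this]
          exact h1.2 g' hg'
      have h4 := hmax _ _ hF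
      rw [Set.ncard_insert_of_notMem hgG (Set.toFinite _)] at h4
      omega
    · apply hg
      intro h h' hh hh' heq
      exact h1 (h g.1 g.2) _ (valB hh) _ (valB hh') ⟨h, hh, rfl, rfl⟩ ⟨h', hh', heq.symm, rfl⟩
  have hP01 : Pp (u0, u1) := fun h h' _ _ heq => by
    simp only at heq
    rw [heq]
  have hdiag : ∀ x, ¬ Pp (x, x) := by
    intro x hx
    apply nocst
    intro h h' hh hh'
    refine hx h h' hh hh' ?_
    simp only
    rw [hh.1.idem, hh'.1.idem]
  -- the component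
  set UU : V × V → Prop := fun g => Conn2 E Pp (u0, u1) g with hUU
  have UP : ∀ {g}, UU g → Pp g := fun {g} hg => hg.right
  have hU01 : UU (u0, u1) := Cn.refl hP01
  -- surgery
  have surg : ∀ h1 h2, S h1 → S h2 → S (fun x y => if UU (x, y) then h1 x y else h2 x y) := by
    intro h1 h2 hh1 hh2
    obtain ⟨p1, i1⟩ := mem2_polClone.1 hh1.1
    obtain ⟨p2, i2⟩ := mem2_polClone.1 hh2.1
    have hout : ∀ g g' : V × V, UU g → ¬ UU g' → Adj2 E g g' →
        h1 g'.1 g'.2 = h2 g'.1 g'.2 := by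
      intro g g' hg hg' hadj
      have : ¬ Pp g' := fun hp => hg' (hg.tail hadj hp)
      obtain ⟨d, hd⟩ := dich g' this
      rw [hd h1 hh1, hd h2 hh2]
    refine ⟨mem2_polClone.2 ⟨?_, ?_⟩, ?_⟩
    · intro x x' y y' hx hy
      by_cases ha : UU (x, y)
      · by_cases hb : UU (x', y')
        · simp only [ha, hb, if_true]
          exact p1 _ _ _ _ hx hy
        · simp only [ha, hb, if_true, if_false]
          rw [← hout (x, y) (x', y') ha hb (Or.inl ⟨hx, hy⟩)]
          exact p1 _ _ _ _ hx hy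
      · by_cases hb : UU (x', y')
        · simp only [ha, hb, if_true, if_false]
          rw [← hout (x', y') (x, y) hb ha (Or.inr ⟨hx, hy⟩)]
          exact p1 _ _ _ _ hx hy
        · simp only [ha, hb, if_false]
          exact p2 _ _ _ _ hx hy
    · intro a
      simp only [i1, i2, ite_self]
    · intro g hg
      simp only
      split_ifs
      · exact hh1.2 g hg
      · exact hh2.2 g hg
  -- values at swapped arguments
  have swapv : ∀ h, mem2 (polClone E) h → cl (h u1 u0) = st (cl (h u0 u1)) (cl c) := by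
    intro h hh
    have h1 := hc.compat2 hh hu0 hu1 hu1 hu0 hcB hcB hcc.symm (by rw [hc.comm]; exact hcc.symm)
    rw [hh.idem] at h1
    have h2 := hc.quasi (cl (h u0 u1)) (cl (h u1 u0))
    rw [h1] at h2
    exact h2.symm
  -- claim 2.1
  have claim1 : ∀ g, Pp g → ∀ k0 k1, S k0 → S k1 →
      ((cl (k0 u0 u1) = cl u0 ∧ cl (k1 u0 u1) = cl u1) ∨
        (cl (k0 u0 u1) = cl u1 ∧ cl (k1 u0 u1) = cl u0)) →
      UU (k0 g.1 g.2, k1 g.1 g.2) := by
    intro g hg k0 k1 hk0 hk1 hcls
    by_contra hX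
    apply nocst
    intro h1 h2 hh1 hh2
    have hH := surg h1 h2 hh1 hh2
    set H : V → V → V := fun x y => if UU (x, y) then h1 x y else h2 x y with hHdef
    have e1 : H (k0 g.1 g.2) (k1 g.1 g.2) = h2 (k0 g.1 g.2) (k1 g.1 g.2) := by
      simp only [hHdef, hX, if_false]
    have e2 := hg _ _ (Sy.comp2 hH.1 hk0 hk1) (Sy.comp2 hh2.1 hk0 hk1) e1
    have e3 : H u0 u1 = h1 u0 u1 := by
      simp only [hHdef, hU01, if_true]
    rcases hcls with ⟨q0, q1⟩ | ⟨q0, q1⟩
    · rw [hc.clc2 hH.1 (valB hk0) (valB hk1) hu0 hu1 q0 q1,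
        hc.clc2 hh2.1 (valB hk0) (valB hk1) hu0 hu1 q0 q1, e3] at e2
      exact e2
    · rw [hc.clc2 hH.1 (valB hk0) (valB hk1) hu1 hu0 q0 q1,
        hc.clc2 hh2.1 (valB hk0) (valB hk1) hu1 hu0 q0 q1, swapv _ hH.1, swapv _ hh2.1, e3] at e2
      exact cancel _ _ _ e2
  -- 2.2
  obtain ⟨g0, g', hUg0, hadj0, hg'⟩ : ∃ g0 g', UU g0 ∧ Adj2 E g0 g' ∧ ¬ Pp g' := by
    obtain ⟨k0, hk0, e0⟩ := Sval u1 hu1
    obtain ⟨k1, hk1, e1⟩ := Sval u0 hu0
    have h1 := claim1 (u0, u1) hP01 k0 k1 hk0 hk1 (Or.inr ⟨by rw [e0], by rw [e1]⟩)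
    have h1' : Conn2 E Pp (u0, u1) (k0 u0 u1, k1 u0 u1) := h1
    rw [e0, e1] at h1'
    obtain ⟨t, ht⟩ := swap_to_diag hl (h1'.mono (fun _ _ => trivial))
    rcases ht.exit (Q' := Pp) hP01 with h2 | ⟨a, b, h2, h3, _, h4⟩
    · exact absurd h2.right.2 (hdiag t)
    · exact ⟨a, b, h2.mono (fun _ h => h.2), h3, h4⟩
  obtain ⟨d, hd⟩ := dich g' hg'
  have polyadj : ∀ {h}, S h → ∀ {g g'}, Adj2 E g g' → Adj E (h g.1 g.2) (h g'.1 g'.2) := by
    intro h hh g g' hadj
    obtain ⟨p1, _⟩ := mem2_polClone.1 hh.1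
    rcases hadj with ⟨a1, a2⟩ | ⟨a1, a2⟩
    · exact Or.inl (p1 _ _ _ _ a1 a2)
    · exact Or.inr (p1 _ _ _ _ a1 a2)
  have adjd : ∀ {h}, S h → Adj E d (h g0.1 g0.2) := by
    intro h hh
    have := polyadj hh hadj0
    rw [hd h hh] at this
    exact adj_symm _ _ this
  have noloop : ∀ x, ¬ Adj E x x := by
    rintro x (h | h) <;> · have := hl _ _ h; omega
  -- 2.3
  have hub : ∀ g, UU g → ∀ h, S h → h g.1 g.2 ≠ d := by
    intro g hg
    have hwalk : Conn2 E Pp g0 g := (Cn.symm adj2_symm hUg0).trans hg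
    have hg0' : ∀ h, S h → h g0.1 g0.2 ≠ d := by
      intro h hh heq
      have := adjd hh
      rw [heq] at this
      exact noloop _ this
    rcases hwalk.exit (Q' := fun g => ∀ h, S h → h g.1 g.2 ≠ d) hg0' with h1 | h1
    · exact h1.right.2
    exfalso
    obtain ⟨ga, gb, hga, hab, hPb, hgb⟩ := h1
    push Not at hgb
    obtain ⟨hd', hhd', hdd⟩ := hgb
    obtain ⟨f, hf, b, hb, n, hn, hper, hnfix⟩ := core_cycle (polClone E) P B K cl st hc
      (hd' u0 u1) (valB hhd')
    obtain ⟨kb, hkb, ekb⟩ := Sval b hb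
    -- iterates
    have kS : ∀ i, S (fun x y => (f (hd' x y))^[i] (kb x y)) := Sy.iter hf hhd' hkb
    have hclper : ∀ i, cl ((f (hd' u0 u1))^[n * i] b) = cl b := by
      intro i
      induction i with
      | zero => simp
      | succ i ih =>
        have h2 : ∀ j, ∀ x ∈ B, ∀ y ∈ B, cl x = cl y → cl ((f (hd' u0 u1))^[j] x) =
            cl ((f (hd' u0 u1))^[j] y) := by
          intro j
          intro x hx y hy hxy
          exact hc.clc2 (mem2_iter hf j) (valB hhd') hx (valB hhd') hy rfl hxy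
        have h3 : n * (i + 1) = n + n * i := by ring
        rw [h3, Function.iterate_add_apply]
        have h4 : (f (hd' u0 u1))^[n * i] b ∈ B := Sub.ap2 hc.sub (mem2_iter hf _) (valB hhd') hb
        rw [h2 n _ h4 b hb ih]
        exact hper
    -- pigeonhole
    obtain ⟨i, j, hij, heq⟩ : ∃ i j : ℕ, i < j ∧
        (f d)^[n * i] (kb gb.1 gb.2) = (f d)^[n * j] (kb gb.1 gb.2) := by
      obtain ⟨i, j, hne, he⟩ := Finite.exists_ne_map_eq_of_infinite
        (fun i : ℕ => (f d)^[n * i] (kb gb.1 gb.2))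
      rcases lt_or_gt_of_ne hne with h | h
      · exact ⟨i, j, h, he⟩
      · exact ⟨j, i, h, he.symm⟩
    set ku : V → V → V := fun x y => (f (hd' x y))^[n * i] (kb x y) with hku
    set kw : V → V → V := fun x y => (f (hd' x y))^[n * i + 1] (kb x y) with hkw
    have hkuS : S ku := kS _
    have hkwS : S kw := kS _
    set u : V := ku gb.1 gb.2 with hu
    set w : V := kw gb.1 gb.2 with hw
    have hfdu : f d u = w := by
      simp only [hu, hw, hku, hkw, Function.iterate_succ_apply', hdd]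
    obtain ⟨m, hm⟩ : ∃ m, n * j = (m + 1) + n * i := by
      have h5 : n * i < n * j := Nat.mul_lt_mul_of_pos_left hij hn
      exact ⟨n * j - n * i - 1, by omega⟩
    have hsw : (f d)^[m] w = u := by
      have h6 : (f d)^[m + 1] u = u := by
        have h7 : u = (f d)^[n * i] (kb gb.1 gb.2) := by
          simp only [hu, hku, hdd]
        rw [h7, ← Function.iterate_add_apply, ← hm, ← heq]
      rw [← hfdu, ← Function.iterate_succ_apply]
      exact h6
    have hclu : cl (ku u0 u1) = cl b := by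
      have := hclper i
      simp only [hku, ekb]
      exact this
    have hclw : cl (kw u0 u1) = cl (f (hd' u0 u1) b) := by
      simp only [hkw, ekb, Function.iterate_succ_apply']
      exact hc.clc2 hf (valB hhd') (Sub.ap2 hc.sub (mem2_iter hf _) (valB hhd') hb) (valB hhd') hb
        rfl (hclper i)
    have hclne : cl (kw u0 u1) ≠ cl (ku u0 u1) := by
      rw [hclu, hclw]
      exact hnfix
    have huw : w ≠ u := by
      intro h
      exact hclne (hPb kw ku hkwS hkuS h)
    have hud : u ≠ d := by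
      intro h
      apply huw
      rw [← hfdu, h, hf.idem]
    have hwd : w ≠ d := by
      intro h
      apply hud
      rw [← hsw, h]
      exact (mem2_iter hf m).idem d
    have cU : ∀ k, S k → k gb.1 gb.2 ≠ d →
        Conn E (fun x => x ≠ d) (k g0.1 g0.2) (k gb.1 gb.2) := by
      intro k hk hkd
      have h8 : Conn E (fun x => x ≠ d) (k g0.1 g0.2) (k ga.1 ga.2) :=
        Cn.map (s := Adj E) (P := fun x => x ≠ d) (fun g : V × V => k g.1 g.2) hga
          (fun a b _ h _ => polyadj hk h) (fun a ha => ha.right.2 k hk)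
      exact h8.tail (polyadj hk hab) hkd
    refine star E lam hl hac d u w f (fun x y => (f x)^[m] y) (mem2_polClone.1 hf).1
      (fun a => hf.idem a) (mem2_polClone.1 (mem2_iter hf m)).1
      (fun a => (mem2_iter hf m).idem a) hfdu hsw ?_ hwd hud ?_
    · intro hcon
      have h9 := ((cU ku hkuS hud).trans hcon).trans (Cn.symm adj_symm (cU kw hkwS hwd))
      have h10 := nbr_eq E hac (adjd hkuS) (adjd hkwS) h9
      exact hclne ((UP hUg0) kw ku hkwS hkuS h10.symm)
    · have hgbg0 : Conn2 E (fun _ => True) gb g0 := by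
        have h11 : Conn2 E (fun _ => True) g0 gb :=
          (hga.mono (fun _ _ => trivial)).tail hab trivial
        exact Cn.symm adj2_symm h11
      have hgbg' : Conn2 E (fun _ => True) gb g' := hgbg0.tail hadj0 trivial
      refine ⟨d, ?_⟩
      have h12 : Conn2 E (fun _ => True) (hd' gb.1 gb.2, ku gb.1 gb.2)
          (hd' g'.1 g'.2, ku g'.1 g'.2) := by
        refine Cn.map (s := Adj2 E) (P := fun _ => True)
          (fun g : V × V => (hd' g.1 g.2, ku g.1 g.2)) hgbg' ?_ (fun _ _ => trivial)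
        intro a b _ h _
        obtain ⟨p1, _⟩ := mem2_polClone.1 hhd'.1
        obtain ⟨p2, _⟩ := mem2_polClone.1 hkuS.1
        rcases h with ⟨a1, a2⟩ | ⟨a1, a2⟩
        · exact Or.inl ⟨p1 _ _ _ _ a1 a2, p2 _ _ _ _ a1 a2⟩
        · exact Or.inr ⟨p1 _ _ _ _ a1 a2, p2 _ _ _ _ a1 a2⟩
      rw [hdd, hd _ hhd', hd _ hkuS] at h12
      exact h12
  -- 2.4
  obtain ⟨h0, hh0, e0⟩ := Sval u0 hu0
  obtain ⟨h1, hh1, e1⟩ := Sval u1 hu1
  have hUa := claim1 g0 (UP hUg0) h0 h1 hh0 hh1 (Or.inl ⟨by rw [e0], by rw [e1]⟩)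
  have hUb := claim1 g0 (UP hUg0) h1 h0 hh1 hh0 (Or.inr ⟨by rw [e1], by rw [e0]⟩)
  obtain ⟨h, hh, eh⟩ := Sval c hcB
  have hw : Conn2 E Pp (h0 g0.1 g0.2, h1 g0.1 g0.2) (h1 g0.1 g0.2, h0 g0.1 g0.2) :=
    (Cn.symm adj2_symm hUa).trans hUb
  have hw2 : Conn E (fun x => x ≠ d) (h (h0 g0.1 g0.2) (h1 g0.1 g0.2))
      (h (h1 g0.1 g0.2) (h0 g0.1 g0.2)) :=
    Cn.map (s := Adj E) (P := fun x => x ≠ d) (fun g : V × V => h g.1 g.2) hw
      (fun a b _ h' _ => polyadj hh h') (fun a ha => hub a (hUa.trans ha) h hh)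
  have k1 := Sy.comp2 hh.1 hh0 hh1
  have k2 := Sy.comp2 hh.1 hh1 hh0
  have heq := nbr_eq E hac (adjd k1) (adjd k2) hw2
  have hfin := (UP hUg0) _ _ k1 k2 heq
  simp only [e0, e1, eh] at hfin
  have h5 := swapv h hh.1
  rw [← hfin, eh] at h5
  exact hc.noidem _ h5.symm

end KMMTree
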