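import Pool.Agent.H24.KMM.Global
import Pool.Agent.H24.KMM.MinCE2
import Pool.Agent.H24.KMM.Level
import Pool.Agent.H24.KMM.Sys

/-!
# Module MAIN: assembly
-/

set_option autoImplicit false

namespace KMMTree

variable {V : Type}

/-- idempotent KMM polymorphisms on an acyclic digraph with a level function give a 3-wnu -/
theorem wnu_of_kmm [Finite V] (E : V → V → Prop) (lam : V → ℤ) (hl : IsLevel E lam)
    (hac : (SimpleGraph.fromRel E).IsAcyclic) (P : KMM (polClone E)) :
    ∃ w : V → V → V → V, mem3 (polClone E) w ∧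
      ∀ x y, w x x y = w x y x ∧ w x y x = w y x x := by
  refine exists_wnu (polClone E) ?_
  intro R hR s1 s2 hne
  by_contra hno
  push Not at hno
  obtain ⟨B, R', hB⟩ := exists_minBad (polClone E) (B := Set.univ) (R := R)
    ⟨fun _ _ _ _ => Set.mem_univ _, fun _ _ _ _ => Set.mem_univ _, hR, s1, s2, hne, hno⟩
  obtain ⟨K, cl, st, hc⟩ := hB.core P
  exact no_core E lam hl hac P B K cl st hc

/-- some positive power of a self-map of a finite set is idempotent -/
theorem exists_idem_iterate [Finite V] (e : V → V) :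
    ∃ M : ℕ, ∀ x, e^[M + 1] (e^[M + 1] x) = e^[M + 1] x := by
  obtain ⟨m, n, hne, hmn⟩ := Finite.exists_ne_map_eq_of_infinite (fun k : ℕ => e^[k])
  wlog hlt : m < n generalizing m n
  · exact this n m hne.symm hmn.symm (by omega)
  have hmn' : e^[m] = e^[n] := hmn
  obtain ⟨k, hk⟩ : ∃ k, n = m + (k + 1) := ⟨n - m - 1, by omega⟩
  have hper : ∀ t, e^[m + t * (k + 1)] = e^[m] := by
    intro t
    induction t with
    | zero => simp
    | succ t ih =>
      have h1 : m + (t + 1) * (k + 1) = t * (k + 1) + n := by rw [hk]; ring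
      rw [h1, Function.iterate_add, ← hmn', ← Function.iterate_add, add_comm]
      exact ih
  have hper2 : ∀ j t, m ≤ j → e^[j + t * (k + 1)] = e^[j] := by
    intro j t hj
    obtain ⟨i, rfl⟩ := Nat.exists_eq_add_of_le hj
    have h1 : m + i + t * (k + 1) = i + (m + t * (k + 1)) := by ring
    rw [h1, Function.iterate_add, hper t, ← Function.iterate_add, add_comm]
  refine ⟨(m + 1) * (k + 1) - 1, fun x => ?_⟩
  have hM : (m + 1) * (k + 1) - 1 + 1 = (m + 1) * (k + 1) := by
    have : 0 < (m + 1) * (k + 1) := by positivity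
    omega
  rw [hM, ← Function.iterate_add_apply]
  have h1 := hper2 ((m + 1) * (k + 1)) (m + 1) (by nlinarith [Nat.zero_le k, Nat.zero_le m])
  rw [h1]

/-- Reduction to idempotent polymorphisms.
`e x = p x x x = q x x x` is an endomorphism; some power `ε = e^M`, `M ≥ 1`, is idempotent.
`V' = {v // ε v = v}`, `E' = E` restricted, `p' = ε ∘ e^(M-1) ∘ p`, `q' = ε ∘ e^(M-1) ∘ q` are
idempotent KMM polymorphisms of `E'`.  `wnu_of_kmm` gives `w'` on `V'`;
`w x y z = w' (ε x) (ε y) (ε z)`. -/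
theorem main_forward (V : Type) [Fintype V] (E : V → V → Prop) (hirr : ∀ a, ¬ E a a)
    (hasym : ∀ a b, E a b → ¬ E b a) (ht : (SimpleGraph.fromRel E).IsTree)
    (p q : V → V → V → V)
    (hp : ∀ x1 x2 x3 y1 y2 y3 : V, E x1 y1 → E x2 y2 → E x3 y3 → E (p x1 x2 x3) (p y1 y2 y3))
    (hq : ∀ x1 x2 x3 y1 y2 y3 : V, E x1 y1 → E x2 y2 → E x3 y3 → E (q x1 x2 x3) (q y1 y2 y3))
    (h : ∀ x y : V, p x y y = q y x x ∧ q y x x = q x x y ∧ p x y x = q x y x) :
    ∃ w : V → V → V → V,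
      (∀ x1 x2 x3 y1 y2 y3 : V, E x1 y1 → E x2 y2 → E x3 y3 →
        E (w x1 x2 x3) (w y1 y2 y3)) ∧
      (∀ x y : V, w x x y = w x y x ∧ w x y x = w y x x) := by
  obtain ⟨lam, hlam⟩ := exists_level E hirr hasym ht
  set e : V → V := fun x => p x x x with he
  have heE : ∀ a b, E a b → E (e a) (e b) := fun a b hab => hp _ _ _ _ _ _ hab hab hab
  have heq : ∀ x, q x x x = e x := fun x => ((h x x).1).symm
  obtain ⟨M, hM⟩ := exists_idem_iterate e
  have hit : ∀ n a b, E a b → E (e^[n] a) (e^[n] b) := by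
    intro n
    induction n with
    | zero => intro a b hab; exact hab
    | succ n ih =>
      intro a b hab
      rw [Function.iterate_succ_apply, Function.iterate_succ_apply]
      exact ih _ _ (heE _ _ hab)
  set ε : V → V := e^[M + 1] with hε
  have hεe : ∀ x, e^[M] (e x) = ε x := fun x => by
    rw [hε, Function.iterate_succ_apply]
  -- the retract
  let V' : Type := {v : V // ε v = v}
  let E' : V' → V' → Prop := fun a b => E a.1 b.1
  let ρ : V → V' := fun v => ⟨ε v, hM v⟩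
  have hρ : ∀ a b, E a b → E' (ρ a) (ρ b) := fun a b hab => hit (M + 1) _ _ hab
  have hρid : ∀ v : V', ρ v.1 = v := fun v => Subtype.ext v.2
  have hlam' : IsLevel E' (fun v => lam v.1) := fun a b hab => hlam _ _ hab
  have hac' : (SimpleGraph.fromRel E').IsAcyclic := by
    refine SimpleGraph.IsAcyclic.comap (G' := SimpleGraph.fromRel E) ⟨Subtype.val, ?_⟩
      Subtype.val_injective ht.isAcyclic
    intro a b hab
    rw [SimpleGraph.fromRel_adj] at hab ⊢
    exact ⟨fun h' => hab.1 (Subtype.ext h'), hab.2⟩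
  -- the operations
  have hmem : ∀ r : V → V → V → V,
      (∀ x1 x2 x3 y1 y2 y3 : V, E x1 y1 → E x2 y2 → E x3 y3 → E (r x1 x2 x3) (r y1 y2 y3)) →
      (∀ x, r x x x = e x) →
      mem3 (polClone E') (fun x y z => ρ (e^[M] (r x.1 y.1 z.1))) := by
    intro r hr hre
    refine ⟨fun x y hxy => hρ _ _ (hit M _ _ (hr _ _ _ _ _ _ (hxy 0) (hxy 1) (hxy 2))), ?_⟩
    intro a
    apply Subtype.ext
    show ε (e^[M] (r a.1 a.1 a.1)) = a.1
    rw [hre, hεe, a.2, a.2]
  let P : KMM (polClone E') :=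
    { p := fun x y z => ρ (e^[M] (p x.1 y.1 z.1))
      q := fun x y z => ρ (e^[M] (q x.1 y.1 z.1))
      hp := hmem p hp (fun _ => rfl)
      hq := hmem q hq heq
      h1 := fun x y => by
        show ρ (e^[M] (p x.1 y.1 y.1)) = ρ (e^[M] (q y.1 x.1 x.1))
        rw [(h x.1 y.1).1]
      h2 := fun x y => by
        show ρ (e^[M] (q y.1 x.1 x.1)) = ρ (e^[M] (q x.1 x.1 y.1))
        rw [(h x.1 y.1).2.1]
      h3 := fun x y => by
        show ρ (e^[M] (p x.1 y.1 x.1)) = ρ (e^[M] (q x.1 y.1 x.1))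
        rw [(h x.1 y.1).2.2] }
  obtain ⟨w', hw', hsym⟩ := wnu_of_kmm E' (fun v => lam v.1) hlam' hac' P
  refine ⟨fun x y z => (w' (ρ x) (ρ y) (ρ z)).1, ?_, ?_⟩
  · intro x1 x2 x3 y1 y2 y3 h1 h2 h3
    exact hw'.1 ![ρ x1, ρ x2, ρ x3] ![ρ y1, ρ y2, ρ y3] (by
      intro i
      fin_cases i
      · exact hρ _ _ h1
      · exact hρ _ _ h2
      · exact hρ _ _ h3)
  · intro x y
    exact ⟨congrArg Subtype.val (hsym _ _).1, congrArg Subtype.val (hsym _ _).2⟩

theorem main (V : Type) [Fintype V] (E : V → V → Prop) (hirr : ∀ a, ¬ E a a)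
    (hasym : ∀ a b, E a b → ¬ E b a) (ht : (SimpleGraph.fromRel E).IsTree) :
      ((∃ p q : V → V → V → V,
          (∀ x1 x2 x3 y1 y2 y3 : V, E x1 y1 → E x2 y2 → E x3 y3 →
              E (p x1 x2 x3) (p y1 y2 y3)) ∧
          (∀ x1 x2 x3 y1 y2 y3 : V, E x1 y1 → E x2 y2 → E x3 y3 →
              E (q x1 x2 x3) (q y1 y2 y3)) ∧
          (∀ x y : V, p x y y = q y x x ∧ q y x x = q x x y ∧ p x y x = q x y x)) ↔
        (∃ w : V → V → V → V,
          (∀ x1 x2 x3 y1 y2 y3 : V, E x1 y1 → E x2 y2 → E x3 y3 →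
              E (w x1 x2 x3) (w y1 y2 y3)) ∧
          (∀ x y : V, w x x y = w x y x ∧ w x y x = w y x x))) := by
  constructor
  · rintro ⟨p, q, hp, hq, h⟩
    exact main_forward V E hirr hasym ht p q hp hq h
  · rintro ⟨w, hw, h⟩
    refine ⟨fun x y _ => w x x y, w, ?_, hw, ?_⟩
    · intro x1 x2 x3 y1 y2 y3 h1 h2 h3
      exact hw _ _ _ _ _ _ h1 h1 h2
    · intro x y
      have h1 := h x y
      exact ⟨h1.1.trans h1.2, (h1.1.trans h1.2).symm, h1.1⟩

end KMMTree
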