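import Pool.Agent.H24.KMM.Loop

/-!
# Module MINCE: the minimal counterexample
-/

set_option autoImplicit false

namespace KMMTree

open Relation

variable {V : Type}

/-- `R` is a compatible, symmetric, nonempty ternary relation on the subuniverse `B` without constant
tuples -/
structure Bad (C : IClone V) (B : Set V) (R : V → V → V → Prop) : Prop where
  sub : Sub C B
  inB : ∀ x y z, R x y z → x ∈ B
  compat : Compat3 C R
  sym1 : ∀ x y z, R x y z → R y x z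
  sym2 : ∀ x y z, R x y z → R x z y
  ne : ∃ x y z, R x y z
  noconst : ∀ x, ¬ R x x x

/-- minimal counterexample: `B` of minimal size, then `R` maximal -/
structure MinBad (C : IClone V) (B : Set V) (R : V → V → V → Prop) : Prop extends Bad C B R where
  minB : ∀ (B' : Set V) (R' : V → V → V → Prop), B' ⊆ B → Bad C B' R' → B' = B
  maxR : ∀ R' : V → V → V → Prop, Bad C B R' → (∀ x y z, R x y z → R' x y z) →
    ∀ x y z, R' x y z → R x y z

/-- Existence: `B` with `B.ncard` minimal, then `R` with the number of triples maximal. -/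
theorem exists_minBad [Finite V] (C : IClone V) {B : Set V} {R : V → V → V → Prop}
    (h : Bad C B R) : ∃ B' R', MinBad C B' R' := by
  classical
  obtain ⟨B0, hB0⟩ := (Set.toFinite {B' : Set V | ∃ R', Bad C B' R'}).exists_minimal ⟨B, R, h⟩
  obtain ⟨⟨R0, hR0⟩, hmin⟩ := hB0
  obtain ⟨R1, hR1⟩ := (Set.toFinite {R' : V → V → V → Prop | Bad C B0 R'}).exists_maximal ⟨R0, hR0⟩
  obtain ⟨hR1, hmax⟩ := hR1
  refine ⟨B0, R1, { hR1 with minB := ?_, maxR := ?_ }⟩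
  · intro B' R' hsub hb
    exact Set.Subset.antisymm hsub (hmin ⟨R', hb⟩ hsub)
  · intro R' hb hle
    exact hmax hb (fun x y z h => hle x y z h)

variable [Finite V] {C : IClone V} {B : Set V} {R : V → V → V → Prop}

/-- (P) a subuniverse `B' ⊆ B` on which some bad `R'` (bad on `B`) has a triple is `B`:
restrict `R'` to `B'`. -/
theorem MinBad.sub_eq (h : MinBad C B R) {B' : Set V} (hB' : B' ⊆ B) (hs : Sub C B')
    {R' : V → V → V → Prop} (hR' : Bad C B R')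
    (hex : ∃ x ∈ B', ∃ y ∈ B', ∃ z ∈ B', R' x y z) : B' = B := by
  refine h.minB B' (fun x y z => R' x y z ∧ x ∈ B' ∧ y ∈ B' ∧ z ∈ B') hB' ?_
  refine ⟨hs, fun x y z h => h.2.1, ?_, ?_, ?_, ?_, ?_⟩
  · intro ι f hf x y z hxyz
    exact ⟨hR'.compat f hf x y z (fun i => (hxyz i).1), hs f hf x (fun i => (hxyz i).2.1),
      hs f hf y (fun i => (hxyz i).2.2.1), hs f hf z (fun i => (hxyz i).2.2.2)⟩
  · rintro x y z ⟨h1, h2, h3, h4⟩
    exact ⟨hR'.sym1 _ _ _ h1, h3, h2, h4⟩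
  · rintro x y z ⟨h1, h2, h3, h4⟩
    exact ⟨hR'.sym2 _ _ _ h1, h2, h4, h3⟩
  · obtain ⟨x, hx, y, hy, z, hz, hR⟩ := hex
    exact ⟨x, y, z, hR, hx, hy, hz⟩
  · rintro x ⟨h1, _⟩
    exact hR'.noconst x h1

/-- every element of `B` is in a triple: `{x | ∃ y z, R x y z}` is a subuniverse containing a triple -/
theorem MinBad.proj (h : MinBad C B R) {a : V} (ha : a ∈ B) : ∃ b c, R a b c := by
  have hs : Sub C {x | ∃ y z, R x y z} := by
    intro ι f hf x hx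
    choose y z hyz using hx
    exact ⟨f y, f z, h.compat f hf x y z hyz⟩
  have hsub : {x | ∃ y z, R x y z} ⊆ B := by
    rintro x ⟨y, z, hR⟩
    exact h.inB _ _ _ hR
  obtain ⟨x, y, z, hR⟩ := h.ne
  have heq := h.sub_eq hsub hs h.toBad ⟨x, ⟨y, z, hR⟩, y, ⟨x, z, h.sym1 _ _ _ hR⟩, z,
    ⟨x, y, h.sym1 _ _ _ (h.sym2 _ _ _ hR)⟩, hR⟩
  rw [← heq] at ha
  exact ha

/-- Let `D` be a proper nonempty subuniverse of `B`, binary absorbing by `t`; `d ∈ D`,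
`R d b b'` (`proj`).  `t` applied to the rows `(d,b,b')`, `(b,d,b')` gives a row `(d1,d2,b')` with
`d1,d2 ∈ D`; `t` applied to `(d1,d2,b')`, `(d1,b',d2)` gives a row in `D^3`.  Contradiction to
`sub_eq`. -/
theorem MinBad.noBA (h : MinBad C B R) : NoBA C B := by
  intro D hDB hDne hD hBA
  obtain ⟨t, ht, habs⟩ := hBA
  have hcp : Compat3 C R := h.compat
  obtain ⟨d, hd⟩ := hDne
  obtain ⟨b, b', hR⟩ := h.proj (hDB hd)
  have hbB : b ∈ B := h.inB _ _ _ (h.sym1 _ _ _ hR)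
  have hb'B : b' ∈ B := h.inB _ _ _ (h.sym1 _ _ _ (h.sym2 _ _ _ hR))
  have h1 : R (t d b) (t b d) b' := by
    have := hcp.ap2 ht hR (h.sym1 _ _ _ hR)
    rwa [ht.idem] at this
  have hd1 : t d b ∈ D := (habs d hd b hbB).1
  have hd2 : t b d ∈ D := (habs d hd b hbB).2
  have h2 := hcp.ap2 ht h1 (h.sym2 _ _ _ h1)
  rw [ht.idem] at h2
  exact h.sub_eq hDB hD h.toBad ⟨_, hd1, _, (habs _ hd2 _ hb'B).1, _, (habs _ hd2 _ hb'B).2, h2⟩

/-- Let `Q` be compatible, `Q(a) ∩ B ≠ ∅` for `a ∈ B`, and `c ∈ B` with `Q(c) ⊇ B` and `R c c y` for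
some `y`. Then `Q` is full on `B`.
Proof: `X := {a ∈ B | Q(a) ⊇ B}` is a subuniverse containing `c`.  Suppose `X ≠ B`.
By `sub_eq`, `y ∉ X`.  `D := Q(y) ∩ B ≠ B`, a nonempty subuniverse.
`Low := {a ∈ B | ∃ t, mem2 C t ∧ ∀ d ∈ D, ∀ b ∈ B, Q a (t d b) ∧ Q a (t b d)}` is a
subuniverse (apply `f` to the terms `t_i`; choose them).  Apply `q` to the rows `(y,c,c)`,
`(c,y,c)`, `(c,c,y)` of `R`: the row `(q y c c, q c y c, q c c y)` is in `R`, and all three entries are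
in `Low` with `t x z = q x z z`:
`q y c c`: `Q(q y c c) ⊇ q(D,B,B)`; `q d b b` and `q b d d = q d d b` are in it.
`q c c y`: `Q(..) ⊇ q(B,B,D)`; `q b d d` and `q d b b = q b b d` are in it.
`q c y c = p c y c`: `Q(..) ⊇ q(B,D,B) ∪ p(B,D,B)`; `q b d d` and `q d b b = p b d d` are in it.
By `sub_eq` `Low = B ∋ y`, so `D` is binary absorbing in `B`: contradiction to `noBA`. -/
theorem MinBad.center_full (P : KMM C) (h : MinBad C B R) {Q : V → V → Prop} (hQ : Compat2 C Q)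
    (hne : ∀ a ∈ B, ∃ b ∈ B, Q a b) {c y : V} (hc : c ∈ B) (hcQ : ∀ b ∈ B, Q c b)
    (hcy : R c c y) : ∀ a ∈ B, ∀ b ∈ B, Q a b := by
  have hcp : Compat3 C R := h.compat
  have hsB : Sub C B := h.sub
  have hyB : y ∈ B := h.inB _ _ _ (h.sym1 _ _ _ (h.sym2 _ _ _ hcy))
  have hXs : Sub C {a | a ∈ B ∧ ∀ b ∈ B, Q a b} := by
    intro ι f hf x hx
    refine ⟨h.sub f hf x (fun i => (hx i).1), fun b hb => ?_⟩
    have := hQ f hf x (fun _ => b) (fun i => (hx i).2 b hb)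
    rwa [C.idem f hf] at this
  by_contra hcon
  have hXne : {a | a ∈ B ∧ ∀ b ∈ B, Q a b} ≠ B := by
    intro heq
    apply hcon
    intro a ha
    rw [← heq] at ha
    exact ha.2
  have hyX : y ∉ {a | a ∈ B ∧ ∀ b ∈ B, Q a b} := by
    intro hy
    exact hXne (h.sub_eq (fun a ha => ha.1) hXs h.toBad ⟨c, ⟨hc, hcQ⟩, c, ⟨hc, hcQ⟩, y, hy, hcy⟩)
  set D : Set V := {b | b ∈ B ∧ Q y b} with hDdef
  have hDB : D ⊆ B := fun b hb => hb.1
  have hDne : D.Nonempty := by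
    obtain ⟨b, hb, hQb⟩ := hne y hyB
    exact ⟨b, hb, hQb⟩
  have hDs : Sub C D := by
    intro ι f hf x hx
    refine ⟨h.sub f hf x (fun i => (hx i).1), ?_⟩
    have := hQ f hf (fun _ => y) x (fun i => (hx i).2)
    rwa [C.idem f hf] at this
  have hDneB : D ≠ B := by
    intro heq
    apply hyX
    refine ⟨hyB, fun b hb => ?_⟩
    rw [← heq] at hb
    exact hb.2
  have hLs : Sub C {a | a ∈ B ∧ ∃ t : V → V → V, mem2 C t ∧ ∀ d ∈ D, ∀ b ∈ B,
      Q a (t d b) ∧ Q a (t b d)} := by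
    intro ι f hf x hx
    choose hxB t ht hxt using hx
    refine ⟨h.sub f hf x hxB, fun a b => f (fun i => t i a b), C.comp f _ hf ht, ?_⟩
    intro d hd b hb
    exact ⟨hQ f hf x (fun i => t i d b) (fun i => (hxt i d hd b hb).1),
      hQ f hf x (fun i => t i b d) (fun i => (hxt i d hd b hb).2)⟩
  have htm : mem2 C (fun x z => P.q x z z) :=
    mem3.comp2 P.hq (mem2_fst C) (mem2_snd C) (mem2_snd C)
  have hrow : R (P.q y c c) (P.q c y c) (P.q c c y) :=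
    hcp.ap3 P.hq (h.sym1 _ _ _ (h.sym2 _ _ _ hcy)) (h.sym2 _ _ _ hcy) hcy
  have hL := h.sub_eq (fun a ha => ha.1) hLs h.toBad ⟨P.q y c c, ?_, P.q c y c, ?_, P.q c c y, ?_,
    hrow⟩
  · have hyL := hyB
    rw [← hL] at hyL
    obtain ⟨_, t, ht, hyt⟩ := hyL
    refine hDneB (h.noBA D hDB hDne hDs ⟨t, ht, fun d hd b hb => ⟨⟨?_, (hyt d hd b hb).1⟩,
      ⟨?_, (hyt d hd b hb).2⟩⟩⟩)
    · exact hsB.ap2 ht (hDB hd) hb
    · exact hsB.ap2 ht hb (hDB hd)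
  · refine ⟨hsB.ap3 P.hq hyB hc hc, _, htm, fun d hd b hb => ⟨?_, ?_⟩⟩
    · exact hQ.ap3 P.hq hd.2 (hcQ b hb) (hcQ b hb)
    · show Q (P.q y c c) (P.q b d d)
      rw [P.h2 d b]
      exact hQ.ap3 P.hq hd.2 (hcQ d hd.1) (hcQ b hb)
  · refine ⟨hsB.ap3 P.hq hc hyB hc, _, htm, fun d hd b hb => ⟨?_, ?_⟩⟩
    · show Q (P.q c y c) (P.q d b b)
      rw [← P.h3 c y, ← P.h1 b d]
      exact hQ.ap3 P.hp (hcQ b hb) hd.2 (hcQ d hd.1)
    · exact hQ.ap3 P.hq (hcQ b hb) hd.2 (hcQ d hd.1)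
  · refine ⟨hsB.ap3 P.hq hc hc hyB, _, htm, fun d hd b hb => ⟨?_, ?_⟩⟩
    · show Q (P.q c c y) (P.q d b b)
      rw [P.h2 b d]
      exact hQ.ap3 P.hq (hcQ b hb) (hcQ b hb) hd.2
    · exact hQ.ap3 P.hq (hcQ b hb) (hcQ d hd.1) hd.2

/-- `E a b := ∃ c, R a b c` is full on `B`.
Proof: `E` is symmetric, compatible, and has a closed walk of length `3` (`a,b,c` for `R a b c`), so by
`loop_lemma` there is `l ∈ B` with `R l l m`.  `E(l)` is a subuniverse containing `l, l, m`, so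
`E(l) = B` (`sub_eq`).  So `center_full` with `Q = E`, `c = l` applies. -/
theorem MinBad.full (P : KMM C) (h : MinBad C B R) {a b : V} (ha : a ∈ B) (hb : b ∈ B) :
    ∃ c, R a b c := by
  have hE : Compat2 C (fun a b => ∃ c, R a b c) := by
    intro ι f hf x y hxy
    choose z hz using hxy
    exact ⟨f z, h.compat f hf x y z hz⟩
  have hproj : ∀ a ∈ B, ∃ b ∈ B, ∃ c, R a b c := by
    intro a ha
    obtain ⟨b, c, hR⟩ := h.proj ha
    exact ⟨b, h.inB _ _ _ (h.sym1 _ _ _ hR), c, hR⟩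
  obtain ⟨x, y, z, hR⟩ := h.ne
  have hxB := h.inB _ _ _ hR
  have hyB := h.inB _ _ _ (h.sym1 _ _ _ hR)
  have hzB := h.inB _ _ _ (h.sym1 _ _ _ (h.sym2 _ _ _ hR))
  obtain ⟨l, hl, m, hlm⟩ := loop_lemma C P B h.sub (fun a b => ∃ c, R a b c) hE
    (fun a b ⟨c, hc⟩ => ⟨c, h.sym1 _ _ _ hc⟩)
    ⟨3, x, by decide, hxB, y, ⟨z, hR⟩, hyB, z, ⟨x, h.sym2 _ _ _ (h.sym1 _ _ _ hR)⟩, hzB, x,
      ⟨y, h.sym1 _ _ _ (h.sym2 _ _ _ hR)⟩, hxB, rfl⟩
  have hmB := h.inB _ _ _ (h.sym1 _ _ _ (h.sym2 _ _ _ hlm))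
  have hls : Sub C {x | ∃ c, R l x c} := by
    intro ι f hf x hx
    choose z hz using hx
    refine ⟨f z, ?_⟩
    have := h.compat f hf (fun _ => l) x z hz
    rwa [C.idem f hf] at this
  have hlB : {x | ∃ c, R l x c} = B := by
    refine h.sub_eq ?_ hls h.toBad ⟨l, ⟨m, hlm⟩, l, ⟨m, hlm⟩, m, ⟨l, h.sym2 _ _ _ hlm⟩, hlm⟩
    rintro x ⟨c, hc⟩
    exact h.inB _ _ _ (h.sym1 _ _ _ hc)
  refine h.center_full P hE hproj (c := l) (y := m) hl ?_ hlm a ha b hb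
  intro b hb
  rw [← hlB] at hb
  exact hb

/-- `center_full` + `full` -/
theorem MinBad.noCenter (P : KMM C) (h : MinBad C B R) : NoCenter C B := by
  intro Q hQ hne ⟨c, hc, hcQ⟩
  obtain ⟨y, hy⟩ := h.full P hc hc
  exact h.center_full P hQ hne hc hcQ hy

end KMMTree
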