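import Pool.Agent.H24.KMM.Defs

/-!
# Module MOUNTAIN: the discrete mountain climbing lemma

Proof (handshake). If `m = 0` then `a = b`, and then `n = 0` (steps are `±1` and `g` stays in
`[a,a]`).  Otherwise `a < b`, `m, n ≥ 1`.  Let `S` be the graph on `Fin (m+1) × Fin (n+1)` in which
`(i,j) ~ (i',j')` iff `f i = g j`, `f i' = g j'`, `|i-i'| = 1`, `|j-j'| = 1`.  For a vertex `(i,j)`
with `f i = g j` the degree is `U U' + D D'`, where `U, D` = number of neighbours of `i` on which `f`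
is one higher / one lower, and `U', D'` the same for `g` at `j`.  For `0 < i < m` we have `U + D = 2`,
for `i = 0`: `U = 1, D = 0` (as `f ≥ a`), for `i = m`: `U = 0, D = 1`.  Hence the degree is even
except at `(0,0)` and `(m,n)`: (interior, interior): `U U' + D D' ≡ 2 U U'`; `i = 0`, `j` interior:
`g j = a`, so `U' = 2`, `D' = 0`; etc.  (`(0,n)`, `(m,0)` are no vertices since `a < b`.)
Restrict the graph to the component of `(0,0)` and use
`SimpleGraph.exists_ne_odd_degree_of_exists_odd_degree`: it contains another vertex of odd degree,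
which must be `(m,n)`.
-/

set_option autoImplicit false

namespace KMMTree

open Relation

theorem mt_two (x : ZMod 2) : x + x = 0 := CharTwo.add_self_eq_zero x

theorem mt_sum_adj (m i : ℕ) (hi : i ≤ m) (F : ℕ → ZMod 2) :
    (∑ x ∈ Finset.range (m + 1), if x = i + 1 ∨ i = x + 1 then F x else 0) =
      (if i + 1 ≤ m then F (i + 1) else 0) + (if 1 ≤ i then F (i - 1) else 0) := by
  have h1 : ∀ x ∈ Finset.range (m + 1), (if x = i + 1 ∨ i = x + 1 then F x else 0) =
      (if x = i + 1 then F x else 0) + (if i = x + 1 then F x else 0) := by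
    intro x _
    by_cases h : x = i + 1
    · have h' : ¬ i = x + 1 := by omega
      simp [h]
      intro h2; omega
    · by_cases h' : i = x + 1
      · rw [if_pos (Or.inr h'), if_neg h, if_pos h', zero_add]
      · rw [if_neg (by omega), if_neg h, if_neg h', zero_add]
  rw [Finset.sum_congr rfl h1, Finset.sum_add_distrib]
  congr 1
  · rw [Finset.sum_ite_eq' (Finset.range (m + 1)) (i + 1) F]
    simp only [Finset.mem_range, Nat.lt_succ_iff]
  · by_cases h : 1 ≤ i
    · rw [if_pos h, Finset.sum_eq_single (i - 1)]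
      · rw [if_pos (by omega)]
      · intro x _ hx
        rw [if_neg (by omega)]
      · intro hx
        exact absurd (Finset.mem_range.2 (by omega)) hx
    · rw [if_neg h]
      refine Finset.sum_eq_zero fun x _ => ?_
      rw [if_neg (by omega)]

/-- the number of neighbours, mod 2 -/
theorem mt_deg (f g : ℕ → ℤ) (m n i j : ℕ) (hi : i ≤ m) (hj : j ≤ n) :
    (∑ x ∈ Finset.range (m + 1), ∑ y ∈ Finset.range (n + 1),
      if (x = i + 1 ∨ i = x + 1) ∧ (y = j + 1 ∨ j = y + 1) ∧ f x = g y then (1 : ZMod 2) else 0) =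
    (if i + 1 ≤ m then ((if j + 1 ≤ n then (if f (i + 1) = g (j + 1) then 1 else 0) else 0) +
      (if 1 ≤ j then (if f (i + 1) = g (j - 1) then 1 else 0) else 0)) else 0) +
    (if 1 ≤ i then ((if j + 1 ≤ n then (if f (i - 1) = g (j + 1) then 1 else 0) else 0) +
      (if 1 ≤ j then (if f (i - 1) = g (j - 1) then 1 else 0) else 0)) else 0) := by
  have h1 : ∀ x, (∑ y ∈ Finset.range (n + 1),
      if (x = i + 1 ∨ i = x + 1) ∧ (y = j + 1 ∨ j = y + 1) ∧ f x = g y then (1 : ZMod 2) else 0) =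
      if x = i + 1 ∨ i = x + 1 then
        ((if j + 1 ≤ n then (if f x = g (j + 1) then (1 : ZMod 2) else 0) else 0) +
        (if 1 ≤ j then (if f x = g (j - 1) then 1 else 0) else 0)) else 0 := by
    intro x
    by_cases hx : x = i + 1 ∨ i = x + 1
    · rw [if_pos hx, ← mt_sum_adj n j hj (fun y => if f x = g y then (1 : ZMod 2) else 0)]
      refine Finset.sum_congr rfl fun y _ => ?_
      by_cases hy : y = j + 1 ∨ j = y + 1
      · simp [hx, hy]
      · simp [hy]
    · rw [if_neg hx]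
      refine Finset.sum_eq_zero fun y _ => ?_
      rw [if_neg fun h => hx h.1]
  simp only [h1]
  rw [mt_sum_adj m i hi]

theorem mountain (f g : ℕ → ℤ) (m n : ℕ) (a b : ℤ)
    (hf : ∀ i < m, f (i + 1) = f i + 1 ∨ f (i + 1) = f i - 1)
    (hg : ∀ j < n, g (j + 1) = g j + 1 ∨ g (j + 1) = g j - 1)
    (f0 : f 0 = a) (g0 : g 0 = a) (fm : f m = b) (gn : g n = b)
    (hfb : ∀ i ≤ m, a ≤ f i ∧ f i ≤ b) (hgb : ∀ j ≤ n, a ≤ g j ∧ g j ≤ b) :
    ReflTransGen (fun p q : ℕ × ℕ => p.1 ≤ m ∧ p.2 ≤ n ∧ q.1 ≤ m ∧ q.2 ≤ n ∧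
      f p.1 = g p.2 ∧ f q.1 = g q.2 ∧ (q.1 = p.1 + 1 ∨ p.1 = q.1 + 1) ∧
      (q.2 = p.2 + 1 ∨ p.2 = q.2 + 1)) (0, 0) (m, n) := by
  classical
  set R : ℕ × ℕ → ℕ × ℕ → Prop := fun p q : ℕ × ℕ => p.1 ≤ m ∧ p.2 ≤ n ∧ q.1 ≤ m ∧ q.2 ≤ n ∧
      f p.1 = g p.2 ∧ f q.1 = g q.2 ∧ (q.1 = p.1 + 1 ∨ p.1 = q.1 + 1) ∧
      (q.2 = p.2 + 1 ∨ p.2 = q.2 + 1) with hR
  rcases Nat.eq_zero_or_pos m with hm | hm
  · -- m = 0
    have hab : a = b := by rw [← f0, ← fm, hm]
    rcases Nat.eq_zero_or_pos n with hn | hn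
    · rw [hm, hn]
    · exfalso
      have h1 := hg 0 hn
      have h2 := hgb 1 hn
      rw [zero_add] at h1
      omega
  have hab : a < b := by
    have h1 := hf 0 hm
    have h2 := hfb 1 hm
    rw [zero_add] at h1
    omega
  have hn : 0 < n := by
    rcases Nat.eq_zero_or_pos n with hn | hn
    · exfalso
      rw [hn] at gn
      omega
    · exact hn
  by_contra hcon
  have hsymm : ∀ p q, R p q → R q p := by
    rintro p q ⟨h1, h2, h3, h4, h5, h6, h7, h8⟩
    exact ⟨h3, h4, h1, h2, h6, h5, h7.symm, h8.symm⟩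
  have hval : ∀ p, ReflTransGen R (0, 0) p → p.1 ≤ m ∧ p.2 ≤ n ∧ f p.1 = g p.2 := by
    intro p hp
    rcases ReflTransGen.cases_tail hp with h | ⟨q, _, h⟩
    · rw [h]
      exact ⟨Nat.zero_le _, Nat.zero_le _, by rw [f0, g0]⟩
    · exact ⟨h.2.2.1, h.2.2.2.1, h.2.2.2.2.2.1⟩
  let W : ℕ × ℕ → ℕ × ℕ → ZMod 2 := fun p q => if ReflTransGen R (0, 0) p ∧ R p q then 1 else 0
  have hWsymm : ∀ p q, W p q = W q p := by
    intro p q
    have : (ReflTransGen R (0, 0) p ∧ R p q) ↔ (ReflTransGen R (0, 0) q ∧ R q p) :=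
      ⟨fun h => ⟨h.1.tail h.2, hsymm _ _ h.2⟩, fun h => ⟨h.1.tail h.2, hsymm _ _ h.2⟩⟩
    simp only [W, this]
  have hWirr : ∀ p, W p p = 0 := by
    intro p
    simp only [W]
    rw [if_neg]
    rintro ⟨_, h⟩
    have := h.2.2.2.2.2.2.1
    omega
  let s : Finset (ℕ × ℕ) := Finset.range (m + 1) ×ˢ Finset.range (n + 1)
  have htot : ∑ x ∈ s ×ˢ s, W x.1 x.2 = 0 := by
    refine Finset.sum_involution (fun x _ => x.swap) ?_ ?_ ?_ ?_
    · rintro ⟨p, q⟩ _
      change W p q + W q p = 0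
      rw [hWsymm q p, mt_two]
    · rintro ⟨p, q⟩ _ hne heq
      apply hne
      have : q = p := congrArg Prod.fst heq
      rw [this]
      exact hWirr p
    · rintro ⟨p, q⟩ h
      rw [Finset.mem_product] at h ⊢
      exact ⟨h.2, h.1⟩
    · rintro ⟨p, q⟩ _
      rfl
  rw [Finset.sum_product] at htot
  have hdeg : ∀ p ∈ s, ReflTransGen R (0, 0) p → ∑ q ∈ s, W p q =
      (if p.1 + 1 ≤ m then ((if p.2 + 1 ≤ n then (if f (p.1 + 1) = g (p.2 + 1) then 1 else 0)
        else 0) + (if 1 ≤ p.2 then (if f (p.1 + 1) = g (p.2 - 1) then 1 else 0) else 0)) else 0) +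
      (if 1 ≤ p.1 then ((if p.2 + 1 ≤ n then (if f (p.1 - 1) = g (p.2 + 1) then 1 else 0)
        else 0) + (if 1 ≤ p.2 then (if f (p.1 - 1) = g (p.2 - 1) then 1 else 0) else 0)) else 0) := by
    intro p _ hp
    obtain ⟨h1, h2, h3⟩ := hval p hp
    rw [← mt_deg f g m n p.1 p.2 h1 h2, Finset.sum_product]
    refine Finset.sum_congr rfl fun x hx => Finset.sum_congr rfl fun y hy => ?_
    have hx' : x ≤ m := Nat.lt_succ_iff.1 (Finset.mem_range.1 hx)
    have hy' : y ≤ n := Nat.lt_succ_iff.1 (Finset.mem_range.1 hy)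
    simp only [W]
    refine if_congr ⟨?_, ?_⟩ rfl rfl
    · rintro ⟨_, h⟩
      exact ⟨h.2.2.2.2.2.2.1, h.2.2.2.2.2.2.2, h.2.2.2.2.2.1⟩
    · rintro ⟨h4, h5, h6⟩
      exact ⟨hp, h1, h2, hx', hy', h3, h6, h4, h5⟩
  have h00 : ((0, 0) : ℕ × ℕ) ∈ s := by simp [s]
  have hD0 : ∑ q ∈ s, W (0, 0) q = 1 := by
    rw [hdeg _ h00 ReflTransGen.refl]
    have h1 := hf 0 hm
    have h2 := hfb 1 hm
    have h3 := hg 0 hn
    have h4 := hgb 1 hn
    rw [zero_add] at h1 h3
    have h5 : f 1 = g 1 := by omega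
    have hm' : 1 ≤ m := hm
    have hn' : 1 ≤ n := hn
    simp [hm', hn', h5]
  have hD : ∀ p ∈ s, p ≠ (0, 0) → ∑ q ∈ s, W p q = 0 := by
    intro p hps hp0
    by_cases hp : ReflTransGen R (0, 0) p
    · rw [hdeg p hps hp]
      obtain ⟨h1, h2, h3⟩ := hval p hp
      have hpmn : p ≠ (m, n) := fun h => hcon (h ▸ hp)
      obtain ⟨i, j⟩ := p
      simp only at h1 h2 h3 ⊢
      have hne0 : ¬ (i = 0 ∧ j = 0) := fun h => hp0 (by rw [h.1, h.2])
      have hne1 : ¬ (i = m ∧ j = n) := fun h => hpmn (by rw [h.1, h.2])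
      have hii := hfb i h1
      have hjj := hgb j h2
      have hi0 : i = 0 → f i = a := fun h => by rw [h, f0]
      have him : i = m → f i = b := fun h => by rw [h, fm]
      have hj0 : j = 0 → g j = a := fun h => by rw [h, g0]
      have hjn : j = n → g j = b := fun h => by rw [h, gn]
      have hup : i + 1 ≤ m → (f (i + 1) = f i + 1 ∨ f (i + 1) = f i - 1) ∧ a ≤ f (i + 1) ∧
        f (i + 1) ≤ b := fun h => ⟨hf i h, hfb _ h⟩
      have hdn : 1 ≤ i → (f (i - 1) = f i + 1 ∨ f (i - 1) = f i - 1) ∧ a ≤ f (i - 1) ∧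
          f (i - 1) ≤ b := by
        intro h
        have h4 := hf (i - 1) (by omega)
        rw [Nat.sub_add_cancel h] at h4
        refine ⟨by omega, hfb _ (by omega)⟩
      have gup : j + 1 ≤ n → (g (j + 1) = g j + 1 ∨ g (j + 1) = g j - 1) ∧ a ≤ g (j + 1) ∧
        g (j + 1) ≤ b := fun h => ⟨hg j h, hgb _ h⟩
      have gdn : 1 ≤ j → (g (j - 1) = g j + 1 ∨ g (j - 1) = g j - 1) ∧ a ≤ g (j - 1) ∧
          g (j - 1) ≤ b := by
        intro h
        have h4 := hg (j - 1) (by omega)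
        rw [Nat.sub_add_cancel h] at h4
        refine ⟨by omega, hgb _ (by omega)⟩
      generalize f (i + 1) = u1 at *
      generalize f (i - 1) = u2 at *
      generalize g (j + 1) = v1 at *
      generalize g (j - 1) = v2 at *
      generalize f i = u at *
      generalize g j = v at *
      split_ifs <;> first | omega | decide
    · refine Finset.sum_eq_zero fun q _ => ?_
      simp only [W]
      rw [if_neg fun h => hp h.1]
  rw [Finset.sum_eq_single_of_mem (0, 0) h00 hD, hD0] at htot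
  exact one_ne_zero htot

end KMMTree
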