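import Pool.Agent.H24.KMM.Sync
import Pool.Agent.H24.KMM.Graph

/-!
# Module STARCASE: the main step of the tree lemma

`E` is an acyclic digraph with level function `lam`.  `z` separates `u` and `w`; `s` is an
idempotent binary polymorphism with `s z u = w`.

## Proof of `star_case`

All pairs `(x,y)` in the component of `(z,u)` have `lam x = lam y` (hypothesis `hlev` + `level_diff`)
and then `lam (s x y) = lam x` (apply `Cn.map` with `(x,y) ↦ (x, s x y)`; `s` maps `Adj2`-steps from
`(x,y)` to `Adj2`-steps from `(x, s x y)`, and `lam (s z u) = lam w = lam z`).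

1. By `exists_path` applied to `H1` take an injective path `p 0 = z, …, p N = u` inside
`Band l h`.  By `H2` some `p i` has level `h`.  Let `i1` / `i2` be the first / last index with level
`h`; `0 < i1 ≤ i2 < N` (as `lam z = lam u < h`).  Put `β = p i2`, `β' = p (i2+1)` (level `h-1`).
2. `xl ~ z ~ p (i1-1)` and `yl ~ u ~ β'` inside `Band l (h-1)`.  So by `sync_up`
`(xl,yl) ~ (p (i1-1), β')` in `Band2 l (h-1)`, so `(z,u) ~ (p (i1-1), β')` in `Band2 l (h-1)`, and
there is an `Adj2`-step to `(p i1, β)`.
3. Apply `s`: `w ~ s (p (i1-1)) β'` inside `Band l (h-1)`; this walk avoids `z` because of `H3`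
(`Cn.reach`: every vertex of it is connected to `w` inside `Band l (h-1)`).  Then a step to
`W i1 := s (p i1) β`, which has level `h`, so `≠ z`.  So `Conn (≠ z) w (W i1)`.
4. For consecutive indices `i < i' ≤ i2` of level `h` on the path (all levels strictly between are
`< h`), `fold` with band `[l, h-1]` (`x = p (i+1)`, `x' = p (i'-1)`, `b = β'`, `y = yl`) gives
`(p (i+1), β') ~ (p (i'-1), β')` in `Band2 l (h-1)`.  Apply `s`: `W i → s (p (i+1)) β' ~
s (p (i'-1)) β' → W i'`, interior levels `≤ h-1`.
5. Claim: for every index `i ≤ i2` of level `h`: `¬ Conn (≠ p i) z (W i)` (every walk from `z` to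
`W i` passes `p i`).  Downward induction.  `i = i2`: `W i2 = β = p i2` by idempotence.
Step: let `i < i'` be consecutive and `Conn (≠ p i) z (W i)`.
If `W i' ≠ p i`: then by 4 (interior levels `< h`) `Conn (≠ p i) z (W i')`.  With
`Q := fun v => Conn (≠ p i) z v`, `Conn Q z (W i')` (`Cn.reach`) so, by the claim for `i'`,
`Q (p i')`, i.e. `Conn (≠ p i) (p 0) (p i')`, contradicting `path_sep`.
If `W i' = p i`: the path gives `Conn (≠ p i') z (p i)`, contradicting the claim for `i'`.
6. So every walk from `z` to `W i1` passes `p i1`.  `z` and `w` are connected in the graph: take an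
injective path `z = q 0, q 1, …, q M = w`; then `Conn (≠ z) (q 1) w`, so with
`Q v := v = z ∨ Conn (≠ z) w v` we get `Conn Q z (W i1)`, so `Q (p i1)`, so
`Conn (≠ z) w (p i1)` (`p i1 ≠ z` by levels), and `Conn (≠ z) (p i1) u` by the path `p`.
Contradiction to `hsep`.

-/

set_option autoImplicit false

namespace KMMTree

open Relation

variable {V : Type}

/-- `s` maps steps of the square to steps -/
theorem starCase_step {E : V → V → Prop} {s : V → V → V} (hs : Poly2 E s) {p q : V × V}
    (h : Adj2 E p q) : Adj E (s p.1 p.2) (s q.1 q.2) := by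
  rcases h with h | h
  · exact Or.inl (hs _ _ _ _ h.1 h.2)
  · exact Or.inr (hs _ _ _ _ h.1 h.2)

/-- the level of `s x y` is the level of `x` along a walk in the square -/
theorem starCase_level {E : V → V → Prop} {lam : V → ℤ} (hl : IsLevel E lam) {s : V → V → V}
    (hs : Poly2 E s) {Q : V × V → Prop} {p q : V × V} (h : Conn2 E Q p q)
    (h0 : lam (s p.1 p.2) = lam p.1) : lam (s q.1 q.2) = lam q.1 := by
  refine h.induct (P := fun q => lam (s q.1 q.2) = lam q.1) h0 ?_
  intro a b _ h2 h3 _
  rcases h3 with h3 | h3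
  · have h4 := hl _ _ (hs _ _ _ _ h3.1 h3.2)
    have h5 := hl _ _ h3.1
    change lam (s b.1 b.2) = lam b.1
    omega
  · have h4 := hl _ _ (hs _ _ _ _ h3.1 h3.2)
    have h5 := hl _ _ h3.1
    change lam (s b.1 b.2) = lam b.1
    omega

/-- `s` maps walks of the square to walks -/
theorem starCase_map {E : V → V → Prop} {lam : V → ℤ} (hl : IsLevel E lam) {s : V → V → V}
    (hs : Poly2 E s) {l h : ℤ} {p q : V × V} (c : Conn2 E (Band2 lam l h) p q)
    (h0 : lam (s p.1 p.2) = lam p.1) : Conn E (Band lam l h) (s p.1 p.2) (s q.1 q.2) := by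
  refine Cn.map (fun p => s p.1 p.2) c ?_ ?_
  · intro a b _ h2 _
    exact starCase_step hs h2
  · intro a h1
    have h2 := starCase_level hl hs h1 h0
    have h3 := h1.right
    exact ⟨by rw [h2]; exact h3.2.1, by rw [h2]; exact h3.2.2⟩

theorem star_case (E : V → V → Prop) (lam : V → ℤ) (hl : IsLevel E lam)
    (hac : (SimpleGraph.fromRel E).IsAcyclic) (z u w : V) (s : V → V → V)
    (hs : Poly2 E s) (hsi : ∀ a, s a a = a) (hw : s z u = w)
    (hzu : lam z = lam u) (hzw : lam z = lam w)
    (hsep : ¬ Conn E (fun v => v ≠ z) u w) (hwz : w ≠ z) (huz : u ≠ z)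
    (hconn : Conn E (fun _ => True) z w)
    (l h : ℤ) (hh : lam z ≤ h - 1)
    (H1 : Conn E (Band lam l h) z u)
    (H2 : ¬ Conn E (Band lam l (h - 1)) z u)
    (H3 : ¬ Conn E (Band lam l (h - 1)) z w)
    (H4 : ∃ q : V × V, Conn2 E (Band2 lam l (h - 1)) (z, u) q ∧ lam q.1 = l) : False := by
  obtain ⟨N, p, hp0, hpN, hps, hpQ, hpi⟩ := exists_path E H1
  -- some index has level `h`
  have hex : ∃ i, i ≤ N ∧ lam (p i) = h := by
    by_contra hno
    apply H2
    have h1 : Conn E (Band lam l (h - 1)) (p 0) (p N) := by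
      refine Cn.of_seq' (Nat.zero_le N) (fun k _ hk => hps k hk) ?_
      intro k _ hk
      have h2 := hpQ k hk
      have h3 : lam (p k) ≠ h := fun h3 => hno ⟨k, hk, h3⟩
      refine ⟨h2.1, ?_⟩
      have h4 := h2.2
      omega
    rw [hp0, hpN] at h1
    exact h1
  classical
  -- first index
  obtain ⟨i1, ⟨hi1N, hi1h⟩, hi1min⟩ : ∃ i1, (i1 ≤ N ∧ lam (p i1) = h) ∧
      ∀ i, i < i1 → ¬ (i ≤ N ∧ lam (p i) = h) :=
    ⟨Nat.find hex, Nat.find_spec hex, fun i hi => Nat.find_min hex hi⟩
  -- last index
  obtain ⟨i2, hi2N, hi2h, hi2max⟩ : ∃ i2, i2 ≤ N ∧ lam (p i2) = h ∧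
      ∀ i, i2 < i → i ≤ N → lam (p i) ≠ h := by
    refine ⟨Nat.findGreatest (fun i => lam (p i) = h) N, Nat.findGreatest_le N, ?_, ?_⟩
    · exact Nat.findGreatest_spec (P := fun i => lam (p i) = h) hi1N hi1h
    · intro i h1 h2 h3
      exact absurd (Nat.le_findGreatest h2 h3) (not_le.mpr h1)
  have hi12 : i1 ≤ i2 := by
    by_contra h1
    exact hi2max i1 (by omega) hi1N hi1h
  have hle : ∀ i, i ≤ N → lam (p i) ≤ h := fun i hi => (hpQ i hi).2
  have hge : ∀ i, i ≤ N → l ≤ lam (p i) := fun i hi => (hpQ i hi).1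
  have hi1pos : 0 < i1 := by
    rcases Nat.eq_zero_or_pos i1 with h1 | h1
    · rw [h1, hp0] at hi1h
      omega
    · exact h1
  have hi2lt : i2 < N := by
    rcases Nat.lt_or_ge i2 N with h1 | h1
    · exact h1
    · have h2 : i2 = N := le_antisymm hi2N h1
      rw [h2, hpN] at hi2h
      omega
  obtain ⟨j1, rfl⟩ : ∃ j1, i1 = j1 + 1 := ⟨i1 - 1, by omega⟩
  have hj1 : lam (p j1) = h - 1 := by
    have h1 := level_adj hl (hps j1 (by omega))
    have h2 := hle j1 (by omega)
    have h3 := hi1min j1 (by omega)
    have h4 : lam (p j1) ≠ h := fun h4 => h3 ⟨by omega, h4⟩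
    omega
  have hβ' : lam (p (i2 + 1)) = h - 1 := by
    have h1 := level_adj hl (hps i2 hi2lt)
    have h2 := hle (i2 + 1) (by omega)
    omega
  obtain ⟨⟨xl, yl⟩, c4, hxl⟩ := H4
  change lam xl = l at hxl
  have hyl : lam yl = l := by
    have h1 := c4.right.1
    change lam xl = lam yl at h1
    omega
  have cx : Conn E (Band lam l (h - 1)) z xl := by
    refine Cn.map (P := Band lam l (h - 1)) Prod.fst c4 ?_ ?_
    · intro a b _ h2 _
      rcases h2 with h2 | h2
      · exact Or.inl h2.1
      · exact Or.inr h2.1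
    · intro a h1
      exact h1.right.2
  have cy : Conn E (Band lam l (h - 1)) u yl := by
    refine Cn.map (P := Band lam l (h - 1)) Prod.snd c4 ?_ ?_
    · intro a b _ h2 _
      rcases h2 with h2 | h2
      · exact Or.inl h2.2
      · exact Or.inr h2.2
    · intro a h1
      have h2 := h1.right
      exact ⟨by rw [← h2.1]; exact h2.2.1, by rw [← h2.1]; exact h2.2.2⟩
  -- the path up to `i1 - 1`
  have cz1 : Conn E (Band lam l (h - 1)) z (p j1) := by
    rw [← hp0]
    refine Cn.of_seq' (Nat.zero_le j1) (fun k _ hk => hps k (by omega)) ?_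
    intro k _ hk
    refine ⟨hge k (by omega), ?_⟩
    have h2 := hle k (by omega)
    have h4 : lam (p k) ≠ h := fun h4 => hi1min k (by omega) ⟨by omega, h4⟩
    omega
  have cu2 : Conn E (Band lam l (h - 1)) (p (i2 + 1)) u := by
    rw [← hpN]
    refine Cn.of_seq' (by omega) (fun k _ hk => hps k (by omega)) ?_
    intro k hk1 hk
    refine ⟨hge k (by omega), ?_⟩
    have h2 := hle k (by omega)
    have h4 := hi2max k (by omega) hk
    omega
  have cβy : Conn E (Band lam l (h - 1)) (p (i2 + 1)) yl := cu2.trans cy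
  have c2 : Conn2 E (Band2 lam l (h - 1)) (z, u) (p j1, p (i2 + 1)) :=
    c4.trans (sync_up hl hxl hyl hj1 hβ' ((cx.symm adj_symm).trans cz1) (cβy.symm adj_symm))
  have hszu : lam (s z u) = lam z := by rw [hw]; exact hzw.symm
  -- step 3
  have c3 : Conn E (Band lam l (h - 1)) w (s (p j1) (p (i2 + 1))) := by
    have h1 := starCase_map hl hs c2 hszu
    change Conn E (Band lam l (h - 1)) (s z u) (s (p j1) (p (i2 + 1))) at h1
    rw [hw] at h1
    exact h1
  have hlev1 : lam (s (p j1) (p (i2 + 1))) = h - 1 := by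
    have h1 := starCase_level hl hs c2 hszu
    change lam (s (p j1) (p (i2 + 1))) = lam (p j1) at h1
    rw [h1, hj1]
  have hstep1 : Adj2 E (p j1, p (i2 + 1)) (p (j1 + 1), p i2) :=
    adj2_of_level hl (hps j1 (by omega)) (adj_symm _ _ (hps i2 hi2lt)) (by rw [hj1, hβ'])
      (by rw [hi1h, hi2h])
  have hadj1 : Adj E (s (p j1) (p (i2 + 1))) (s (p (j1 + 1)) (p i2)) := starCase_step hs hstep1
  -- step 5
  have claim : ∀ d i, i + d = i2 → lam (p i) = h →
      lam (s (p i) (p i2)) = h ∧ ¬ Conn E (fun v => v ≠ p i) z (s (p i) (p i2)) := by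
    intro d
    induction d using Nat.strong_induction_on with
    | _ d ih =>
      intro i hid hih
      rcases Nat.eq_zero_or_pos d with hd | hd
      · have h1 : i = i2 := by omega
        subst h1
        rw [hsi]
        exact ⟨hih, fun h2 => h2.right rfl⟩
      · -- next index
        have hex' : ∃ k, i < k ∧ k ≤ i2 ∧ lam (p k) = h := ⟨i2, by omega, le_rfl, hi2h⟩
        obtain ⟨i', ⟨hii', hi'2, hi'h⟩, hmin⟩ : ∃ i', (i < i' ∧ i' ≤ i2 ∧ lam (p i') = h) ∧
            ∀ k, k < i' → ¬ (i < k ∧ k ≤ i2 ∧ lam (p k) = h) :=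
          ⟨Nat.find hex', Nat.find_spec hex', fun k hk => Nat.find_min hex' hk⟩
        obtain ⟨j', rfl⟩ : ∃ j', i' = j' + 1 := ⟨i' - 1, by omega⟩
        have hA : lam (p (i + 1)) = h - 1 := by
          have h1 := level_adj hl (hps i (by omega))
          have h2 := hle (i + 1) (by omega)
          omega
        have hB : lam (p j') = h - 1 := by
          have h1 := level_adj hl (hps j' (by omega))
          have h2 := hle j' (by omega)
          omega
        have hij : i + 1 ≤ j' := by
          by_contra h1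
          have h2 : i = j' := by omega
          subst h2
          omega
        have cin : Conn E (Band lam l (h - 1)) (p (i + 1)) (p j') := by
          refine Cn.of_seq' hij (fun k _ hk => hps k (by omega)) ?_
          intro k hk1 hk
          refine ⟨hge k (by omega), ?_⟩
          have h2 := hle k (by omega)
          have h4 : lam (p k) ≠ h := fun h4 => hmin k (by omega) ⟨by omega, by omega, h4⟩
          omega
        have cf := fold hl hA hB hβ' hyl cin cβy
        obtain ⟨hW', hno'⟩ := ih (i2 - (j' + 1)) (by omega) (j' + 1) (by omega) hi'h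
        have hst' : Adj2 E (p j', p (i2 + 1)) (p (j' + 1), p i2) :=
          adj2_of_level hl (hps j' (by omega)) (adj_symm _ _ (hps i2 hi2lt)) (by rw [hB, hβ'])
            (by rw [hi'h, hi2h])
        have hst : Adj2 E (p i, p i2) (p (i + 1), p (i2 + 1)) :=
          adj2_of_level hl (hps i (by omega)) (hps i2 hi2lt) (by rw [hih, hi2h])
            (by rw [hA, hβ'])
        have ha' : Adj E (s (p j') (p (i2 + 1))) (s (p (j' + 1)) (p i2)) := starCase_step hs hst'
        have ha : Adj E (s (p i) (p i2)) (s (p (i + 1)) (p (i2 + 1))) := starCase_step hs hst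
        have hl2 : lam (s (p (i + 1)) (p (i2 + 1))) = lam (p (i + 1)) := by
          have h1 : Conn2 E (fun _ => True) (p (j' + 1), p i2) (p (i + 1), p (i2 + 1)) := by
            refine Cn.head trivial (adj2_symm _ _ hst') ?_
            exact (cf.symm adj2_symm).mono (fun _ _ => trivial)
          have h2 := starCase_level hl hs h1 (by
            change lam (s (p (j' + 1)) (p i2)) = lam (p (j' + 1))
            rw [hW', hi'h])
          exact h2
        have hW : lam (s (p i) (p i2)) = h := by
          have h1 : Conn2 E (fun _ => True) (p (i + 1), p (i2 + 1)) (p i, p i2) :=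
            Cn.single trivial (adj2_symm _ _ hst) trivial
          have h2 := starCase_level hl hs h1 hl2
          change lam (s (p i) (p i2)) = lam (p i) at h2
          rw [h2, hih]
        refine ⟨hW, ?_⟩
        intro hcon
        by_cases hW'i : s (p (j' + 1)) (p i2) = p i
        · apply hno'
          rw [hW'i, ← hp0]
          refine Cn.of_seq' (Nat.zero_le i) (fun k _ hk => hps k (by omega)) ?_
          intro k _ hk h1
          have h2 := hpi k (j' + 1) (by omega) (by omega) h1
          omega
        · have cmid := starCase_map hl hs cf hl2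
          change Conn E (Band lam l (h - 1)) (s (p (i + 1)) (p (i2 + 1)))
            (s (p j') (p (i2 + 1))) at cmid
          have cmid' : Conn E (fun v => v ≠ p i) (s (p (i + 1)) (p (i2 + 1)))
              (s (p j') (p (i2 + 1))) := by
            refine cmid.mono ?_
            intro v hv h1
            have h2 := hv.2
            rw [h1, hih] at h2
            omega
          have c5 : Conn E (fun v => v ≠ p i) z (s (p (j' + 1)) (p i2)) :=
            (hcon.trans (Cn.head hcon.right ha cmid')).tail ha' hW'i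
          have hQ : Conn E (fun v => v ≠ p i) z (p (j' + 1)) := by
            by_contra hnQ
            apply hno'
            refine c5.reach.mono ?_
            intro v hv h1
            rw [h1] at hv
            exact hnQ hv
          have h6 := path_sep E hac hps hpi (i := i) (j := j' + 1) (by omega) (by omega)
            (Q := fun v => v ≠ p i) (by rw [hp0]; exact hQ)
          exact h6 rfl
  obtain ⟨hW1, hno1⟩ := claim (i2 - (j1 + 1)) (j1 + 1) (by omega) hi1h
  -- `w ~ W i1` avoiding `z`
  have cw1 : Conn E (fun v => v ≠ z) w (s (p (j1 + 1)) (p i2)) := by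
    refine Cn.tail (y := s (p j1) (p (i2 + 1))) ?_ hadj1 ?_
    · refine c3.reach.mono ?_
      intro v hv h1
      rw [h1] at hv
      exact H3 (hv.symm adj_symm)
    · intro h1
      rw [h1] at hW1
      omega
  -- step 6
  obtain ⟨M, q, hq0, hqM, hqs, _, hqi⟩ := exists_path E hconn
  have hMpos : 0 < M := by
    rcases Nat.eq_zero_or_pos M with h1 | h1
    · rw [h1, hq0] at hqM
      exact absurd hqM.symm hwz
    · exact h1
  have cq : Conn E (fun v => v ≠ z) (q 1) w := by
    rw [← hqM]
    refine Cn.of_seq' (by omega) (fun k _ hk => hqs k (by omega)) ?_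
    intro k hk1 hk h1
    rw [← hq0] at h1
    have h2 := hqi k 0 hk (by omega) h1
    omega
  have cqW : Conn E (fun v => v ≠ z) (q 1) (s (p (j1 + 1)) (p i2)) := cq.trans cw1
  have cQ : Conn E (fun v => v = z ∨ Conn E (fun v => v ≠ z) w v) z (s (p (j1 + 1)) (p i2)) := by
    refine Cn.head (Or.inl rfl) (y := q 1) ?_ ?_
    · rw [← hq0]
      exact hqs 0 hMpos
    · refine cqW.reach.mono ?_
      intro v hv
      exact Or.inr ((cq.symm adj_symm).trans hv)
  have hQp : p (j1 + 1) = z ∨ Conn E (fun v => v ≠ z) w (p (j1 + 1)) := by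
    by_contra hnQ
    apply hno1
    refine cQ.mono ?_
    intro v hv h1
    rw [h1] at hv
    exact hnQ hv
  rcases hQp with h1 | h1
  · rw [h1] at hi1h
    omega
  · have cpu : Conn E (fun v => v ≠ z) (p (j1 + 1)) u := by
      rw [← hpN]
      refine Cn.of_seq' (by omega) (fun k _ hk => hps k (by omega)) ?_
      intro k hk1 hk h2
      rw [← hp0] at h2
      have h3 := hpi k 0 hk (by omega) h2
      omega
    exact hsep ((h1.trans cpu).symm adj_symm)

end KMMTree
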