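import Pool.Agent.H24.KMM.Mountain

/-!
# Module SYNC: synchronising walks in a digraph with a level function
-/

set_option autoImplicit false

namespace KMMTree

open Relation

variable {V : Type} {E : V → V → Prop} {lam : V → ℤ}

/-- adjacency changes the level by one -/
theorem level_adj (hl : IsLevel E lam) {a b : V} (h : Adj E a b) :
    lam b = lam a + 1 ∨ lam b = lam a - 1 := by
  rcases h with h | h
  · exact Or.inl (hl _ _ h)
  · right
    have := hl _ _ h
    omega

/-- two equally directed steps: `Adj` steps from equal levels to equal levels form an `Adj2` step -/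
theorem adj2_of_level (hl : IsLevel E lam) {a b a' b' : V} (h : Adj E a a') (h' : Adj E b b')
    (h1 : lam a = lam b) (h2 : lam a' = lam b') : Adj2 E (a, b) (a', b') := by
  rcases h with h | h <;> rcases h' with h' | h'
  · exact Or.inl ⟨h, h'⟩
  · exfalso
    have := hl _ _ h
    have := hl _ _ h'
    omega
  · exfalso
    have := hl _ _ h
    have := hl _ _ h'
    omega
  · exact Or.inr ⟨h, h'⟩

theorem adj2_fst {p q : V × V} (h : Adj2 E p q) : Adj E p.1 q.1 := by
  rcases h with h | h
  · exact Or.inl h.1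
  · exact Or.inr h.1

theorem adj2_snd {p q : V × V} (h : Adj2 E p q) : Adj E p.2 q.2 := by
  rcases h with h | h
  · exact Or.inl h.2
  · exact Or.inr h.2

/-- the level difference is constant along walks in the square -/
theorem level_diff (hl : IsLevel E lam) {Q : V × V → Prop} {p q : V × V} (h : Conn2 E Q p q) :
    lam p.1 - lam p.2 = lam q.1 - lam q.2 := by
  refine h.induct (P := fun q => lam p.1 - lam p.2 = lam q.1 - lam q.2) rfl ?_
  intro a b _ h1 h2 _
  rcases h2 with h2 | h2
  · have := hl _ _ h2.1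
    have := hl _ _ h2.2
    omega
  · have := hl _ _ h2.1
    have := hl _ _ h2.2
    omega

/-- Synchronisation (from `mountain`, via `Cn.exists_seq` and `ReflTransGen.lift`-type induction:
`(i,j) ↦ (f i, g j)`). -/
theorem sync_up (hl : IsLevel E lam) {l h : ℤ} {x x' y y' : V}
    (hx : lam x = l) (hy : lam y = l) (hx' : lam x' = h) (hy' : lam y' = h)
    (c : Conn E (Band lam l h) x x') (c' : Conn E (Band lam l h) y y') :
    Conn2 E (Band2 lam l h) (x, y) (x', y') := by
  obtain ⟨m, f, f0, fm, fs, fQ⟩ := c.exists_seq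
  obtain ⟨n, g, g0, gn, gs, gQ⟩ := c'.exists_seq
  have key := mountain (fun i => lam (f i)) (fun j => lam (g j)) m n l h
    (fun i hi => level_adj hl (fs i hi)) (fun j hj => level_adj hl (gs j hj))
    (by simp only [f0, hx]) (by simp only [g0, hy]) (by simp only [fm, hx'])
    (by simp only [gn, hy']) (fun i hi => fQ i hi) (fun j hj => gQ j hj)
  have hadj : ∀ i i', i ≤ m → i' ≤ m → (i' = i + 1 ∨ i = i' + 1) → Adj E (f i) (f i') := by
    intro i i' hi hi' h
    rcases h with rfl | rfl
    · exact fs i (by omega)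
    · exact adj_symm _ _ (fs i' (by omega))
  have gadj : ∀ i i', i ≤ n → i' ≤ n → (i' = i + 1 ∨ i = i' + 1) → Adj E (g i) (g i') := by
    intro i i' hi hi' h
    rcases h with rfl | rfl
    · exact gs i (by omega)
    · exact adj_symm _ _ (gs i' (by omega))
  have hlh : l ≤ h := by
    have := c.left
    rw [Band, hx] at this
    exact this.2
  have main : ∀ p : ℕ × ℕ, ReflTransGen (fun p q : ℕ × ℕ => p.1 ≤ m ∧ p.2 ≤ n ∧ q.1 ≤ m ∧ q.2 ≤ n ∧
      lam (f p.1) = lam (g p.2) ∧ lam (f q.1) = lam (g q.2) ∧ (q.1 = p.1 + 1 ∨ p.1 = q.1 + 1) ∧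
      (q.2 = p.2 + 1 ∨ p.2 = q.2 + 1)) (0, 0) p →
      Conn2 E (Band2 lam l h) (x, y) (f p.1, g p.2) := by
    intro p hp
    induction hp with
    | refl =>
      simp only [f0, g0]
      exact Cn.refl ⟨by simp only [hx, hy], by simp only [hx, le_refl], by simp only [hx]; exact hlh⟩
    | tail h1 h2 ih =>
      obtain ⟨a1, a2, a3, a4, a5, a6, a7, a8⟩ := h2
      refine ih.tail (adj2_of_level hl (hadj _ _ a1 a3 a7) (gadj _ _ a2 a4 a8) a5 a6) ?_
      exact ⟨a6, (fQ _ a3).1, (fQ _ a3).2⟩
  have := main (m, n) key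
  simpa only [fm, gn] using this

/-- the downward version (symmetry of `Conn`, `Conn2`) -/
theorem sync_down (hl : IsLevel E lam) {l h : ℤ} {x x' y y' : V}
    (hx : lam x = h) (hy : lam y = h) (hx' : lam x' = l) (hy' : lam y' = l)
    (c : Conn E (Band lam l h) x x') (c' : Conn E (Band lam l h) y y') :
    Conn2 E (Band2 lam l h) (x, y) (x', y') :=
  (sync_up hl hx' hy' hx hy (c.symm adj_symm) (c'.symm adj_symm)).symm adj2_symm

/-- Folding.  `x ~ x'` inside the band `[l,h]`, both at level `h`; `b` at level `h` is connected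
inside the band to some `y` at level `l`.  Then `(x,b) ~ (x',b)` in the square, inside the band.
Proof: let `l' ≥ l` be the minimal level on the walk `x → x'`, attained at `t`; the walk from `b` to
`y` reaches level `l'` at some `y'` before leaving `[l',h]` (`Cn.exit`, or first index of the
sequence with level `l'`); `sync_down` gives `(x,b) ~ (t,y')` and `sync_up` gives
`(t,y') ~ (x',b)`, both inside `[l',h]`. -/
theorem fold (hl : IsLevel E lam) {l h : ℤ} {x x' b y : V}
    (hx : lam x = h) (hx' : lam x' = h) (hb : lam b = h) (hy : lam y = l)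
    (c : Conn E (Band lam l h) x x') (c' : Conn E (Band lam l h) b y) :
    Conn2 E (Band2 lam l h) (x, b) (x', b) := by
  obtain ⟨m, f, f0, fm, fs, fQ⟩ := c.exists_seq
  obtain ⟨t, ht, hmin⟩ := Finset.exists_min_image (Finset.range (m + 1)) (fun i => lam (f i))
    ⟨0, by simp⟩
  rw [Finset.mem_range] at ht
  have htm : t ≤ m := by omega
  have hmin' : ∀ i, i ≤ m → lam (f t) ≤ lam (f i) := fun i hi =>
    hmin i (Finset.mem_range.2 (by omega))
  set l' := lam (f t) with hl'
  have hll' : l ≤ l' := (fQ t htm).1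
  have hl'h : l' ≤ h := (fQ t htm).2
  -- the point `y'`
  obtain ⟨y', hy', cy'⟩ : ∃ y', lam y' = l' ∧ Conn E (Band lam l' h) b y' := by
    have hex := c'.exit (Q' := fun v => l' ≤ lam v) (by simp only [hb]; exact hl'h)
    have hmono : ∀ v, (Band lam l h v ∧ l' ≤ lam v) → Band lam l' h v := fun v hv =>
      ⟨hv.2, hv.1.2⟩
    rcases hex with h1 | ⟨a, a', h1, h2, h3, h4⟩
    · refine ⟨y, ?_, h1.mono hmono⟩
      have := h1.right.2
      omega
    · refine ⟨a, ?_, h1.mono hmono⟩
      have h5 := h1.right.2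
      have h6 := level_adj hl h2
      omega
  have hQ' : ∀ i, i ≤ m → Band lam l' h (f i) := fun i hi => ⟨hmin' i hi, (fQ i hi).2⟩
  have c1 : Conn E (Band lam l' h) x (f t) := by
    have := Cn.of_seq fs hQ' (Nat.zero_le t) htm
    rwa [f0] at this
  have c2 : Conn E (Band lam l' h) (f t) x' := by
    have := Cn.of_seq fs hQ' htm le_rfl
    rwa [fm] at this
  have d1 := sync_down hl hx hb rfl hy' c1 cy'
  have d2 := sync_up hl rfl hy' hx' hb c2 (cy'.symm adj_symm)
  exact (d1.trans d2).mono fun v hv => ⟨hv.1, hll'.trans hv.2.1, hv.2.2⟩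

/-- If `x ~ y` by a walk whose levels are all at most `H = lam x = lam y`, then `(x,y)` is connected
to the diagonal. Proof: split the walk at a point `t` of minimal level `l`; `sync_down` for
`x → t` and `y → t`. -/
theorem to_diag (hl : IsLevel E lam) {H : ℤ} {x y : V} (hx : lam x = H) (hy : lam y = H)
    (c : Conn E (fun v => lam v ≤ H) x y) :
    ∃ t, Conn2 E (fun _ => True) (x, y) (t, t) := by
  obtain ⟨m, f, f0, fm, fs, fQ⟩ := c.exists_seq
  obtain ⟨t, ht, hmin⟩ := Finset.exists_min_image (Finset.range (m + 1)) (fun i => lam (f i))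
    ⟨0, by simp⟩
  rw [Finset.mem_range] at ht
  have htm : t ≤ m := by omega
  have hQ' : ∀ i, i ≤ m → Band lam (lam (f t)) H (f i) := fun i hi =>
    ⟨hmin i (Finset.mem_range.2 (by omega)), fQ i hi⟩
  have c1 : Conn E (Band lam (lam (f t)) H) x (f t) := by
    have := Cn.of_seq fs hQ' (Nat.zero_le t) htm
    rwa [f0] at this
  have c2 : Conn E (Band lam (lam (f t)) H) (f t) y := by
    have := Cn.of_seq fs hQ' htm le_rfl
    rwa [fm] at this
  exact ⟨f t, (sync_down hl hx hy rfl rfl c1 (c2.symm adj_symm)).mono fun _ _ => trivial⟩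

/-- Lemma C. If `(x,y) ~ (y,x)` in the square, then `(x,y)` is connected to the diagonal.
Proof: the walk `(X_t,Y_t)`, `t = 0..n`. `level_diff` gives `lam X_t = lam Y_t` for all `t`.  Take `t`
with `lam X_t =: H` maximal.  `X_t → X_n = y = Y_0 → Y_t` is a walk with all levels `≤ H`;
`to_diag` applies to `X_t, Y_t`. -/
theorem swap_to_diag (hl : IsLevel E lam) {x y : V}
    (c : Conn2 E (fun _ => True) (x, y) (y, x)) :
    ∃ t, Conn2 E (fun _ => True) (x, y) (t, t) := by
  obtain ⟨n, F, F0, Fn, Fs, -⟩ := c.exists_seq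
  have hQ : ∀ i, i ≤ n → (fun _ : V × V => True) (F i) := fun _ _ => trivial
  have hxy : lam x = lam y := by
    have := level_diff hl c
    simp only at this
    omega
  have hlev : ∀ i, i ≤ n → lam (F i).1 = lam (F i).2 := by
    intro i hi
    have h1 : Conn2 E (fun _ => True) (F 0) (F i) := Cn.of_seq Fs hQ (Nat.zero_le i) hi
    have h2 := level_diff hl h1
    rw [F0] at h2
    simp only at h2
    omega
  obtain ⟨t, ht, hmax⟩ := Finset.exists_max_image (Finset.range (n + 1)) (fun i => lam (F i).1)
    ⟨0, by simp⟩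
  rw [Finset.mem_range] at ht
  have htn : t ≤ n := by omega
  have hmax' : ∀ i, i ≤ n → lam (F i).1 ≤ lam (F t).1 := fun i hi =>
    hmax i (Finset.mem_range.2 (by omega))
  have w1 : Conn E (fun v => lam v ≤ lam (F t).1) (F t).1 y := by
    have := Cn.of_seq' (r := Adj E) (Q := fun v => lam v ≤ lam (F t).1) (f := fun i => (F i).1)
      htn (fun k _ hk => adj2_fst (Fs k hk)) (fun k _ hk => hmax' k hk)
    simp only [Fn] at this
    exact this
  have w2 : Conn E (fun v => lam v ≤ lam (F t).1) y (F t).2 := by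
    have := Cn.of_seq' (r := Adj E) (Q := fun v => lam v ≤ lam (F t).1) (f := fun i => (F i).2)
      (Nat.zero_le t) (fun k _ hk => adj2_snd (Fs k (by omega))) (fun k _ hk => by
        rw [← hlev k (by omega)]
        exact hmax' k (by omega))
    simp only [F0] at this
    exact this
  obtain ⟨s, hs⟩ := to_diag hl (rfl : lam (F t).1 = lam (F t).1) (hlev t htn).symm (w1.trans w2)
  refine ⟨s, ?_⟩
  have h1 : Conn2 E (fun _ => True) (F 0) (F t) := Cn.of_seq Fs hQ (Nat.zero_le t) htn
  rw [F0] at h1
  exact h1.trans hs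

end KMMTree
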